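import Pool.Agent.Lib.MP_1a91b9_nuT.Mult.Add1

/-!
# Multiplication polynomials, file Add2: zeros of `℘ - e`

Write P for L.weierstrassP, Q for L.derivWeierstrassP, e = P c,
h z = P (z + c) + P (z - c) - 2 e, generic z: z, z + c, z - c not in L (holds eventually on
𝓝[≠] s for every s: eventually_notMem, eventually_add_notMem), and P z ≠ e (eventually_P_ne).

PROOF of not_both. By ha, h z * (P z - e)^2 = 0 for generic z, so h z = 0 eventually on 𝓝[≠] c. But
(z - c)^2 * h z → 1 (if 2c ∉ L: (z - c)^2 P (z - c) → 1 by tendsto_P_lattice translated, and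
P (z + c) is continuous at c) or → 2 (if 2c ∈ L: P (z + c) = P (z - c) by P_add), on 𝓝[≠] c.
Contradiction by uniqueness of limits.

PROOF of Q_ne. c ∉ L (if c ∈ L then 2c ∈ L). Suppose Q c = 0. Take a from add_formula. For generic z,
h z * (P z - e) = a (cancel P z - e ≠ 0). Limit z → c: (z - c)^2 h z → 1 (2c ∉ L), so
(P z - e) / (z - c)^2 → a: [ (P z - e) = a / h z; precisely
(P z - e)/(z-c)^2 * ((z-c)^2 h z) = a for generic z ≠ c so (P z - e)/(z-c)^2 = a / ((z-c)^2 h z) → a].
Put z = c + w, w → 0: (P (c + w) - e) / w^2 → a, and with -w: (P (c - w) - e) / w^2 → a. Adding: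
(P (c + w) + P (c - w) - 2 e) / w^2 → 2 a. Since P (c - w) = P (w - c) (L.weierstrassP_neg), this is
h w / w^2 → 2a. On the other hand at z = w → 0: h w * (P w - e) = a and w^2 (P w - e) → 1
(tendsto_P_lattice for l = 0), so h w / w^2 = a / (w^2 (P w - e)) → a. So a = 2 a, a = 0:
contradiction with not_both.

PROOF of P_inj. Suppose b - c ∉ L and b + c ∉ L. Take a from add_formula (for c). With z = b:
0 = 0 + (Q c)^2, so Q c = 0. Then for generic z: h z * (P z - e) = a. Limit z → b (h is continuous at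
b, P z - e → 0): a = 0. Contradiction with not_both.
-/

set_option autoImplicit false

namespace Pool.Agent.Lib.MP_1a91b9_nuT.Mult

open Complex Filter Topology

noncomputable section

variable {L : PeriodPair}

private theorem Add2_gen (c s : ℂ) : ∀ᶠ z in 𝓝[≠] s, z ∉ L.lattice ∧ z + c ∉ L.lattice ∧
    z - c ∉ L.lattice ∧ L.weierstrassP z ≠ L.weierstrassP c := by
  filter_upwards [eventually_add_notMem L 0 s, eventually_add_notMem L c s,
    eventually_add_notMem L (-c) s, eventually_P_ne L (L.weierstrassP c) s] with z h1 h2 h3 h4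
  rw [add_zero] at h1
  rw [← sub_eq_add_neg] at h3
  exact ⟨h1, h2, h3, h4⟩

private theorem Add2_pole (c : ℂ) :
    Tendsto (fun z => (z - c) ^ 2 * L.weierstrassP (z - c)) (𝓝[≠] c) (𝓝 1) := by
  have h := tendsto_P_lattice (L := L) (zero_mem L.lattice)
  refine (tendsto_translate (l := c) h).congr fun z => ?_
  rw [sub_zero]

private theorem Add2_lim {c : ℂ} (h2 : 2 * c ∉ L.lattice) :
    Tendsto (fun z => (z - c) ^ 2 * (L.weierstrassP (z + c) + L.weierstrassP (z - c) -
      2 * L.weierstrassP c)) (𝓝[≠] c) (𝓝 1) := by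
  have h3 : c + c ∉ L.lattice := by rwa [← two_mul]
  have h4 : ContinuousAt (fun z => L.weierstrassP (z + c)) c :=
    ContinuousAt.comp (g := L.weierstrassP) (f := fun z : ℂ => z + c) (continuousAt_P h3)
      (by fun_prop)
  have h5 : ContinuousAt (fun z => (z - c) ^ 2 * (L.weierstrassP (z + c) -
      2 * L.weierstrassP c)) c :=
    ContinuousAt.mul (by fun_prop) (h4.sub continuousAt_const)
  have h6 := h5.tendsto.mono_left (nhdsWithin_le_nhds (s := {c}ᶜ))
  have h7 := (Add2_pole (L := L) c).add h6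
  rw [sub_self, zero_pow (two_ne_zero), zero_mul, add_zero] at h7
  refine h7.congr fun z => ?_
  ring

private theorem Add2_lim_half {c : ℂ} (h2 : 2 * c ∈ L.lattice) :
    Tendsto (fun z => (z - c) ^ 2 * (L.weierstrassP (z + c) + L.weierstrassP (z - c) -
      2 * L.weierstrassP c)) (𝓝[≠] c) (𝓝 2) := by
  have h5 : ContinuousAt (fun z => (z - c) ^ 2 * (2 * L.weierstrassP c)) c := by fun_prop
  have h6 := h5.tendsto.mono_left (nhdsWithin_le_nhds (s := {c}ᶜ))
  have h7 := ((Add2_pole (L := L) c).add (Add2_pole (L := L) c)).sub h6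
  rw [sub_self, zero_pow (two_ne_zero), zero_mul, sub_zero] at h7
  have h8 : (1 : ℂ) + 1 = 2 := by norm_num
  rw [h8] at h7
  refine h7.congr fun z => ?_
  have h9 := P_add h2 (z - c)
  rw [show z - c + 2 * c = z + c by ring] at h9
  rw [h9]
  ring

/-- If the coefficient `a` of the addition formula and `℘'(c)` vanish, contradiction. -/
theorem not_both {c : ℂ} (hc : c ∉ L.lattice) {a : ℂ}
    (ha : ∀ z, z ∉ L.lattice → z + c ∉ L.lattice → z - c ∉ L.lattice →
      (L.weierstrassP (z + c) + L.weierstrassP (z - c) - 2 * L.weierstrassP c) *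
        (L.weierstrassP z - L.weierstrassP c) ^ 2 =
      a * (L.weierstrassP z - L.weierstrassP c) + L.derivWeierstrassP c ^ 2)
    (h1 : a = 0) (h2 : L.derivWeierstrassP c = 0) : False := by
  have h3 : ∀ᶠ z in 𝓝[≠] c, (0 : ℂ) = (z - c) ^ 2 * (L.weierstrassP (z + c) +
      L.weierstrassP (z - c) - 2 * L.weierstrassP c) := by
    filter_upwards [Add2_gen (L := L) c c] with z hz
    have h4 := ha z hz.1 hz.2.1 hz.2.2.1
    rw [h1, h2, zero_mul, zero_pow (two_ne_zero), add_zero] at h4
    have h5 : (L.weierstrassP z - L.weierstrassP c) ^ 2 ≠ 0 :=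
      pow_ne_zero _ (sub_ne_zero.2 hz.2.2.2)
    rw [(mul_eq_zero.1 h4).resolve_right h5, mul_zero]
  have h6 : Tendsto (fun z => (z - c) ^ 2 * (L.weierstrassP (z + c) + L.weierstrassP (z - c) -
      2 * L.weierstrassP c)) (𝓝[≠] c) (𝓝 0) := tendsto_const_nhds.congr' h3
  by_cases h7 : 2 * c ∈ L.lattice
  · exact two_ne_zero (tendsto_nhds_unique (Add2_lim_half h7) h6)
  · exact one_ne_zero (tendsto_nhds_unique (Add2_lim h7) h6)

/-- At a half period the coefficient does not vanish. -/
theorem coef_ne {c : ℂ} (hc : c ∉ L.lattice) (h2 : 2 * c ∈ L.lattice) {a : ℂ}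
    (ha : ∀ z, z ∉ L.lattice → z + c ∉ L.lattice → z - c ∉ L.lattice →
      (L.weierstrassP (z + c) + L.weierstrassP (z - c) - 2 * L.weierstrassP c) *
        (L.weierstrassP z - L.weierstrassP c) ^ 2 =
      a * (L.weierstrassP z - L.weierstrassP c) + L.derivWeierstrassP c ^ 2) : a ≠ 0 :=
  fun h => not_both hc ha h (Q_half h2)

/-- The derivative vanishes only at the half periods. -/
theorem Q_ne {c : ℂ} (h2 : 2 * c ∉ L.lattice) : L.derivWeierstrassP c ≠ 0 := by
  intro h0
  have hc : c ∉ L.lattice := by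
    intro h
    apply h2
    rw [two_mul]
    exact add_mem h h
  obtain ⟨a, ha⟩ := add_formula hc
  have hane : a ≠ 0 := fun h => not_both hc ha h h0
  have hgen : ∀ s : ℂ, ∀ᶠ z in 𝓝[≠] s, (L.weierstrassP (z + c) + L.weierstrassP (z - c) -
      2 * L.weierstrassP c) * (L.weierstrassP z - L.weierstrassP c) = a := by
    intro s
    filter_upwards [Add2_gen (L := L) c s] with z hz
    have h4 := ha z hz.1 hz.2.1 hz.2.2.1
    have h5 : L.weierstrassP z - L.weierstrassP c ≠ 0 := sub_ne_zero.2 hz.2.2.2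
    rw [h0, zero_pow (two_ne_zero), add_zero] at h4
    apply mul_right_cancel₀ h5
    rw [← h4]
    ring
  -- the limit at `c`
  have h6 : Tendsto (fun z => (L.weierstrassP z - L.weierstrassP c) / (z - c) ^ 2) (𝓝[≠] c)
      (𝓝 a) := by
    have h7 : Tendsto (fun z => a / ((z - c) ^ 2 * (L.weierstrassP (z + c) +
        L.weierstrassP (z - c) - 2 * L.weierstrassP c))) (𝓝[≠] c) (𝓝 (a / 1)) :=
      tendsto_const_nhds.div (Add2_lim h2) one_ne_zero
    rw [div_one] at h7
    refine h7.congr' ?_
    filter_upwards [hgen c, self_mem_nhdsWithin] with z hz hzc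
    have hzc0 : z - c ≠ 0 := sub_ne_zero.2 hzc
    have hh : L.weierstrassP (z + c) + L.weierstrassP (z - c) - 2 * L.weierstrassP c ≠ 0 := by
      intro h
      rw [h, zero_mul] at hz
      exact hane hz.symm
    rw [div_eq_div_iff (mul_ne_zero (pow_ne_zero _ hzc0) hh) (pow_ne_zero _ hzc0), ← hz]
    ring
  have hplus : Tendsto (fun w : ℂ => (L.weierstrassP (c + w) - L.weierstrassP c) / w ^ 2)
      (𝓝[≠] 0) (𝓝 a) := by
    have h8 : Tendsto (fun w : ℂ => c + w) (𝓝[≠] 0) (𝓝[≠] c) := by
      refine tendsto_nhdsWithin_iff.2 ⟨?_, ?_⟩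
      · have h9 : ContinuousAt (fun w : ℂ => c + w) 0 := by fun_prop
        have h10 := h9.tendsto
        rw [add_zero] at h10
        exact h10.mono_left nhdsWithin_le_nhds
      · filter_upwards [self_mem_nhdsWithin] with w hw h
        exact hw (by simpa using h)
    refine (h6.comp h8).congr fun w => ?_
    rw [Function.comp_apply, add_sub_cancel_left]
  have hminus : Tendsto (fun w : ℂ => (L.weierstrassP (c - w) - L.weierstrassP c) / w ^ 2)
      (𝓝[≠] 0) (𝓝 a) := by
    have h8 : Tendsto (fun w : ℂ => -w) (𝓝[≠] 0) (𝓝[≠] 0) := by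
      refine tendsto_nhdsWithin_iff.2 ⟨?_, ?_⟩
      · have h9 : ContinuousAt (fun w : ℂ => -w) 0 := by fun_prop
        have h10 := h9.tendsto
        rw [neg_zero] at h10
        exact h10.mono_left nhdsWithin_le_nhds
      · filter_upwards [self_mem_nhdsWithin] with w hw h
        exact hw (by simpa using h)
    refine (hplus.comp h8).congr fun w => ?_
    rw [Function.comp_apply, neg_sq, ← sub_eq_add_neg]
  have hsum := hplus.add hminus
  -- the limit at `0`
  have h11 : Tendsto (fun z : ℂ => z ^ 2 * (L.weierstrassP z - L.weierstrassP c)) (𝓝[≠] 0)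
      (𝓝 1) := by
    have h12 := tendsto_P_lattice (L := L) (zero_mem L.lattice)
    have h13 : ContinuousAt (fun z : ℂ => z ^ 2 * L.weierstrassP c) 0 := by fun_prop
    have h14 := h13.tendsto.mono_left (nhdsWithin_le_nhds (s := {0}ᶜ))
    have h15 := h12.sub h14
    rw [zero_pow (two_ne_zero), zero_mul, sub_zero] at h15
    refine h15.congr fun z => ?_
    rw [sub_zero]
    ring
  have h16 : Tendsto (fun z : ℂ => a / (z ^ 2 * (L.weierstrassP z - L.weierstrassP c))) (𝓝[≠] 0)
      (𝓝 (a / 1)) := tendsto_const_nhds.div h11 one_ne_zero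
  rw [div_one] at h16
  have h17 : Tendsto (fun w : ℂ => a / (w ^ 2 * (L.weierstrassP w - L.weierstrassP c))) (𝓝[≠] 0)
      (𝓝 (a + a)) := by
    refine hsum.congr' ?_
    filter_upwards [hgen 0, self_mem_nhdsWithin] with w hw hw0
    have hw0' : w ≠ 0 := hw0
    have hh : L.weierstrassP w - L.weierstrassP c ≠ 0 := by
      intro h
      rw [h, mul_zero] at hw
      exact hane hw.symm
    have hneg : L.weierstrassP (c - w) = L.weierstrassP (w - c) := by
      rw [← L.weierstrassP_neg, neg_sub]
    rw [← add_div, div_eq_div_iff (pow_ne_zero _ hw0') (mul_ne_zero (pow_ne_zero _ hw0') hh),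
      ← hw, hneg, add_comm c w]
    ring
  have h18 := tendsto_nhds_unique h16 h17
  apply hane
  linear_combination -h18

/-- The Weierstrass function is injective up to sign. -/
theorem P_inj {b c : ℂ} (hb : b ∉ L.lattice) (hc : c ∉ L.lattice)
    (h : L.weierstrassP b = L.weierstrassP c) : b - c ∈ L.lattice ∨ b + c ∈ L.lattice := by
  by_contra hcon
  rw [not_or] at hcon
  obtain ⟨hbm, hbp⟩ := hcon
  obtain ⟨a, ha⟩ := add_formula hc
  have h1 := ha b hb hbp hbm
  rw [h, sub_self, mul_zero, zero_pow (two_ne_zero), mul_zero, zero_add] at h1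
  have hQ : L.derivWeierstrassP c = 0 := by
    by_contra hne
    exact pow_ne_zero 2 hne h1.symm
  have hgen : ∀ᶠ z in 𝓝[≠] b, (L.weierstrassP (z + c) + L.weierstrassP (z - c) -
      2 * L.weierstrassP c) * (L.weierstrassP z - L.weierstrassP c) = a := by
    filter_upwards [Add2_gen (L := L) c b] with z hz
    have h4 := ha z hz.1 hz.2.1 hz.2.2.1
    have h5 : L.weierstrassP z - L.weierstrassP c ≠ 0 := sub_ne_zero.2 hz.2.2.2
    rw [hQ, zero_pow (two_ne_zero), add_zero] at h4
    apply mul_right_cancel₀ h5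
    rw [← h4]
    ring
  have h4 : ContinuousAt (fun z => L.weierstrassP (z + c)) b :=
    ContinuousAt.comp (g := L.weierstrassP) (f := fun z : ℂ => z + c) (continuousAt_P hbp)
      (by fun_prop)
  have h5 : ContinuousAt (fun z => L.weierstrassP (z - c)) b :=
    ContinuousAt.comp (g := L.weierstrassP) (f := fun z : ℂ => z - c) (continuousAt_P hbm)
      (by fun_prop)
  have h6 : ContinuousAt (fun z => (L.weierstrassP (z + c) + L.weierstrassP (z - c) -
      2 * L.weierstrassP c) * (L.weierstrassP z - L.weierstrassP c)) b :=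
    ((h4.add h5).sub continuousAt_const).mul ((continuousAt_P hb).sub continuousAt_const)
  have h7 := h6.tendsto.mono_left (nhdsWithin_le_nhds (s := {b}ᶜ))
  rw [h, sub_self, mul_zero] at h7
  have h8 : Tendsto (fun _ : ℂ => a) (𝓝[≠] b) (𝓝 0) := h7.congr' hgen
  exact not_both hc ha (tendsto_nhds_unique tendsto_const_nhds h8) hQ

end

end Pool.Agent.Lib.MP_1a91b9_nuT.Mult
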