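import Mathlib

/-!
# Multiplication polynomials, file Int: scaling to integral polynomials

Pure algebra. PROOF. There is d : ℤ, d ≠ 0 such that d * N.coeff j and d * D.coeff j are algebraic
integers for all j (finitely many coefficients; IsLocalization.exist_integer_multiples_of_finset for
𝓞 K and its fraction field K, or IsIntegral: exists_integral_multiple over ℤ: every x : K has an
integer d ≠ 0 with d x integral; take the product over the supports). Let g = ta^3; there is also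
an integer w ≠ 0 with ta^3 ∣ w in 𝓞 K (e.g. w = (Algebra.norm ℤ ta)^3, ta ∣ norm:
Algebra.norm ... dvd_algebraMap_norm? or Ideal.absNorm_mem: take w = (Ideal.absNorm (span {ta}))^3).
Let u = d * w. For x with d x = algebraMap y (y : 𝓞 K): u^2 x = u * w * y is in ta^3 * 𝓞 K, and so is
(u^2)^k x for k ≥ 1. Define N₁ j : 𝓞 K with ta^3 * N₁ j = (u^2)^(n-j) * N.coeff j for j < n (in K), and
Nt = X^n + C (ta^3) * ∑ j ∈ range n, monomial j (N₁ j); similarly D₁ j with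
ta^3 * D₁ j = (u^2)^(n-1-j) * D.coeff j for j < n - 1 and
Dt = C (ta^2) * X^(n-1) + C (ta^3) * ∑ j ∈ range (n-1), monomial j (D₁ j).
Then Nt.map _ has coefficients (u^2)^(n-j) * N.coeff j for j ≤ n, Dt.map _ has coefficients
(u^2)^(n-1-j) * D.coeff j for j ≤ n - 1. Monic, natDegree n; Dt natDegree n - 1 and leading
coefficient ta^2 (≠ 0). Evaluation: eval₂ at u^2 x: ∑ (u^2)^(n-j) N_j (u^2)^j x^j =
(u^2)^n ∑ N_j x^j (eval₂_eq_sum_range' or: Nt.map = (u^2)^n * N.comp (C ((u^2)⁻¹) * X)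
= N.scaleRoots (u^2): Mathlib has Polynomial.scaleRoots with coeff_scaleRoots:
(scaleRoots p s).coeff i = p.coeff i * s ^ (p.natDegree - i) , scaleRoots_eval₂_mul,
natDegree_scaleRoots, monic_scaleRoots_iff; so Nt.map _ = scaleRoots N (u^2), Dt.map _ =
scaleRoots D (u^2)). Coprime: from a N + b D = 1 substitute: scaleRoots p s =
C (s^natDegree) * p.comp (C s⁻¹ * X) for s ≠ 0; comp is a ring hom (compRingHom), so
IsCoprime.map; then multiply by units (isCoprime_mul_unit_left etc. / IsUnit C). Mathlib may have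
IsCoprime for scaleRoots already (Polynomial.isCoprime_scaleRoots?). QED
-/

set_option autoImplicit false

namespace Pool.Agent.Lib.MP_1a91b9_nuT.Mult

open Polynomial NumberField

noncomputable section

private theorem Int_aux {K : Type*} [Field K] [NumberField K] (g s : 𝓞 K) (p : K[X]) (c : 𝓞 K)
    (hc : p.leadingCoeff = algebraMap (𝓞 K) K c)
    (h : ∀ i, ∃ y : 𝓞 K, algebraMap (𝓞 K) K g * algebraMap (𝓞 K) K y =
      algebraMap (𝓞 K) K s * p.coeff i) :
    ∃ P₁ : (𝓞 K)[X], (C c * X ^ p.natDegree + C g * P₁).map (algebraMap (𝓞 K) K) =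
      scaleRoots p (algebraMap (𝓞 K) K s) := by
  choose y hy using h
  refine ⟨∑ j ∈ Finset.range p.natDegree, monomial j (s ^ (p.natDegree - j - 1) * y j), ?_⟩
  ext i
  rw [coeff_map, coeff_add, coeff_C_mul, coeff_C_mul, coeff_scaleRoots, finsetSum_coeff,
    coeff_X_pow]
  simp only [coeff_monomial]
  rw [Finset.sum_ite_eq' (Finset.range p.natDegree) i
    (fun j => s ^ (p.natDegree - j - 1) * y j)]
  rcases lt_trichotomy i p.natDegree with hi | hi | hi
  · rw [if_neg (by omega : ¬ i = p.natDegree), if_pos (Finset.mem_range.2 hi)]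
    obtain ⟨k, hk⟩ : ∃ k, p.natDegree - i = k + 1 := ⟨p.natDegree - i - 1, by omega⟩
    rw [hk, Nat.add_sub_cancel]
    rw [mul_zero, zero_add, map_mul, map_mul, map_pow]
    calc algebraMap (𝓞 K) K g * ((algebraMap (𝓞 K) K s) ^ k * algebraMap (𝓞 K) K (y i))
        = (algebraMap (𝓞 K) K s) ^ k * (algebraMap (𝓞 K) K g * algebraMap (𝓞 K) K (y i)) := by ring
      _ = p.coeff i * (algebraMap (𝓞 K) K s) ^ (k + 1) := by rw [hy i]; ring
  · subst hi
    rw [if_pos rfl, if_neg (by simp)]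
    rw [mul_one, mul_zero, add_zero, Nat.sub_self, pow_zero, mul_one]
    exact hc.symm
  · rw [if_neg (by omega), if_neg (by simp; omega), coeff_eq_zero_of_natDegree_lt hi]
    simp

private theorem Int_mult {K : Type*} [Field K] [NumberField K] (g : 𝓞 K) (hg : g ≠ 0)
    (S : Finset K) : ∃ u : ℤ, u ≠ 0 ∧ ∀ x ∈ S, ∃ y : 𝓞 K,
      algebraMap (𝓞 K) K g * algebraMap (𝓞 K) K y =
        algebraMap (𝓞 K) K ((u : 𝓞 K) ^ 2) * x := by
  have halg : Algebra.IsAlgebraic ℤ K := by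
    have h1 : Algebra.IsAlgebraic ℤ (𝓞 K) := Algebra.IsIntegral.isAlgebraic
    have h2 : Algebra.IsAlgebraic (𝓞 K) K := IsLocalization.isAlgebraic K (nonZeroDivisors (𝓞 K))
    exact Algebra.IsAlgebraic.trans ℤ (𝓞 K) K
  obtain ⟨d, hd, hS⟩ := Algebra.IsAlgebraic.exists_integral_multiples ℤ S
  have hI : Ideal.span {g} ≠ ⊥ := by
    rw [Ne, Ideal.span_singleton_eq_bot]
    exact hg
  have hw : Ideal.absNorm (Ideal.span {g}) ≠ 0 := by
    rw [Ne, Ideal.absNorm_eq_zero_iff]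
    exact hI
  obtain ⟨z, hz⟩ := Ideal.mem_span_singleton'.1 (Ideal.absNorm_mem (Ideal.span {g}))
  refine ⟨d * (Ideal.absNorm (Ideal.span {g}) : ℤ), mul_ne_zero hd (by exact_mod_cast hw), ?_⟩
  intro x hx
  have hx1 := hS x hx
  let y0 : 𝓞 K := ⟨d • x, hx1⟩
  have hy0 : algebraMap (𝓞 K) K y0 = (d : K) * x := by
    show d • x = _
    rw [zsmul_eq_mul]
  have hz1 : algebraMap (𝓞 K) K z * algebraMap (𝓞 K) K g = (Ideal.absNorm (Ideal.span {g}) : K) := by
    have := congrArg (algebraMap (𝓞 K) K) hz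
    rw [map_mul, map_natCast] at this
    exact this
  refine ⟨(d : 𝓞 K) * (Ideal.absNorm (Ideal.span {g}) : 𝓞 K) * z * y0, ?_⟩
  simp only [map_mul, map_pow, map_intCast, map_natCast, Int.cast_mul, Int.cast_natCast]
  rw [hy0]
  linear_combination ((d : K) ^ 2 * (Ideal.absNorm (Ideal.span {g}) : K) * x) * hz1

/-- Scaling of a pair of polynomials over `K` to a pair of polynomials over `𝓞 K` whose lower
coefficients are divisible by `ta ^ 3`. -/
theorem exists_integral {K : Type*} [Field K] [NumberField K] (ta : 𝓞 K) (hta : ta ≠ 0) (n : ℕ)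
    (hn : 0 < n) (N D : K[X]) (hN : N.Monic) (hN1 : N.natDegree = n)
    (hD1 : D.natDegree + 1 = n) (hD : D.leadingCoeff = (ta : K) ^ 2) (hc : IsCoprime N D) :
    ∃ (u : ℤ) (Nt Dt : (𝓞 K)[X]), u ≠ 0 ∧ Nt.Monic ∧ Nt.natDegree = n ∧
      Dt.natDegree + 1 = n ∧ Dt.leadingCoeff = ta ^ 2 ∧
      (∃ N₁ : (𝓞 K)[X], Nt = X ^ n + C (ta ^ 3) * N₁) ∧
      (∃ D₁ : (𝓞 K)[X], Dt = C (ta ^ 2) * X ^ (n - 1) + C (ta ^ 3) * D₁) ∧
      IsCoprime (Nt.map (algebraMap (𝓞 K) K)) (Dt.map (algebraMap (𝓞 K) K)) ∧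
      ∀ {F : Type} [Field F] (ι : K →+* F) (x : F),
        eval₂ (ι.comp (algebraMap (𝓞 K) K)) ((u : F) ^ 2 * x) Nt =
          ((u : F) ^ 2) ^ n * eval₂ ι x N ∧
        eval₂ (ι.comp (algebraMap (𝓞 K) K)) ((u : F) ^ 2 * x) Dt =
          ((u : F) ^ 2) ^ (n - 1) * eval₂ ι x D := by
  classical
  obtain ⟨u, hu, hS⟩ := Int_mult (ta ^ 3) (pow_ne_zero 3 hta)
    (insert 0 (N.support.image N.coeff ∪ D.support.image D.coeff))
  have hcoef : ∀ (p : K[X]), (p = N ∨ p = D) → ∀ i, ∃ y : 𝓞 K,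
      algebraMap (𝓞 K) K (ta ^ 3) * algebraMap (𝓞 K) K y =
        algebraMap (𝓞 K) K ((u : 𝓞 K) ^ 2) * p.coeff i := by
    intro p hp i
    apply hS
    rw [Finset.mem_insert]
    by_cases hi : p.coeff i = 0
    · exact Or.inl hi
    · right
      rw [Finset.mem_union]
      rcases hp with rfl | rfl
      · exact Or.inl (Finset.mem_image.2 ⟨i, mem_support_iff.2 hi, rfl⟩)
      · exact Or.inr (Finset.mem_image.2 ⟨i, mem_support_iff.2 hi, rfl⟩)
  have hinj : Function.Injective (algebraMap (𝓞 K) K) := RingOfIntegers.coe_injective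
  have hN0 : N.leadingCoeff = algebraMap (𝓞 K) K 1 := by
    rw [map_one]
    exact hN
  have hD0 : D.leadingCoeff = algebraMap (𝓞 K) K (ta ^ 2) := by
    rw [map_pow]
    exact hD
  obtain ⟨N₁, hN₁⟩ := Int_aux (ta ^ 3) ((u : 𝓞 K) ^ 2) N 1 hN0 (hcoef N (Or.inl rfl))
  obtain ⟨D₁, hD₁⟩ := Int_aux (ta ^ 3) ((u : 𝓞 K) ^ 2) D (ta ^ 2) hD0 (hcoef D (Or.inr rfl))
  have hDn : D.natDegree = n - 1 := by omega
  rw [hN1] at hN₁
  rw [hDn] at hD₁
  have hs : (algebraMap (𝓞 K) K ((u : 𝓞 K) ^ 2)) ≠ 0 := by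
    rw [map_pow, map_intCast]
    exact pow_ne_zero 2 (Int.cast_ne_zero.2 hu)
  have hev : ∀ (p : K[X]) (P : (𝓞 K)[X]),
      P.map (algebraMap (𝓞 K) K) = scaleRoots p (algebraMap (𝓞 K) K ((u : 𝓞 K) ^ 2)) →
      ∀ {F : Type} [Field F] (ι : K →+* F) (x : F),
        eval₂ (ι.comp (algebraMap (𝓞 K) K)) ((u : F) ^ 2 * x) P =
          ((u : F) ^ 2) ^ p.natDegree * eval₂ ι x p := by
    intro p P hP F _ ι x
    have h1 := scaleRoots_eval₂_mul (p := p) ι x (algebraMap (𝓞 K) K ((u : 𝓞 K) ^ 2))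
    rw [← hP, eval₂_map] at h1
    have h2 : ι (algebraMap (𝓞 K) K ((u : 𝓞 K) ^ 2)) = (u : F) ^ 2 := by
      rw [map_pow, map_intCast, map_pow, map_intCast]
    rw [h2] at h1
    exact h1
  refine ⟨u, C 1 * X ^ n + C (ta ^ 3) * N₁, C (ta ^ 2) * X ^ (n - 1) + C (ta ^ 3) * D₁, hu,
    ?_, ?_, ?_, ?_, ⟨N₁, by rw [C_1, one_mul]⟩, ⟨D₁, rfl⟩, ?_, ?_⟩
  · refine Polynomial.monic_of_injective hinj ?_
    rw [hN₁]
    exact (monic_scaleRoots_iff _).2 hN
  · rw [← natDegree_map_eq_of_injective hinj, hN₁, natDegree_scaleRoots, hN1]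
  · rw [← natDegree_map_eq_of_injective hinj, hD₁, natDegree_scaleRoots, hD1]
  · apply hinj
    rw [← leadingCoeff_map_of_injective hinj, hD₁, leadingCoeff_scaleRoots]
    exact hD0
  · rw [hN₁, hD₁]
    exact isCoprime_scaleRoots N D _ (isUnit_iff_ne_zero.2 hs) hc
  · intro F _ ι x
    have h1 := hev N _ hN₁ ι x
    have h2 := hev D _ hD₁ ι x
    rw [hN1] at h1
    rw [hDn] at h2
    exact ⟨h1, h2⟩

end

end Pool.Agent.Lib.MP_1a91b9_nuT.Mult
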