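import Pool.Agent.Lib.MP_1a91b9_nuT.Mult.Bas

/-!
# Multiplication polynomials, file Ode: the differential equation of the multiplication

Write P, Q for L.weierstrassP, L.derivWeierstrassP.

PROOF of infinite_values. Suppose the set of values V = (P / Om^2) '' Sᶜ is finite. Near 0
(on 𝓝[≠] 0): z ∉ S, and for each v ∈ V, P z ≠ v * Om^2 (eventually_P_ne; finite intersection:
Set.Finite eventually_all / Filter.eventually_all_finset). There is a point z of this kind (𝓝[≠] 0 is
NeBot), then P z / Om^2 ∈ V, contradiction.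

PROOF of ode. Let x z = P z / Om^2, f z = P (t z) / Om^2,
S = {z | z ∈ L ∨ t z ∈ L ∨ Q z = 0} is not needed: take S = {z | z ∈ L ∨ t z ∈ L} (isolated:
eventually_notMem, eventually_mul_notMem). Both sides are polynomials; they agree at the infinitely
many values x z, z ∉ S (Polynomial.eq_of_infinite_eval_eq). Fix z ∉ S. Sᶜ is a neighbourhood of z
(isOpen_of_iso), on it N.eval (x w) = f w * D.eval (x w). Derive at z (x has derivative Q z / Om^2, f has derivative t Q (t z) / Om^2, Polynomial.hasDerivAt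
and HasDerivAt.comp; HasDerivAt.unique after congr_of_eventuallyEq):
  N'(x) x' = f' D(x) + f D'(x) x'.
Multiply by D(x), use f D = N: x' (N' D - N D') = f' D^2. Square:
  x'^2 (N' D - N D')^2 = f'^2 D^4.
By L.derivWeierstrassP_sq: x'^2 = Q^2 / Om^4 = (4 P^3 - g₂ P - g₃) / Om^4 =
4 Om^2 (x^3 + A x + B), f'^2 = t^2 * 4 Om^2 (f^3 + A f + B). So, cancelling 4 Om^2 ≠ 0,
  (x^3 + A x + B) (N' D - N D')^2 = t^2 (f^3 + A f + B) D^4 = t^2 D (N^3 + A N D^2 + B D^3),
as f D = N. QED (linear_combination at the end).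
-/

set_option autoImplicit false

namespace Pool.Agent.Lib.MP_1a91b9_nuT.Mult

open Complex Filter Topology Polynomial

noncomputable section

/-- The Weierstrass function takes infinitely many values, avoiding a discrete set. -/
theorem infinite_values (L : PeriodPair) {Om : ℂ} (hOm : Om ≠ 0) {S : Set ℂ}
    (hS : ∀ z, ∀ᶠ w in 𝓝[≠] z, w ∉ S) :
    Set.Infinite ((fun z => L.weierstrassP z / Om ^ 2) '' Sᶜ) := by
  intro hfin
  have h1 : ∀ᶠ z in 𝓝[≠] (0 : ℂ), ∀ v ∈ (fun z => L.weierstrassP z / Om ^ 2) '' Sᶜ,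
      L.weierstrassP z ≠ v * Om ^ 2 :=
    (Filter.eventually_all_finite hfin).2 fun v _ => eventually_P_ne L (v * Om ^ 2) 0
  obtain ⟨z, hz1, hz2⟩ := (h1.and (hS 0)).exists
  refine hz1 (L.weierstrassP z / Om ^ 2) ⟨z, hz2, rfl⟩ ?_
  field_simp

private theorem Ode_sq (L : PeriodPair) {Om A B : ℂ} (hOm : Om ≠ 0)
    (h2 : L.g₂ = -4 * A * Om ^ 4) (h3 : L.g₃ = -4 * B * Om ^ 6) {z : ℂ} (hz : z ∉ L.lattice) :
    (L.derivWeierstrassP z / Om ^ 2) ^ 2 = 4 * Om ^ 2 * ((L.weierstrassP z / Om ^ 2) ^ 3 +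
      A * (L.weierstrassP z / Om ^ 2) + B) := by
  have h := L.derivWeierstrassP_sq z hz
  rw [h2, h3] at h
  rw [div_pow, h]
  field_simp
  ring

/-- The differential equation of the pair of polynomials of a multiplication. -/
theorem ode (L : PeriodPair) {t : ℂ} (ht : t ≠ 0) {Om A B : ℂ} (hOm : Om ≠ 0)
    (h2 : L.g₂ = -4 * A * Om ^ 4) (h3 : L.g₃ = -4 * B * Om ^ 6) (N D : ℂ[X])
    (hrel : ∀ z, z ∉ L.lattice → t * z ∉ L.lattice →
      N.eval (L.weierstrassP z / Om ^ 2) =
        L.weierstrassP (t * z) / Om ^ 2 * D.eval (L.weierstrassP z / Om ^ 2)) :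
    (derivative N * D - N * derivative D) ^ 2 * (X ^ 3 + C A * X + C B) =
      C (t ^ 2) * D * (N ^ 3 + C A * N * D ^ 2 + C B * D ^ 3) := by
  have hS : ∀ z, ∀ᶠ w in 𝓝[≠] z, w ∉ {z : ℂ | z ∈ L.lattice ∨ t * z ∈ L.lattice} := by
    intro z
    filter_upwards [eventually_notMem L z, eventually_mul_notMem L ht z] with w h4 h5 h6
    rcases h6 with h6 | h6
    · exact h4 h6
    · exact h5 h6
  refine Polynomial.eq_of_infinite_eval_eq _ _ ((infinite_values L hOm hS).mono ?_)
  rintro _ ⟨z, hz, rfl⟩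
  have hz1 : z ∉ L.lattice := fun h => hz (Or.inl h)
  have hz2 : t * z ∉ L.lattice := fun h => hz (Or.inr h)
  have hx : HasDerivAt (fun w => L.weierstrassP w / Om ^ 2) (L.derivWeierstrassP z / Om ^ 2) z :=
    (hasDerivAt_P hz1).div_const _
  have hm : HasDerivAt (fun w : ℂ => t * w) (t * 1) z := (hasDerivAt_id z).const_mul t
  have hf : HasDerivAt (fun w => L.weierstrassP (t * w) / Om ^ 2)
      (L.derivWeierstrassP (t * z) * (t * 1) / Om ^ 2) z :=
    (HasDerivAt.comp z (hasDerivAt_P hz2) hm).div_const _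
  have hN : HasDerivAt (fun w => N.eval (L.weierstrassP w / Om ^ 2))
      ((derivative N).eval (L.weierstrassP z / Om ^ 2) * (L.derivWeierstrassP z / Om ^ 2)) z :=
    HasDerivAt.comp (h₂ := fun y => N.eval y) z (N.hasDerivAt (L.weierstrassP z / Om ^ 2)) hx
  have hD : HasDerivAt (fun w => D.eval (L.weierstrassP w / Om ^ 2))
      ((derivative D).eval (L.weierstrassP z / Om ^ 2) * (L.derivWeierstrassP z / Om ^ 2)) z :=
    HasDerivAt.comp (h₂ := fun y => D.eval y) z (D.hasDerivAt (L.weierstrassP z / Om ^ 2)) hx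
  have hfD := hf.mul hD
  have hev : (fun w => N.eval (L.weierstrassP w / Om ^ 2)) =ᶠ[𝓝 z]
      ((fun w => L.weierstrassP (t * w) / Om ^ 2) * fun w => D.eval (L.weierstrassP w / Om ^ 2)) := by
    filter_upwards [(isOpen_of_iso hS).mem_nhds hz] with w hw
    exact hrel w (fun h => hw (Or.inl h)) (fun h => hw (Or.inr h))
  have hu := hN.unique (hfD.congr_of_eventuallyEq hev)
  have hr := hrel z hz1 hz2
  have hq1 := Ode_sq L hOm h2 h3 hz1
  have hq2 := Ode_sq L hOm h2 h3 hz2
  have hF : L.derivWeierstrassP (t * z) * (t * 1) / Om ^ 2 =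
      t * (L.derivWeierstrassP (t * z) / Om ^ 2) := by ring
  rw [hF] at hu
  simp only [Set.mem_ofPred_eq, eval_mul, eval_pow, eval_sub, eval_add, eval_X, eval_C]
  set x := L.weierstrassP z / Om ^ 2 with hxd
  set f := L.weierstrassP (t * z) / Om ^ 2 with hfd
  set xp := L.derivWeierstrassP z / Om ^ 2 with hxp
  set fp := L.derivWeierstrassP (t * z) / Om ^ 2 with hfp
  set Nx := N.eval x with hNx
  set Dx := D.eval x with hDx
  set Np := (derivative N).eval x with hNp
  set Dp := (derivative D).eval x with hDp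
  have h7 : xp * (Np * Dx - Nx * Dp) = t * fp * Dx ^ 2 := by
    linear_combination Dx * hu - Dp * xp * hr
  have h8 : xp ^ 2 * (Np * Dx - Nx * Dp) ^ 2 = t ^ 2 * fp ^ 2 * Dx ^ 4 := by
    have : (xp * (Np * Dx - Nx * Dp)) ^ 2 = (t * fp * Dx ^ 2) ^ 2 := by rw [h7]
    linear_combination this
  have h9 : (4 * Om ^ 2) ≠ 0 := mul_ne_zero (by norm_num) (pow_ne_zero 2 hOm)
  apply mul_left_cancel₀ h9
  rw [hq1, hq2] at h8
  rw [hr] at h8 ⊢
  linear_combination h8

end

end Pool.Agent.Lib.MP_1a91b9_nuT.Mult
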