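import Mathlib

/-!
# Multiplication polynomials, file RatA: rationality of the solution of the differential equation

Pure algebra. PROOF. Show by strong induction on m: ∃ v : K, ι v = coeff m U. For m = 0: v = 1.
Let m ≥ 1 and assume it for all i < m; choose v i (i < m) and let V₀ : PowerSeries K be the series
with coefficients v i for i < m and 0 for i ≥ m (PowerSeries.mk), U₀ = map ι V₀. Then
U = U₀ + X ^ m * R with constantCoeff R = coeff m U =: u (e.g. R = mk fun i => coeff (i + m) U; or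
X_pow_dvd_iff). Then, modulo X ^ (m+1) (write T ≡ T' for X ^ (m+1) ∣ T - T', or compare
coeff m):
  U^3 ≡ U₀^3 + 3 U₀^2 X^m R,  coeff m (U^3) = coeff m (U₀^3) + 3 u (constantCoeff U₀ = 1),
  W := U - X U' ≡ W₀ + (1 - m) X^m R where W₀ = U₀ - X U₀', because
  X (X^m R)' = m X^m R + X^(m+1) R' , so coeff m (W^2) = coeff m (W₀^2) + 2 (1 - m) u,
  coeff m (W^2 (1 + A X^2 + B X^3)) = coeff m (W₀^2 (1 + A X^2 + B X^3)) + 2 (1 - m) u,
  coeff m (A s^2 X^2 U) = coeff m (A s^2 X^2 U₀).
So (2 (1 - m) - 3) u = coeff m (map ι T₀), where T₀ : PowerSeries K is the same expression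
  T₀ = V₀^3 + C (A s^2) X^2 V₀ + C (B s^3) X^3 - (V₀ - X V₀')^2 (1 + C A X^2 + C B X^3)
(derivative commutes with map: compare coefficients, coeff_derivative). 2 (1 - m) - 3 = -(2 m + 1) is
nonzero in ℂ, and it is ι of -(2m+1) ∈ K (K has characteristic zero as ι is injective: if
(2m+1 : K) = 0 then ι gives (2m+1 : ℂ) = 0). So u = ι (- coeff m T₀ / (2 m + 1)).
Convenient lemma: if X^(m+1) ∣ T - T' then coeff m T = coeff m T'; and coeff m (X^m * R) =
constantCoeff R (coeff_X_pow_mul'). E.g. U^3 - U₀^3 - 3 X^m R is divisible by X^(m+1) because U₀ - 1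
is divisible by X.
Finally V = PowerSeries.mk (fun m => v m) has map ι V = U (ext).
-/

set_option autoImplicit false

namespace Pool.Agent.Lib.MP_1a91b9_nuT.Mult

open PowerSeries

noncomputable section

private def RatAIn (S : Subring ℂ) (f : PowerSeries ℂ) : Prop := ∀ n, coeff n f ∈ S

private theorem RatA_add {S : Subring ℂ} {f g : PowerSeries ℂ} (hf : RatAIn S f)
    (hg : RatAIn S g) : RatAIn S (f + g) := fun n => by
  rw [map_add]
  exact S.add_mem (hf n) (hg n)

private theorem RatA_sub {S : Subring ℂ} {f g : PowerSeries ℂ} (hf : RatAIn S f)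
    (hg : RatAIn S g) : RatAIn S (f - g) := fun n => by
  rw [map_sub]
  exact S.sub_mem (hf n) (hg n)

private theorem RatA_mul {S : Subring ℂ} {f g : PowerSeries ℂ} (hf : RatAIn S f)
    (hg : RatAIn S g) : RatAIn S (f * g) := fun n => by
  rw [coeff_mul]
  exact S.sum_mem fun p _ => S.mul_mem (hf p.1) (hg p.2)

private theorem RatA_C {S : Subring ℂ} {a : ℂ} (ha : a ∈ S) : RatAIn S (C a) := fun n => by
  rw [coeff_C]
  by_cases h : n = 0
  · rw [if_pos h]
    exact ha
  · rw [if_neg h]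
    exact S.zero_mem

private theorem RatA_one {S : Subring ℂ} : RatAIn S 1 := by
  have h := RatA_C (S := S) S.one_mem
  rw [map_one] at h
  exact h

private theorem RatA_pow {S : Subring ℂ} {f : PowerSeries ℂ} (hf : RatAIn S f) (k : ℕ) :
    RatAIn S (f ^ k) := by
  induction k with
  | zero =>
    rw [pow_zero]
    exact RatA_one
  | succ k ih =>
    rw [pow_succ]
    exact RatA_mul ih hf

private theorem RatA_X {S : Subring ℂ} : RatAIn S X := fun n => by
  rw [coeff_X]
  by_cases h : n = 1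
  · rw [if_pos h]
    exact S.one_mem
  · rw [if_neg h]
    exact S.zero_mem

private theorem RatA_der {S : Subring ℂ} {f : PowerSeries ℂ} (hf : RatAIn S f) :
    RatAIn S (derivative ℂ f) := fun n => by
  rw [coeff_derivative]
  refine S.mul_mem (hf _) ?_
  exact_mod_cast natCast_mem S (n + 1)

/-- The expression of the differential equation. -/
private def RatAE (a b g h : ℂ) (U : PowerSeries ℂ) : PowerSeries ℂ :=
  (U - X * derivative ℂ U) ^ 2 * (1 + C a * X ^ 2 + C b * X ^ 3) -
    (U ^ 3 + C g * X ^ 2 * U + C h * X ^ 3)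

private theorem RatA_E {S : Subring ℂ} {a b g h : ℂ} (ha : a ∈ S) (hb : b ∈ S) (hg : g ∈ S)
    (hh : h ∈ S) {U : PowerSeries ℂ} (hU : RatAIn S U) : RatAIn S (RatAE a b g h U) := by
  refine RatA_sub (RatA_mul (RatA_pow (RatA_sub hU (RatA_mul RatA_X (RatA_der hU))) 2) ?_) ?_
  · exact RatA_add (RatA_add RatA_one (RatA_mul (RatA_C ha) (RatA_pow RatA_X 2)))
      (RatA_mul (RatA_C hb) (RatA_pow RatA_X 3))
  · exact RatA_add (RatA_add (RatA_pow hU 3)
      (RatA_mul (RatA_mul (RatA_C hg) (RatA_pow RatA_X 2)) hU))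
      (RatA_mul (RatA_C hh) (RatA_pow RatA_X 3))

private theorem RatA_id {T : Type*} [CommRing T] (x t R R1 w u a b g h c W0 U0 : T)
    (hw : W0 = 1 + x * w) (hu : U0 = 1 + x * u) :
    ((W0 + (c * (x * t * R) - x ^ 2 * t * R1)) ^ 2 * (1 + a * x ^ 2 + b * x ^ 3) -
        ((U0 + x * t * R) ^ 3 + g * x ^ 2 * (U0 + x * t * R) + h * x ^ 3)) -
      (W0 ^ 2 * (1 + a * x ^ 2 + b * x ^ 3) - (U0 ^ 3 + g * x ^ 2 * U0 + h * x ^ 3)) =
    x * t * ((2 * c - 3) * R) + x ^ 2 * t *
      (-2 * R1 + (c * R - x * R1) * (2 * w + 2 * (1 + x * w) * (a * x + b * x ^ 2)) +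
        t * (c * R - x * R1) ^ 2 * (1 + a * x ^ 2 + b * x ^ 3) - 3 * R * (2 * u + x * u ^ 2) -
        3 * U0 * t * R ^ 2 - x * t ^ 2 * R ^ 3 - g * x * R) := by
  rw [hw, hu]
  ring

private theorem RatA_step (a b g h : ℂ) (U : PowerSeries ℂ) (h0 : constantCoeff U = 1) (k : ℕ)
    (hE : RatAE a b g h U = 0) :
    coeff (k + 1) U * (2 * k + 3) =
      coeff (k + 1) (RatAE a b g h (mk fun i => if i < k + 1 then coeff i U else 0)) := by
  set U0 : PowerSeries ℂ := mk fun i => if i < k + 1 then coeff i U else 0 with hU0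
  set R : PowerSeries ℂ := mk fun i => coeff (i + (k + 1)) U with hR
  have hU : U = U0 + X * X ^ k * R := by
    ext i
    rw [map_add, ← pow_succ', coeff_X_pow_mul', hU0, hR, coeff_mk]
    by_cases hi : i < k + 1
    · rw [if_pos hi, if_neg (by omega), add_zero]
    · rw [if_neg hi, if_pos (by omega), coeff_mk, zero_add, Nat.sub_add_cancel (by omega)]
  have hd : U - X * derivative ℂ U = (U0 - X * derivative ℂ U0) +
      (C (-(k : ℂ)) * (X * X ^ k * R) - X ^ 2 * X ^ k * derivative ℂ R) := by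
    have h1 : derivative ℂ U = derivative ℂ U0 +
        (C ((k : ℂ) + 1) * X ^ k * R + X * X ^ k * derivative ℂ R) := by
      nth_rewrite 1 [hU]
      have h2 : ((k + 1 : ℕ) : PowerSeries ℂ) = C ((k : ℂ) + 1) := by
        rw [← map_natCast (C (R := ℂ))]
        push_cast
        rfl
      rw [map_add, ← pow_succ', Derivation.leibniz, derivative_pow, derivative_X,
        Nat.add_sub_cancel, smul_eq_mul, smul_eq_mul, h2]
      ring
    rw [h1]
    nth_rewrite 1 [hU]
    rw [map_add, map_neg, map_one]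
    ring
  have h0' : constantCoeff U0 = 1 := by
    rw [← coeff_zero_eq_constantCoeff_apply, hU0, coeff_mk, if_pos (Nat.succ_pos k),
      coeff_zero_eq_constantCoeff_apply, h0]
  have hu : ∃ u, U0 = 1 + X * u := by
    have h1 : X ∣ U0 - 1 := by
      rw [X_dvd_iff, map_sub, h0', map_one, sub_self]
    obtain ⟨u, hu⟩ := h1
    exact ⟨u, by rw [← hu]; ring⟩
  have hw : ∃ w, U0 - X * derivative ℂ U0 = 1 + X * w := by
    obtain ⟨u, hu⟩ := hu
    refine ⟨u - derivative ℂ U0, ?_⟩
    nth_rewrite 1 [hu]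
    ring
  obtain ⟨u, hu⟩ := hu
  obtain ⟨w, hw⟩ := hw
  have h2 := RatA_id X (X ^ k) R (derivative ℂ R) w u (C a) (C b) (C g) (C h) (C (-(k : ℂ)))
    (U0 - X * derivative ℂ U0) U0 hw hu
  rw [← hd, ← hU] at h2
  have h3 : RatAE a b g h U - RatAE a b g h U0 = _ := h2
  rw [hE, zero_sub] at h3
  have h4 := congrArg (coeff (k + 1)) h3
  rw [map_neg, map_add, ← pow_succ', ← pow_add, show 2 + k = k + 2 by ring, coeff_X_pow_mul',
    coeff_X_pow_mul', if_pos le_rfl, if_neg (by omega), Nat.sub_self, add_zero] at h4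
  have h5 : coeff 0 ((2 * C (-(k : ℂ)) - 3) * R) = (2 * (-(k : ℂ)) - 3) * coeff (k + 1) U := by
    have h6 : (2 * C (-(k : ℂ)) - 3 : PowerSeries ℂ) = C (2 * (-(k : ℂ)) - 3) := by
      rw [map_sub, map_mul]
      rfl
    rw [h6, coeff_C_mul, hR, coeff_mk, zero_add]
  rw [h5] at h4
  linear_combination h4

/-- The power series solution of the differential equation has coefficients in `K`. -/
theorem exists_map_of_ode {K : Type*} [Field K] (ι : K →+* ℂ) (A B s : K) (U : PowerSeries ℂ)
    (h0 : constantCoeff U = 1)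
    (hU : (U - X * derivative ℂ U) ^ 2 * (1 + C (ι A) * X ^ 2 + C (ι B) * X ^ 3) =
      U ^ 3 + C (ι (A * s ^ 2)) * X ^ 2 * U + C (ι (B * s ^ 3)) * X ^ 3) :
    ∃ V : PowerSeries K, PowerSeries.map ι V = U := by
  have hE : RatAE (ι A) (ι B) (ι (A * s ^ 2)) (ι (B * s ^ 3)) U = 0 := by
    unfold RatAE
    rw [hU, sub_self]
  have hmem : ∀ m, coeff m U ∈ ι.range := by
    intro m
    induction m using Nat.strong_induction_on with
    | _ m ih =>
      rcases m with _ | k
      · rw [coeff_zero_eq_constantCoeff_apply, h0]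
        exact ι.range.one_mem
      · have h1 := RatA_step (ι A) (ι B) (ι (A * s ^ 2)) (ι (B * s ^ 3)) U h0 k hE
        have h2 : RatAIn ι.range (mk fun i => if i < k + 1 then coeff i U else 0) := by
          intro i
          rw [coeff_mk]
          by_cases hi : i < k + 1
          · rw [if_pos hi]
            exact ih i hi
          · rw [if_neg hi]
            exact ι.range.zero_mem
        have h3 := RatA_E (RingHom.mem_range_self ι A) (RingHom.mem_range_self ι B)
          (RingHom.mem_range_self ι (A * s ^ 2)) (RingHom.mem_range_self ι (B * s ^ 3)) h2 (k + 1)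
        rw [← h1] at h3
        obtain ⟨v, hv⟩ := h3
        have h4 : ((2 * k + 3 : ℕ) : ℂ) ≠ 0 := by exact_mod_cast (by omega : 2 * k + 3 ≠ 0)
        have h5 : ι ((2 * k + 3 : ℕ) : K) = ((2 * k + 3 : ℕ) : ℂ) := map_natCast ι _
        refine ⟨v / ((2 * k + 3 : ℕ) : K), ?_⟩
        rw [map_div₀, hv, h5, div_eq_iff h4]
        push_cast
        ring
  choose v hv using hmem
  exact ⟨mk v, by ext m; rw [coeff_map, coeff_mk, hv]⟩

end

end Pool.Agent.Lib.MP_1a91b9_nuT.Mult
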