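import Mathlib

/-!
# Multiplication polynomials, file RatB: the differential equation at infinity

Pure algebra. PROOF of reflect_derivative: compare coefficients (ext i; coeff_reflect, revAt): for
i ≤ m: coefficient of X P' at m - i is (m - i) P_{m-i}; the right side has
m P_{m-i} - i P_{m-i}. For i > m: revAt m i = i, P_i = 0 and all terms vanish.

PROOF of exists_series. Put N~ = reflect n N, D~ = reflect (n - 1) D (polynomials).
Multiply hode by X^2:
  (X N' D - N X D')^2 (X^3 + A X + B) = s X^2 D (N^3 + A N D^2 + B D^3).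
Apply reflect (4 n + 1) to both sides; with reflect_mul (natDegree bounds: X N' ≤ n, X D' ≤ n - 1,
D ≤ n - 1, X^3 + A X + B ≤ 3 with reflection 1 + A X^2 + B X^3; reflect_add, reflect_sub;
reflect (2n - 1) (X N' D - N X D') = (n N~ - X N~') D~ - N~ ((n-1) D~ - X D~'), and
reflect (3n) (N^3) = N~^3, reflect (3n) (N D^2) = X^2 N~ D~^2, reflect (3n) (D^3) = X^3 D~^3,
because N D^2 has natDegree ≤ 3n - 2: reflect (3n) P = X^2 * reflect (3n - 2) P for P of natDegree
≤ 3n - 2 [ reflect_mul with the factor 1, reflect 2 1 = X^2 ]):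
  (N~ D~ - X (N~' D~ - N~ D~'))^2 (1 + A X^2 + B X^3)
     = s D~ (N~^3 + A X^2 N~ D~^2 + B X^3 D~^3)        (*)
(4n + 1 = 2 (2n - 1) + 3 = 2 + (n - 1) + 3n.)
In PowerSeries ℂ: constantCoeff D~ = coefficient n - 1 of D = s ≠ 0, so D~ is a unit; put
U = C s * N~ * D~⁻¹ (PowerSeries over a field has an inverse: PowerSeries.mul_inv_cancel). So
s N~ = U D~, constantCoeff U = s * 1 / s = 1 (coefficient n of N is 1). Derive s N~ = U D~
(PowerSeries.derivative ℂ is a derivation: Derivation.leibniz; derivative_coe):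
s N~' = U' D~ + U D~', so s (N~' D~ - N~ D~') = U' D~^2, and s N~ D~ = U D~^2. Multiply (*) by s^2:
  (U D~^2 - X U' D~^2)^2 (1 + A X^2 + B X^3) = s^3 D~ (N~^3 + A X^2 N~ D~^2 + B X^3 D~^3)
    = D~ (U^3 D~^3 + A s^2 X^2 U D~^3 + B s^3 X^3 D~^3) = D~^4 (U^3 + A s^2 X^2 U + B s^3 X^3).
Cancel D~^4 (PowerSeries ℂ is a domain). QED
Note the case n = 1 (D constant) is included: that is why we use X N', X D'.
-/

set_option autoImplicit false

namespace Pool.Agent.Lib.MP_1a91b9_nuT.Mult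

open Polynomial

noncomputable section

/-- The derivative and the reflection. -/
theorem reflect_derivative (m : ℕ) (P : ℂ[X]) (hP : P.natDegree ≤ m) :
    reflect m (X * derivative P) = C (m : ℂ) * reflect m P - X * derivative (reflect m P) := by
  ext i
  rw [coeff_reflect, coeff_sub, coeff_C_mul, coeff_reflect]
  have h1 : ∀ (Q : ℂ[X]) (j : ℕ), (X * derivative Q).coeff j = (j : ℂ) * Q.coeff j := by
    intro Q j
    rcases j with _ | j
    · rw [mul_comm, mul_coeff_zero, coeff_X_zero, mul_zero, Nat.cast_zero, zero_mul]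
    · rw [coeff_X_mul, coeff_derivative]
      push_cast
      ring
  rw [h1, h1, coeff_reflect]
  by_cases hi : i ≤ m
  · rw [revAt_le hi, Nat.cast_sub hi]
    ring
  · rw [revAt_eq_self_of_lt (by omega), coeff_eq_zero_of_natDegree_lt (by omega)]
    ring

private theorem RatB_two {F : ℂ[X]} {k : ℕ} (hF : F.natDegree ≤ k) (j : ℕ) :
    reflect (j + k) F = X ^ j * reflect k F := by
  have h := reflect_mul (1 : ℂ[X]) F (F := j) (G := k) (by rw [natDegree_one]; omega) hF
  rw [one_mul, reflect_one] at h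
  exact h

private theorem RatB_sq {F : ℂ[X]} {k : ℕ} (hF : F.natDegree ≤ k) :
    reflect (k + k) (F ^ 2) = reflect k F ^ 2 := by
  rw [pow_two, pow_two, reflect_mul _ _ hF hF]

private theorem RatB_cube {F : ℂ[X]} {k : ℕ} (hF : F.natDegree ≤ k) :
    reflect (k + k + k) (F ^ 3) = reflect k F ^ 3 := by
  have h2 : (F ^ 2).natDegree ≤ k + k := by
    rw [pow_two]
    exact natDegree_mul_le_of_le hF hF
  rw [pow_succ, reflect_mul _ _ h2 hF, RatB_sq hF, ← pow_succ]

private theorem RatB_fin {T : Type*} [CommRing T] (x a b c q r q' r' U U' : T)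
    (hU1 : c * r = U * q) (h1 : c * r' = U * q' + q * U')
    (h2 : (r * q - x * (r' * q - r * q')) ^ 2 * (1 + a * x ^ 2 + b * x ^ 3) =
      c * q * (r ^ 3 + a * x ^ 2 * r * q ^ 2 + b * x ^ 3 * q ^ 3)) :
    q ^ 4 * ((U - x * U') ^ 2 * (1 + a * x ^ 2 + b * x ^ 3)) =
      q ^ 4 * (U ^ 3 + a * c ^ 2 * x ^ 2 * U + b * c ^ 3 * x ^ 3) := by
  have h5 : c * (r * q - x * (r' * q - r * q')) = q ^ 2 * (U - x * U') := by
    linear_combination q * hU1 - x * (q * h1 - q' * hU1)
  calc q ^ 4 * ((U - x * U') ^ 2 * (1 + a * x ^ 2 + b * x ^ 3))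
      = (q ^ 2 * (U - x * U')) ^ 2 * (1 + a * x ^ 2 + b * x ^ 3) := by ring
    _ = c ^ 2 * ((r * q - x * (r' * q - r * q')) ^ 2 * (1 + a * x ^ 2 + b * x ^ 3)) := by
        rw [← h5]
        ring
    _ = q * ((c * r) ^ 3 + a * c ^ 2 * x ^ 2 * (c * r) * q ^ 2 + b * c ^ 3 * x ^ 3 * q ^ 3) := by
        rw [h2]
        ring
    _ = q ^ 4 * (U ^ 3 + a * c ^ 2 * x ^ 2 * U + b * c ^ 3 * x ^ 3) := by
        rw [hU1]
        ring

private theorem RatB_cubic (A B : ℂ) : reflect 3 (X ^ 3 + C A * X + C B : ℂ[X]) =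
    1 + C A * X ^ 2 + C B * X ^ 3 := by
  have h1 : (X ^ 3 + C A * X + C B : ℂ[X]) = X ^ 3 + C A * X ^ 1 + C B := by rw [pow_one]
  rw [h1, reflect_add, reflect_add, reflect_monomial, reflect_C_mul_X_pow, reflect_C,
    revAt_le (le_refl 3), revAt_le (show 1 ≤ 3 by omega), Nat.sub_self, pow_zero]

private theorem RatB_star (n : ℕ) (N D : ℂ[X]) (hN1 : N.natDegree ≤ n + 1)
    (hD1 : D.natDegree ≤ n) {s A B : ℂ}
    (hode : (derivative N * D - N * derivative D) ^ 2 * (X ^ 3 + C A * X + C B) =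
      C s * D * (N ^ 3 + C A * N * D ^ 2 + C B * D ^ 3)) :
    (reflect (n + 1) N * reflect n D - X * (derivative (reflect (n + 1) N) * reflect n D -
      reflect (n + 1) N * derivative (reflect n D))) ^ 2 * (1 + C A * X ^ 2 + C B * X ^ 3) =
      C s * reflect n D * (reflect (n + 1) N ^ 3 +
        C A * X ^ 2 * reflect (n + 1) N * reflect n D ^ 2 +
        C B * X ^ 3 * reflect n D ^ 3) := by
  set E : ℂ[X] := (X * derivative N) * D - N * (X * derivative D) with hE
  have h1 : E ^ 2 * (X ^ 3 + C A * X + C B) =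
      C s * (X ^ 2 * (D * (N ^ 3 + C A * N * D ^ 2 + C B * D ^ 3))) := by
    rw [hE]
    linear_combination X ^ 2 * hode
  have hXN : (X * derivative N).natDegree ≤ n + 1 := by
    rw [natDegree_le_iff_coeff_eq_zero]
    intro j hj
    obtain ⟨i, rfl⟩ : ∃ i, j = i + 1 := ⟨j - 1, by omega⟩
    rw [coeff_X_mul, coeff_derivative, coeff_eq_zero_of_natDegree_lt (by omega), zero_mul]
  have hXD : (X * derivative D).natDegree ≤ n := by
    rw [natDegree_le_iff_coeff_eq_zero]
    intro j hj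
    obtain ⟨i, rfl⟩ : ∃ i, j = i + 1 := ⟨j - 1, by omega⟩
    rw [coeff_X_mul, coeff_derivative, coeff_eq_zero_of_natDegree_lt (by omega), zero_mul]
  have hEd : E.natDegree ≤ n + 1 + n := by
    refine (natDegree_sub_le _ _).trans (max_le ?_ ?_)
    · exact natDegree_mul_le_of_le hXN hD1
    · exact natDegree_mul_le_of_le hN1 hXD
  have hEr : reflect (n + 1 + n) E = reflect (n + 1) N * reflect n D -
      X * (derivative (reflect (n + 1) N) * reflect n D -
        reflect (n + 1) N * derivative (reflect n D)) := by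
    rw [hE, reflect_sub, reflect_mul _ _ hXN hD1, reflect_mul _ _ hN1 hXD,
      reflect_derivative (n + 1) N hN1, reflect_derivative n D hD1]
    have h2 : (C ((n + 1 : ℕ) : ℂ) : ℂ[X]) = C (n : ℂ) + 1 := by
      push_cast
      rw [map_add, map_one]
    rw [h2]
    ring
  have hcub : (X ^ 3 + C A * X + C B : ℂ[X]).natDegree ≤ 3 := by
    refine natDegree_add_le_of_degree_le (natDegree_add_le_of_degree_le ?_ ?_) ?_
    · exact (natDegree_X_pow 3).le
    · exact (natDegree_C_mul_le A X).trans (natDegree_X_le.trans (by omega))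
    · rw [natDegree_C]
      omega
  have hE2 : (E ^ 2).natDegree ≤ (n + 1 + n) + (n + 1 + n) := by
    rw [pow_two]
    exact natDegree_mul_le_of_le hEd hEd
  have hL : reflect ((n + 1 + n) + (n + 1 + n) + 3) (E ^ 2 * (X ^ 3 + C A * X + C B)) =
      reflect (n + 1 + n) E ^ 2 * (1 + C A * X ^ 2 + C B * X ^ 3) := by
    rw [reflect_mul _ _ hE2 hcub, RatB_cubic, RatB_sq hEd]
  have hN2 : (N ^ 2).natDegree ≤ (n + 1) + (n + 1) := by
    rw [pow_two]
    exact natDegree_mul_le_of_le hN1 hN1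
  have hN3 : (N ^ 3).natDegree ≤ (n + 1) + (n + 1) + (n + 1) := by
    rw [pow_succ]
    exact natDegree_mul_le_of_le hN2 hN1
  have hD2 : (D ^ 2).natDegree ≤ n + n := by
    rw [pow_two]
    exact natDegree_mul_le_of_le hD1 hD1
  have hD3 : (D ^ 3).natDegree ≤ n + n + n := by
    rw [pow_succ]
    exact natDegree_mul_le_of_le hD2 hD1
  have hND : (N * D ^ 2).natDegree ≤ (n + 1) + (n + n) := natDegree_mul_le_of_le hN1 hD2
  have r1 : reflect ((n + 1) + (n + 1) + (n + 1)) (N ^ 3) = reflect (n + 1) N ^ 3 := by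
    exact RatB_cube hN1
  have r2 : reflect ((n + 1) + (n + 1) + (n + 1)) (N * D ^ 2) =
      X ^ 2 * (reflect (n + 1) N * reflect n D ^ 2) := by
    rw [show (n + 1) + (n + 1) + (n + 1) = 2 + ((n + 1) + (n + n)) by ring, RatB_two hND,
      reflect_mul _ _ hN1 hD2, RatB_sq hD1]
  have r3 : reflect ((n + 1) + (n + 1) + (n + 1)) (D ^ 3) = X ^ 3 * reflect n D ^ 3 := by
    rw [show (n + 1) + (n + 1) + (n + 1) = 3 + (n + n + n) by ring, RatB_two hD3, RatB_cube hD1]
  have hQ : (N ^ 3 + C A * N * D ^ 2 + C B * D ^ 3).natDegree ≤ (n + 1) + (n + 1) + (n + 1) := by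
    refine natDegree_add_le_of_degree_le (natDegree_add_le_of_degree_le hN3 ?_) ?_
    · rw [mul_assoc]
      exact (natDegree_C_mul_le A _).trans (hND.trans (by omega))
    · exact (natDegree_C_mul_le B _).trans (hD3.trans (by omega))
  have hQr : reflect ((n + 1) + (n + 1) + (n + 1)) (N ^ 3 + C A * N * D ^ 2 + C B * D ^ 3) =
      reflect (n + 1) N ^ 3 + C A * X ^ 2 * reflect (n + 1) N * reflect n D ^ 2 +
        C B * X ^ 3 * reflect n D ^ 3 := by
    rw [reflect_add, reflect_add, mul_assoc (C A), reflect_C_mul, reflect_C_mul, r1, r2, r3]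
    ring
  have hR : reflect ((n + 1 + n) + (n + 1 + n) + 3)
      (C s * (X ^ 2 * (D * (N ^ 3 + C A * N * D ^ 2 + C B * D ^ 3)))) =
      C s * reflect n D * (reflect (n + 1) N ^ 3 +
        C A * X ^ 2 * reflect (n + 1) N * reflect n D ^ 2 + C B * X ^ 3 * reflect n D ^ 3) := by
    have hDQ : (D * (N ^ 3 + C A * N * D ^ 2 + C B * D ^ 3)).natDegree ≤
        n + ((n + 1) + (n + 1) + (n + 1)) := natDegree_mul_le_of_le hD1 hQ
    rw [reflect_C_mul, show (n + 1 + n) + (n + 1 + n) + 3 =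
      2 + (n + ((n + 1) + (n + 1) + (n + 1))) by ring,
      reflect_mul _ _ (natDegree_X_pow_le 2) hDQ, reflect_monomial, revAt_le (le_refl 2),
      Nat.sub_self, pow_zero, one_mul, reflect_mul _ _ hD1 hQ, hQr]
    ring
  rw [← hEr, ← hL, h1, hR]

/-- The power series at infinity. -/
theorem exists_series (n : ℕ) (hn : 0 < n) (N D : ℂ[X]) (hN : N.Monic) (hN1 : N.natDegree = n)
    (hD1 : D.natDegree + 1 = n) {s A B : ℂ} (hs : s ≠ 0) (hD : D.leadingCoeff = s)
    (hode : (derivative N * D - N * derivative D) ^ 2 * (X ^ 3 + C A * X + C B) =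
      C s * D * (N ^ 3 + C A * N * D ^ 2 + C B * D ^ 3)) :
    ∃ U : PowerSeries ℂ, PowerSeries.constantCoeff U = 1 ∧
      PowerSeries.C s * ((reflect n N : ℂ[X]) : PowerSeries ℂ) =
        U * ((reflect (n - 1) D : ℂ[X]) : PowerSeries ℂ) ∧
      (U - PowerSeries.X * PowerSeries.derivative ℂ U) ^ 2 *
          (1 + PowerSeries.C A * PowerSeries.X ^ 2 + PowerSeries.C B * PowerSeries.X ^ 3) =
        U ^ 3 + PowerSeries.C (A * s ^ 2) * PowerSeries.X ^ 2 * U +
          PowerSeries.C (B * s ^ 3) * PowerSeries.X ^ 3 := by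
  obtain ⟨m, rfl⟩ : ∃ m, n = m + 1 := ⟨n - 1, by omega⟩
  rw [Nat.add_sub_cancel]
  have hDn : D.natDegree = m := by omega
  have hstar := RatB_star m N D hN1.le hDn.le hode
  set P : ℂ[X] := reflect (m + 1) N with hP
  set Q : ℂ[X] := reflect m D with hQ
  have hQ0 : PowerSeries.constantCoeff (Q : PowerSeries ℂ) = s := by
    rw [← PowerSeries.coeff_zero_eq_constantCoeff_apply, coeff_coe, hQ, coeff_reflect,
      revAt_zero, ← hDn]
    exact hD
  have hP0 : PowerSeries.constantCoeff (P : PowerSeries ℂ) = 1 := by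
    rw [← PowerSeries.coeff_zero_eq_constantCoeff_apply, coeff_coe, hP, coeff_reflect,
      revAt_zero, ← hN1]
    exact hN
  have hQinv : (Q : PowerSeries ℂ) * (Q : PowerSeries ℂ)⁻¹ = 1 :=
    PowerSeries.mul_inv_cancel _ (by rw [hQ0]; exact hs)
  have hQne : (Q : PowerSeries ℂ) ≠ 0 := by
    intro h
    rw [h, zero_mul] at hQinv
    exact zero_ne_one hQinv
  set q : PowerSeries ℂ := (Q : PowerSeries ℂ) with hq
  set r : PowerSeries ℂ := (P : PowerSeries ℂ) with hr
  have hU1 : PowerSeries.C s * r = (PowerSeries.C s * r * q⁻¹) * q := by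
    rw [mul_assoc, mul_comm q⁻¹, hQinv, mul_one]
  refine ⟨PowerSeries.C s * r * q⁻¹, ?_, hU1, ?_⟩
  · have h1 := congrArg PowerSeries.constantCoeff hU1
    rw [map_mul, map_mul _ _ q, PowerSeries.constantCoeff_C, hP0, hQ0, mul_one] at h1
    exact mul_right_cancel₀ hs (by rw [one_mul]; exact h1.symm)
  · set U : PowerSeries ℂ := PowerSeries.C s * r * q⁻¹ with hU
    have h1 := congrArg (PowerSeries.derivative ℂ) hU1
    rw [Derivation.leibniz, Derivation.leibniz, PowerSeries.derivative_C, smul_zero, add_zero,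
      smul_eq_mul, smul_eq_mul, smul_eq_mul, hr, hq, PowerSeries.derivative_coe,
      PowerSeries.derivative_coe, ← hq] at h1
    have h2 := congrArg (fun f : ℂ[X] => (f : PowerSeries ℂ)) hstar
    simp only [coe_mul, coe_pow, coe_sub, coe_add, coe_C, coe_X, coe_one] at h2
    rw [← hr, ← hq] at h2
    apply mul_left_cancel₀ (pow_ne_zero 4 hQne)
    have h3 : PowerSeries.C (A * s ^ 2) = PowerSeries.C A * PowerSeries.C s ^ 2 := by
      rw [map_mul, map_pow]
    have h4 : PowerSeries.C (B * s ^ 3) = PowerSeries.C B * PowerSeries.C s ^ 3 := by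
      rw [map_mul, map_pow]
    rw [h3, h4]
    exact RatB_fin _ _ _ _ _ _ _ _ _ _ hU1 h1 h2

end

end Pool.Agent.Lib.MP_1a91b9_nuT.Mult
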