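import Mathlib

/-!
# Multiplication polynomials, file RatC: a rational function whose series is rational is rational

Pure algebra. PROOF. Make ℂ a K-algebra (letI := ι.toAlgebra) and choose a K-linear map
lam : ℂ →ₗ[K] K with lam (ι x) = x for all x (LinearMap.exists_leftInverse_of_injective applied to
Algebra.linearMap K ℂ, whose kernel is zero as ι is injective). So lam (ι x * z) = x * lam z.
Put N₀ = ∑ j ∈ range (n+1), monomial j (lam (N.coeff j)), D₀ = ∑ j ∈ range n,
monomial j (lam (D.coeff j)) : K[X]; then N₀.coeff j = lam (N.coeff j) and D₀.coeff j =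
lam (D.coeff j) for all j (the other coefficients are zero), so N₀ is monic of natDegree n
(lam 1 = 1), D₀.natDegree ≤ n - 1.
Coefficient m of hV: ι s * N~_m = ∑_{i+j=m} ι (V_i) * D~_j, N~ = reflect n N, D~ = reflect (n-1) D
(PowerSeries.coeff_mul, coeff_map, Polynomial.coeff_coe). Apply lam:
s * lam (N~_m) = ∑ V_i * lam (D~_j). As lam (N~_m) = (reflect n N₀)_m etc. (coeff_reflect), this says
  C s * (reflect n N₀ : PowerSeries K) = V * (reflect (n-1) D₀ : PowerSeries K).
Map by ι: C (ι s) * reflect n (N₀.map ι) = map ι V * reflect (n-1) (D₀.map ι) (reflect commutes with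
map: coefficients). Multiply crosswise with hV and cancel C (ι s) ≠ 0 :
  N~ * reflect (n-1) (D₀.map ι) = reflect n (N₀.map ι) * D~ in PowerSeries ℂ, so in ℂ[X]
(Polynomial.coe_injective). Both sides are reflect (n + (n-1)) of N * D₀.map ι and N₀.map ι * D
(reflect_mul), and reflect is injective (reflect m (reflect m f) = f: ext, coeff_reflect,
revAt_invol). So N * D₀.map ι = N₀.map ι * D. N is coprime to D, so N ∣ N₀.map ι
(IsCoprime.dvd_of_dvd_mul_right), both monic of the same natDegree, so N₀.map ι = N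
(eq_of_monic_of_dvd_of_natDegree_le or similar). Then cancel N ≠ 0: D₀.map ι = D. QED
-/

set_option autoImplicit false

namespace Pool.Agent.Lib.MP_1a91b9_nuT.Mult

open Polynomial

noncomputable section

private def RatC_L {K : Type*} [Field K] (lam : ℂ → K) (P : ℂ[X]) : K[X] :=
  ∑ j ∈ Finset.range (P.natDegree + 1), monomial j (lam (P.coeff j))

private theorem RatC_coeff {K : Type*} [Field K] (lam : ℂ → K) (h0 : lam 0 = 0) (P : ℂ[X])
    (m : ℕ) : (RatC_L lam P).coeff m = lam (P.coeff m) := by
  unfold RatC_L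
  rw [finsetSum_coeff, Finset.sum_congr rfl (fun j _ => coeff_monomial), Finset.sum_ite_eq']
  by_cases h : m ∈ Finset.range (P.natDegree + 1)
  · rw [if_pos h]
  · rw [if_neg h, coeff_eq_zero_of_natDegree_lt, h0]
    rw [Finset.mem_range] at h
    omega

private theorem RatC_map_coe {K : Type*} [Field K] (ι : K →+* ℂ) (P : K[X]) :
    PowerSeries.map ι (P : PowerSeries K) = ((P.map ι : ℂ[X]) : PowerSeries ℂ) := by
  ext m
  rw [PowerSeries.coeff_map, coeff_coe, coeff_coe, coeff_map]

/-- A quotient of coprime polynomials whose power series at infinity has coefficients in `K` is a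
quotient of polynomials with coefficients in `K`. -/
theorem exists_map_of_series {K : Type*} [Field K] (ι : K →+* ℂ) (n : ℕ) (hn : 0 < n)
    (N D : ℂ[X]) (hN : N.Monic) (hN1 : N.natDegree = n) (hD1 : D.natDegree + 1 = n)
    (hc : IsCoprime N D) {s : K} (hs : s ≠ 0) (V : PowerSeries K)
    (hV : PowerSeries.C (ι s) * ((reflect n N : ℂ[X]) : PowerSeries ℂ) =
      PowerSeries.map ι V * ((reflect (n - 1) D : ℂ[X]) : PowerSeries ℂ)) :
    ∃ N₀ D₀ : K[X], N₀.map ι = N ∧ D₀.map ι = D := by
  let _ : Algebra K ℂ := ι.toAlgebra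
  have hal : ∀ x : K, algebraMap K ℂ x = ι x := fun x => rfl
  obtain ⟨lam, hlam⟩ := LinearMap.exists_leftInverse_of_injective (Algebra.linearMap K ℂ)
    (LinearMap.ker_eq_bot.2 (fun x y h => ι.injective h))
  have hl1 : ∀ x : K, lam (ι x) = x := fun x => LinearMap.congr_fun hlam x
  have hl2 : ∀ (x : K) (z : ℂ), lam (ι x * z) = x * lam z := by
    intro x z
    have h1 : ι x * z = x • z := (Algebra.smul_def x z).symm
    rw [h1, map_smul, smul_eq_mul]
  have hl0 : lam 0 = 0 := map_zero lam
  have hl11 : lam 1 = 1 := by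
    have h1 := hl1 1
    rw [map_one] at h1
    exact h1
  have hcN : ∀ m, (RatC_L lam N).coeff m = lam (N.coeff m) := RatC_coeff _ hl0 N
  have hcD : ∀ m, (RatC_L lam D).coeff m = lam (D.coeff m) := RatC_coeff _ hl0 D
  have h1 : PowerSeries.C s * ((reflect n (RatC_L lam N) : K[X]) : PowerSeries K) =
      V * ((reflect (n - 1) (RatC_L lam D) : K[X]) : PowerSeries K) := by
    ext m
    have h2 := congrArg (fun f => lam (PowerSeries.coeff m f)) hV
    change lam (PowerSeries.coeff m _) = lam (PowerSeries.coeff m _) at h2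
    rw [PowerSeries.coeff_C_mul, hl2, PowerSeries.coeff_mul, map_sum, coeff_coe, coeff_reflect,
      ← hcN, ← coeff_reflect] at h2
    rw [PowerSeries.coeff_C_mul, coeff_coe, h2, PowerSeries.coeff_mul]
    refine Finset.sum_congr rfl fun q _ => ?_
    rw [PowerSeries.coeff_map, hl2, coeff_coe, coeff_coe, coeff_reflect, coeff_reflect, hcD]
  have h2 := congrArg (PowerSeries.map ι) h1
  rw [map_mul, map_mul, PowerSeries.map_C, RatC_map_coe, RatC_map_coe,
    ← reflect_map, ← reflect_map] at h2
  have hs' : (PowerSeries.C (ι s) : PowerSeries ℂ) ≠ 0 := by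
    intro h3
    have h4 := congrArg (PowerSeries.coeff 0) h3
    rw [PowerSeries.coeff_zero_C, map_zero] at h4
    exact hs (ι.injective (by rw [h4, map_zero]))
  set N₁ : ℂ[X] := (RatC_L lam N).map ι with hN₁
  set D₁ : ℂ[X] := (RatC_L lam D).map ι with hD₁
  have h3 : ((reflect n N * reflect (n - 1) D₁ : ℂ[X]) : PowerSeries ℂ) =
      ((reflect n N₁ * reflect (n - 1) D : ℂ[X]) : PowerSeries ℂ) := by
    rw [coe_mul, coe_mul]
    apply mul_left_cancel₀ hs'
    rw [← mul_assoc, hV, ← mul_assoc, h2]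
    ring
  have h4 : reflect n N * reflect (n - 1) D₁ = reflect n N₁ * reflect (n - 1) D :=
    coe_injective ℂ h3
  have hNd : N₁.natDegree ≤ n := by
    rw [natDegree_le_iff_coeff_eq_zero]
    intro m hm
    rw [hN₁, coeff_map, hcN, coeff_eq_zero_of_natDegree_lt (by omega), hl0, map_zero]
  have hDd : D₁.natDegree ≤ n - 1 := by
    rw [natDegree_le_iff_coeff_eq_zero]
    intro m hm
    rw [hD₁, coeff_map, hcD, coeff_eq_zero_of_natDegree_lt (by omega), hl0, map_zero]
  rw [← reflect_mul N D₁ hN1.le hDd, ← reflect_mul N₁ D hNd (by omega)] at h4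
  have h5 : N * D₁ = N₁ * D := by
    have h6 := congrArg (reflect (n + (n - 1))) h4
    rw [reflect_reflect, reflect_reflect] at h6
    exact h6
  have h6 : N ∣ N₁ := hc.dvd_of_dvd_mul_right ⟨D₁, h5.symm⟩
  have hN₁m : N₁.Monic := by
    refine monic_of_natDegree_le_of_coeff_eq_one n hNd ?_
    have h7 : N.coeff n = 1 := by
      rw [← hN1]
      exact hN
    rw [hN₁, coeff_map, hcN, h7, hl11, map_one]
  have h7 : N₁ = N := eq_of_monic_of_dvd_of_natDegree_le hN hN₁m h6 (by omega)
  refine ⟨RatC_L lam N, RatC_L lam D, h7, ?_⟩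
  rw [h7] at h5
  exact mul_left_cancel₀ hN.ne_zero h5

end

end Pool.Agent.Lib.MP_1a91b9_nuT.Mult
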