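import Pool.Agent.Lib.MP_1a91b9_nuT.Mult.MulC
import Pool.Agent.Lib.MP_1a91b9_nuT.Mult.Ode
import Pool.Agent.Lib.MP_1a91b9_nuT.Mult.RatA
import Pool.Agent.Lib.MP_1a91b9_nuT.Mult.RatB
import Pool.Agent.Lib.MP_1a91b9_nuT.Mult.RatC
import Pool.Agent.Lib.MP_1a91b9_nuT.Mult.Int

/-!
# The data of complex multiplication from the lattice

From an imaginary quadratic field `K` with `𝓞 K = ℤ + ℤ ta` principal and a curve
`y² = x³ + A x + B` with integral coefficients whose lattice of periods is homothetic to `𝓞 K` we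
construct the class `CD` for a scaled curve `y² = x³ + u⁴ A x + u⁶ B`.
-/

set_option autoImplicit false

namespace Pool.Agent.Lib.MP_1a91b9_nuT.Mult

open Polynomial NumberField

noncomputable section

theorem nm_pos {t : ℂ} (h : t.im ≠ 0) {tr nm : ℤ} (hq : t ^ 2 = tr * t - nm) :
    0 < nm ∧ tr ^ 2 - 4 * nm < 0 := by
  have him := congrArg Complex.im hq
  have hre := congrArg Complex.re hq
  simp [pow_two] at him hre
  have h1 : (tr : ℝ) = 2 * t.re := by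
    have h2 : t.im * ((tr : ℝ) - 2 * t.re) = 0 := by linear_combination -him
    rcases mul_eq_zero.1 h2 with h3 | h3
    · exact absurd h3 h
    · linear_combination h3
  have h2 : (nm : ℝ) = t.re ^ 2 + t.im ^ 2 := by
    rw [h1] at hre
    linear_combination hre
  have h3 : 0 < t.im ^ 2 := by positivity
  constructor
  · have h4 : (0 : ℝ) < nm := by rw [h2]; positivity
    exact_mod_cast h4
  · have h4 : (tr : ℝ) ^ 2 - 4 * nm < 0 := by rw [h1, h2]; nlinarith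
    exact_mod_cast h4

/-- The multiplication polynomials over `𝓞 K`, after scaling the curve. -/
theorem exists_data {K : Type} [Field K] [NumberField K] (emb : K →ₐ[ℚ] ℂ) (ta : 𝓞 K)
    (im : (emb (ta : K)).im ≠ 0) (tr : ℤ) (n : ℕ)
    (quad : ta ^ 2 = (tr : 𝓞 K) * ta - (n : 𝓞 K)) (A B : ℤ) {Om : ℂ} (Om_ne : Om ≠ 0)
    (g2 : (mkPP (emb (ta : K)) im).g₂ = -4 * (A : ℂ) * Om ^ 4)
    (g3 : (mkPP (emb (ta : K)) im).g₃ = -4 * (B : ℂ) * Om ^ 6) :
    ∃ (u : ℤ) (Nt Dt : (𝓞 K)[X]), u ≠ 0 ∧ Nt.Monic ∧ Nt.natDegree = n ∧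
      Dt.natDegree + 1 = Nt.natDegree ∧ Dt.leadingCoeff = ta ^ 2 ∧
      (∃ N₁ : (𝓞 K)[X], Nt = X ^ Nt.natDegree + C (ta ^ 3) * N₁) ∧
      (∃ D₁ : (𝓞 K)[X], Dt = C (ta ^ 2) * X ^ Dt.natDegree + C (ta ^ 3) * D₁) ∧
      IsCoprime (Nt.map (algebraMap (𝓞 K) K)) (Dt.map (algebraMap (𝓞 K) K)) ∧
      ∀ z : ℂ, z ∉ (mkPP (emb (ta : K)) im).lattice →
        emb (ta : K) * z ∉ (mkPP (emb (ta : K)) im).lattice →
        eval₂ (emb.toRingHom.comp (algebraMap (𝓞 K) K))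
          ((mkPP (emb (ta : K)) im).weierstrassP z / (Om / u) ^ 2) Nt =
        (mkPP (emb (ta : K)) im).weierstrassP (emb (ta : K) * z) / (Om / u) ^ 2 *
          eval₂ (emb.toRingHom.comp (algebraMap (𝓞 K) K))
            ((mkPP (emb (ta : K)) im).weierstrassP z / (Om / u) ^ 2) Dt := by
  set t : ℂ := emb (ta : K) with ht
  have hq : t ^ 2 = tr * t - n := by
    have h1 := congrArg (fun x : 𝓞 K => emb (x : K)) quad
    simp only [map_pow, map_sub, map_mul, map_intCast, map_natCast] at h1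
    exact h1
  have hn := n_pos im hq
  have ht0 := t_ne im
  have hta : ta ≠ 0 := by
    rintro h0
    apply ht0
    rw [ht, h0]
    simp
  have htaK : ((ta : K)) ^ 2 ≠ 0 := by
    refine pow_ne_zero 2 ?_
    intro h0
    apply ht0
    rw [ht, h0, map_zero]
  obtain ⟨N, D, h1, h2, h3, h4, h5, h6⟩ := exists_mulOm (tr := tr) (n := n) im hq Om_ne
  have hode := ode (mkPP t im) ht0 Om_ne g2 g3 N D h6
  obtain ⟨U, u1, u2, u3⟩ := exists_series n hn N D h1 h2 h3 (pow_ne_zero 2 ht0) h4 hode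
  have hι : ∀ x : K, (emb.toRingHom : K →+* ℂ) x = emb x := fun _ => rfl
  obtain ⟨V, hV⟩ := exists_map_of_ode (emb.toRingHom : K →+* ℂ) (A : K) (B : K)
    ((ta : K) ^ 2) U u1 (by
      have e1 : (emb.toRingHom : K →+* ℂ) (A : K) = (A : ℂ) := map_intCast _ A
      have e2 : (emb.toRingHom : K →+* ℂ) (B : K) = (B : ℂ) := map_intCast _ B
      have e3 : (emb.toRingHom : K →+* ℂ) ((A : K) * ((ta : K) ^ 2) ^ 2) =
          (A : ℂ) * (t ^ 2) ^ 2 := by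
        rw [RingHom.map_mul, e1, RingHom.map_pow, RingHom.map_pow, hι]
      have e4 : (emb.toRingHom : K →+* ℂ) ((B : K) * ((ta : K) ^ 2) ^ 3) =
          (B : ℂ) * (t ^ 2) ^ 3 := by
        rw [RingHom.map_mul, e2, RingHom.map_pow, RingHom.map_pow, hι]
      rw [e1, e2, e3, e4]
      exact u3)
  obtain ⟨N₀, D₀, hN₀, hD₀⟩ := exists_map_of_series (emb.toRingHom : K →+* ℂ) n hn N D h1 h2 h3 h5
    htaK V (by
      rw [hV, hι, map_pow, ← ht]
      exact u2)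
  have hinj : Function.Injective (emb.toRingHom : K →+* ℂ) := emb.toRingHom.injective
  have a1 : N₀.Monic := by
    rw [← hN₀] at h1
    exact monic_of_injective hinj h1
  have a2 : N₀.natDegree = n := by rw [← h2, ← hN₀, natDegree_map]
  have a3 : D₀.natDegree + 1 = n := by rw [← h3, ← hD₀, natDegree_map]
  have a4 : D₀.leadingCoeff = (ta : K) ^ 2 := by
    apply hinj
    rw [← leadingCoeff_map, hD₀, h4, hι, map_pow]
  have a5 : IsCoprime N₀ D₀ := by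
    rw [← hN₀, ← hD₀] at h5
    exact (isCoprime_map _).1 h5
  obtain ⟨u, Nt, Dt, b1, b2, b3, b4, b5, b6, b7, b8, b9⟩ :=
    exists_integral ta hta n hn N₀ D₀ a1 a2 a3 a4 a5
  refine ⟨u, Nt, Dt, b1, b2, b3, ?_, b5, ?_, ?_, b8, ?_⟩
  · rw [b3, b4]
  · rw [b3]
    exact b6
  · have : Dt.natDegree = n - 1 := by omega
    rw [this]
    exact b7
  · intro z hz htz
    have hu : (u : ℂ) ≠ 0 := Int.cast_ne_zero.2 b1
    have e1 : (mkPP t im).weierstrassP z / (Om / u) ^ 2 =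
        (u : ℂ) ^ 2 * ((mkPP t im).weierstrassP z / Om ^ 2) := by
      field_simp
    have e2 : (mkPP t im).weierstrassP (t * z) / (Om / u) ^ 2 =
        (u : ℂ) ^ 2 * ((mkPP t im).weierstrassP (t * z) / Om ^ 2) := by
      field_simp
    rw [e1, e2]
    obtain ⟨c1, c2⟩ := b9 (emb.toRingHom : K →+* ℂ) ((mkPP t im).weierstrassP z / Om ^ 2)
    rw [c1, c2]
    have c3 := h6 z hz htz
    rw [← hN₀, ← hD₀, eval_map, eval_map] at c3
    rw [c3]
    have hn' : n = (n - 1) + 1 := by omega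
    have hw : ((u : ℂ) ^ 2) ^ n = ((u : ℂ) ^ 2) ^ (n - 1) * (u : ℂ) ^ 2 := by
      conv_lhs => rw [hn']
      rw [pow_succ]
    rw [hw]
    ring

theorem exists_quad {K : Type} [Field K] [NumberField K] (emb : K →ₐ[ℚ] ℂ)
    (ta : 𝓞 K) (gen : ∀ a : 𝓞 K, ∃ m n : ℤ, a = (m : 𝓞 K) + (n : 𝓞 K) * ta)
    (im : (emb (ta : K)).im ≠ 0) : ∃ (tr : ℤ) (n : ℕ), ta ^ 2 = (tr : 𝓞 K) * ta - (n : 𝓞 K) := by
  obtain ⟨m, k, h⟩ := gen (ta ^ 2)
  have hq : emb (ta : K) ^ 2 = (k : ℤ) * emb (ta : K) - ((-m : ℤ) : ℂ) := by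
    have h1 := congrArg (fun x : 𝓞 K => emb (x : K)) h
    simp only [map_pow, map_add, map_mul, map_intCast] at h1
    rw [h1]
    push_cast
    ring
  have h2 := (nm_pos im hq).1
  refine ⟨k, (-m).toNat, ?_⟩
  have h3 : (((-m).toNat : ℕ) : 𝓞 K) = (((-m).toNat : ℤ) : 𝓞 K) := by push_cast; rfl
  rw [h3, Int.toNat_of_nonneg h2.le, h]
  push_cast
  ring

/-- The class `CD` from the lattice; `m` is an additional factor of the bad integer. -/
theorem exists_CD (K : Type) [Field K] [NumberField K] [IsPrincipalIdealRing (𝓞 K)]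
    (emb : K →ₐ[ℚ] ℂ)
    (ta : 𝓞 K) (gen : ∀ a : 𝓞 K, ∃ m n : ℤ, a = (m : 𝓞 K) + (n : 𝓞 K) * ta)
    (im : (emb (ta : K)).im ≠ 0) (A B : ℤ) (disc : 4 * A ^ 3 + 27 * B ^ 2 ≠ 0)
    (jint : 4 * A ^ 3 + 27 * B ^ 2 ∣ 6912 * A ^ 3) (Om : ℂ)
    (Om_ne : Om ≠ 0)
    (g2 : (mkPP (emb (ta : K)) im).g₂ = -4 * (A : ℂ) * Om ^ 4)
    (g3 : (mkPP (emb (ta : K)) im).g₃ = -4 * (B : ℂ) * Om ^ 6) (m : ℤ) (hm : m ≠ 0) :
    ∃ (u : ℤ) (_ : u ≠ 0) (c : CD) (e : K ≃+* c.K), c.A = u ^ 4 * A ∧ c.B = u ^ 6 * B ∧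
      m ∣ c.bad ∧ ∀ x, c.emb (e x) = emb x := by
  obtain ⟨tr, n, quad⟩ := exists_quad emb ta gen im
  obtain ⟨u, Nt, Dt, b1, b2, b3, b4, b5, b6, b7, b8, b9⟩ :=
    exists_data emb ta im tr n quad A B Om_ne g2 g3
  have hu : (u : ℂ) ≠ 0 := Int.cast_ne_zero.2 b1
  have hq : emb (ta : K) ^ 2 = tr * emb (ta : K) - ((n : ℤ) : ℂ) := by
    have h1 := congrArg (fun x : 𝓞 K => emb (x : K)) quad
    simp only [map_pow, map_sub, map_mul, map_intCast, map_natCast] at h1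
    rw [h1]
    push_cast
    rfl
  have hnm := nm_pos im hq
  have hdd : 4 * (u ^ 4 * A) ^ 3 + 27 * (u ^ 6 * B) ^ 2 = u ^ 12 * (4 * A ^ 3 + 27 * B ^ 2) := by
    ring
  have hdisc : 4 * (u ^ 4 * A) ^ 3 + 27 * (u ^ 6 * B) ^ 2 ≠ 0 := by
    rw [hdd]
    exact mul_ne_zero (pow_ne_zero _ b1) disc
  have hjint : 4 * (u ^ 4 * A) ^ 3 + 27 * (u ^ 6 * B) ^ 2 ∣ 6912 * (u ^ 4 * A) ^ 3 := by
    have e1 : 6912 * (u ^ 4 * A) ^ 3 = u ^ 12 * (6912 * A ^ 3) := by ring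
    rw [hdd, e1]
    exact mul_dvd_mul_left _ jint
  have hg2 : (mkPP (emb (ta : K)) im).g₂ = -4 * ((u ^ 4 * A : ℤ) : ℂ) * (Om / u) ^ 4 := by
    rw [g2]
    push_cast
    field_simp
  have hg3 : (mkPP (emb (ta : K)) im).g₃ = -4 * ((u ^ 6 * B : ℤ) : ℂ) * (Om / u) ^ 6 := by
    rw [g3]
    push_cast
    field_simp
  have hbad : m * (6 * (4 * (u ^ 4 * A) ^ 3 + 27 * (u ^ 6 * B) ^ 2) * n * (tr ^ 2 - 4 * n)) ≠ 0 :=
    mul_ne_zero hm (mul_ne_zero (mul_ne_zero (mul_ne_zero (by norm_num) hdisc) hnm.1.ne')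
      hnm.2.ne)
  have hquad : ta ^ 2 = (tr : 𝓞 K) * ta - (((n : ℕ) : ℤ) : 𝓞 K) := by
    rw [quad]
    push_cast
    rfl
  let c : CD :=
    { K := K
      emb := emb
      ta := ta
      gen := gen
      im := im
      tr := tr
      nm := n
      quad := hquad
      A := u ^ 4 * A
      B := u ^ 6 * B
      disc := hdisc
      jint := hjint
      Om := Om / u
      Om_ne := div_ne_zero Om_ne hu
      g2 := hg2
      g3 := hg3
      Nt := Nt
      Dt := Dt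
      Nt_monic := b2
      Nt_deg := by rw [b3]
      Dt_deg := b4
      Dt_lead := b5
      Nt_lo := b6
      Dt_lo := b7
      cop := b8
      mulx := b9
      bad := m * (6 * (4 * (u ^ 4 * A) ^ 3 + 27 * (u ^ 6 * B) ^ 2) * n * (tr ^ 2 - 4 * n))
      bad_ne := hbad
      bad_dvd := Dvd.intro_left m rfl }
  exact ⟨u, b1, c, RingEquiv.refl K, rfl, rfl, Dvd.intro _ rfl, fun x => rfl⟩

end

end Pool.Agent.Lib.MP_1a91b9_nuT.Mult
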