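import Pool.Agent.Lib.MP_1a91b9_nuT.Mult.Gen
import Pool.Agent.Lib.MP_1a91b9_nuT.Mult.Ode
import Pool.Agent.Lib.MP_1a91b9_nuT.Mult.RatA
import Pool.Agent.Lib.MP_1a91b9_nuT.Mult.RatB
import Pool.Agent.Lib.MP_1a91b9_nuT.Mult.RatC
import Pool.Agent.Lib.MP_1a91b9_nuT.S3.Card

/-!
# The multiplication polynomials of all the elements of `𝓞 K`
-/

set_option autoImplicit false

namespace Pool.Agent.Lib.MP_1a91b9_nuT.Mult

open Polynomial NumberField

noncomputable section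

variable [CD]

theorem embK_inj {a b : 𝓞 K} (h : embK (a : K) = embK (b : K)) : a = b :=
  RingOfIntegers.ext (embK.toRingHom.injective h)

theorem embK_ne_zero {a : 𝓞 K} (ha : a ≠ 0) : embK (a : K) ≠ 0 := by
  intro h
  apply ha
  apply embK_inj
  rw [h]
  simp

/-- A quotient is in the lattice if and only if it is the image of an integer. -/
theorem div_mem {a : 𝓞 K} (ha : a ≠ 0) (b : 𝓞 K) :
    embK (b : K) / embK (a : K) ∈ PP.lattice ↔ a ∣ b := by
  have ha0 := embK_ne_zero ha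
  constructor
  · intro hm
    obtain ⟨c, hc⟩ := S3.mem_PP_iff.1 hm
    refine ⟨c, embK_inj ?_⟩
    have e2 : ((a * c : 𝓞 K) : K) = (a : K) * (c : K) := rfl
    rw [e2, map_mul, hc, mul_div_cancel₀ _ ha0]
  · rintro ⟨c, rfl⟩
    have e2 : ((a * c : 𝓞 K) : K) = (a : K) * (c : K) := rfl
    rw [e2, map_mul, mul_div_cancel_left₀ _ ha0]
    exact S3.embK_mem c

/-- A system of representatives of `𝓞 K / a` gives one of `a⁻¹ L / L`. -/
theorem exists_reps {ι : Type*} [Fintype ι] {a : 𝓞 K} (ha : a ≠ 0) {ρ : ι → 𝓞 K}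
    (hρ : ∀ x : 𝓞 K, ∃! i, a ∣ x - ρ i) {i₀ : ι} (h0 : a ∣ ρ i₀) :
    ∃ ν : ι → ι, Reps PP (embK (a : K)) Finset.univ (fun i => embK (ρ i : K) / embK (a : K))
      i₀ ν := by
  have ha0 := embK_ne_zero ha
  choose ν hν _ using fun i => hρ (-(ρ i))
  have hν' : ∀ i, a ∣ -(ρ i) - ρ (ν i) := hν
  refine ⟨ν, ha0, ?_, Finset.mem_univ _, (div_mem ha _).2 h0, ?_, ?_, ?_, ?_, ?_⟩
  · intro l hl
    obtain ⟨b, rfl⟩ := S3.mem_PP_iff.1 hl
    have e2 : ((a * b : 𝓞 K) : K) = (a : K) * (b : K) := rfl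
    rw [← map_mul, ← e2]
    exact S3.embK_mem _
  · intro i _
    rw [mul_div_cancel₀ _ ha0]
    exact S3.embK_mem _
  · intro s hs
    obtain ⟨y, hy⟩ := S3.mem_PP_iff.1 hs
    obtain ⟨i, hi, _⟩ := hρ (-y)
    refine ⟨i, Finset.mem_univ _, ?_⟩
    have h1 : s + embK (ρ i : K) / embK (a : K) =
        embK ((-(-y - ρ i) : 𝓞 K) : K) / embK (a : K) := by
      have e1 : ((-(-y - ρ i) : 𝓞 K) : K) = (y : K) + (ρ i : K) := by
        have e3 : -(-y - ρ i) = y + ρ i := by ring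
        rw [e3]
        rfl
      rw [e1, map_add, hy]
      field_simp
    rw [h1, div_mem ha]
    exact (dvd_neg).2 hi
  · intro i _ j _ hij
    have h1 : embK (ρ i : K) / embK (a : K) - embK (ρ j : K) / embK (a : K) =
        embK ((ρ i - ρ j : 𝓞 K) : K) / embK (a : K) := by
      have e1 : ((ρ i - ρ j : 𝓞 K) : K) = (ρ i : K) - (ρ j : K) := rfl
      rw [e1, map_sub]
      ring
    have h2 : a ∣ ρ i - ρ j := (div_mem ha _).1 (by rw [← h1]; exact hij)
    obtain ⟨k, _, hk⟩ := hρ (ρ i)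
    rw [hk i (by simp), hk j h2]
  · intro i _
    exact Finset.mem_univ _
  · intro i _
    have h1 : embK (ρ (ν i) : K) / embK (a : K) + embK (ρ i : K) / embK (a : K) =
        embK ((-(-(ρ i) - ρ (ν i)) : 𝓞 K) : K) / embK (a : K) := by
      have e1 : ((-(-(ρ i) - ρ (ν i)) : 𝓞 K) : K) = (ρ (ν i) : K) + (ρ i : K) := by
        have e3 : -(-(ρ i) - ρ (ν i)) = ρ (ν i) + ρ i := by ring
        rw [e3]
        rfl
      rw [e1, map_add]
      ring
    show embK (ρ (ν i) : K) / embK (a : K) + embK (ρ i : K) / embK (a : K) ∈ PP.lattice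
    rw [h1, div_mem ha]
    exact (dvd_neg).2 (hν' i)

/-- Two representatives of the same class give the same value. -/
theorem P_rep {a : 𝓞 K} (ha : a ≠ 0) {b c : 𝓞 K} (h : a ∣ b - c) :
    PP.weierstrassP (embK (b : K) / embK (a : K)) =
      PP.weierstrassP (embK (c : K) / embK (a : K)) := by
  have h1 := P_add (L := PP) ((div_mem ha (b - c)).2 h) (embK (c : K) / embK (a : K))
  have h2 : embK (c : K) / embK (a : K) + embK ((b - c : 𝓞 K) : K) / embK (a : K) =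
      embK (b : K) / embK (a : K) := by
    have e1 : ((b - c : 𝓞 K) : K) = (b : K) - (c : K) := rfl
    rw [e1, map_sub]
    ring
  rw [h2] at h1
  exact h1

/-- The multiplication polynomials, for one system of representatives. -/
theorem exists_mul_reps {ι : Type*} [Fintype ι] [DecidableEq ι] {a : 𝓞 K} (ha : a ≠ 0)
    {ρ : ι → 𝓞 K} (hρ : ∀ x : 𝓞 K, ∃! i, a ∣ x - ρ i) {i₀ : ι} (h0 : a ∣ ρ i₀) :
    ∃ N D : K[X], N.Monic ∧ N.natDegree = Fintype.card ι ∧ D.natDegree + 1 = Fintype.card ι ∧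
      D.leadingCoeff = (a : K) ^ 2 ∧ IsCoprime N D ∧
      (∀ x : ℂ, (D.map (embK.toRingHom : K →+* ℂ)).eval x = embK (a : K) ^ 2 *
        ∏ i ∈ Finset.univ.erase i₀,
          (x - PP.weierstrassP (embK (ρ i : K) / embK (a : K)) / Om ^ 2)) ∧
      ∀ z, z ∉ PP.lattice → embK (a : K) * z ∉ PP.lattice →
        (N.map (embK.toRingHom : K →+* ℂ)).eval (PP.weierstrassP z / Om ^ 2) =
          PP.weierstrassP (embK (a : K) * z) / Om ^ 2 *
            (D.map (embK.toRingHom : K →+* ℂ)).eval (PP.weierstrassP z / Om ^ 2) := by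
  have ha0 := embK_ne_zero ha
  have haK : ((a : K)) ^ 2 ≠ 0 := by
    refine pow_ne_zero 2 ?_
    intro h1
    apply ha0
    rw [h1, map_zero]
  obtain ⟨ν, hR⟩ := exists_reps ha hρ h0
  obtain ⟨N, D, h1, h2, h3, h4, h5, h6, h7⟩ := exists_mulGOm hR Om_ne
  have hn : 0 < Fintype.card ι := Fintype.card_pos_iff.2 ⟨i₀⟩
  have hcard : (Finset.univ : Finset ι).card = Fintype.card ι := Finset.card_univ
  rw [hcard] at h2 h3
  have hode := ode PP ha0 Om_ne g2_eq g3_eq N D h7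
  obtain ⟨U, u1, u2, u3⟩ := exists_series (Fintype.card ι) hn N D h1 h2 h3 (pow_ne_zero 2 ha0) h4
    hode
  have hι : ∀ x : K, (embK.toRingHom : K →+* ℂ) x = embK x := fun _ => rfl
  obtain ⟨V, hV⟩ := exists_map_of_ode (embK.toRingHom : K →+* ℂ) (cA K) (cB K)
    ((a : K) ^ 2) U u1 (by
      have e1 : (embK.toRingHom : K →+* ℂ) (cA K) = cA ℂ := map_intCast _ _
      have e2 : (embK.toRingHom : K →+* ℂ) (cB K) = cB ℂ := map_intCast _ _
      have e3 : (embK.toRingHom : K →+* ℂ) (cA K * ((a : K) ^ 2) ^ 2) =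
          cA ℂ * (embK (a : K) ^ 2) ^ 2 := by
        rw [RingHom.map_mul, e1, RingHom.map_pow, RingHom.map_pow, hι]
      have e4 : (embK.toRingHom : K →+* ℂ) (cB K * ((a : K) ^ 2) ^ 3) =
          cB ℂ * (embK (a : K) ^ 2) ^ 3 := by
        rw [RingHom.map_mul, e2, RingHom.map_pow, RingHom.map_pow, hι]
      rw [e1, e2, e3, e4]
      exact u3)
  obtain ⟨N₀, D₀, hN₀, hD₀⟩ := exists_map_of_series (embK.toRingHom : K →+* ℂ) _ hn N D h1 h2 h3
    h5 haK V (by
      rw [hV, hι, map_pow]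
      exact u2)
  have hinj : Function.Injective (embK.toRingHom : K →+* ℂ) := embK.toRingHom.injective
  have a1 : N₀.Monic := by
    rw [← hN₀] at h1
    exact monic_of_injective hinj h1
  have a2 : N₀.natDegree = Fintype.card ι := by rw [← h2, ← hN₀, natDegree_map]
  have a3 : D₀.natDegree + 1 = Fintype.card ι := by rw [← h3, ← hD₀, natDegree_map]
  have a4 : D₀.leadingCoeff = (a : K) ^ 2 := by
    apply hinj
    rw [← leadingCoeff_map, hD₀, h4, hι, map_pow]
  have a5 : IsCoprime N₀ D₀ := by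
    rw [← hN₀, ← hD₀] at h5
    exact (isCoprime_map _).1 h5
  refine ⟨N₀, D₀, a1, a2, a3, a4, a5, ?_, ?_⟩
  · rw [hD₀]
    exact h6
  · rw [hD₀, hN₀]
    exact h7

/-- The multiplication polynomials of every nonzero element of `𝓞 K`. -/
theorem exists_mulpoly (a : 𝓞 K) (ha : a ≠ 0) :
    ∃ N D : K[X], N.Monic ∧ N.natDegree = Ideal.absNorm (Ideal.span {a}) ∧
      D.natDegree + 1 = Ideal.absNorm (Ideal.span {a}) ∧
      D.leadingCoeff = (a : K) ^ 2 ∧ IsCoprime N D ∧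
      (∀ z, z ∉ PP.lattice → embK (a : K) * z ∉ PP.lattice →
        (N.map (embK.toRingHom : K →+* ℂ)).eval (PP.weierstrassP z / Om ^ 2) =
          PP.weierstrassP (embK (a : K) * z) / Om ^ 2 *
            (D.map (embK.toRingHom : K →+* ℂ)).eval (PP.weierstrassP z / Om ^ 2)) ∧
      ∀ (ι : Type) [Fintype ι] [DecidableEq ι] (ρ : ι → 𝓞 K) (_ : ∀ x : 𝓞 K, ∃! i, a ∣ x - ρ i)
        (i₀ : ι) (_ : a ∣ ρ i₀) (x : ℂ),
        (D.map (embK.toRingHom : K →+* ℂ)).eval x = embK (a : K) ^ 2 *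
          ∏ i ∈ Finset.univ.erase i₀,
            (x - PP.weierstrassP (embK (ρ i : K) / embK (a : K)) / Om ^ 2) := by
  classical
  have hne : Ideal.span {a} ≠ (⊥ : Ideal (𝓞 K)) := by
    rwa [Ne, Ideal.span_singleton_eq_bot]
  have hfin : Finite (𝓞 K ⧸ Ideal.span {a}) := Ideal.finiteQuotientOfFreeOfNeBot _ hne
  letI : Fintype (𝓞 K ⧸ Ideal.span {a}) := Fintype.ofFinite _
  have hmk : ∀ x y : 𝓞 K, Ideal.Quotient.mk (Ideal.span {a}) x = Ideal.Quotient.mk _ y ↔
      a ∣ x - y := by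
    intro x y
    rw [Ideal.Quotient.mk_eq_mk_iff_sub_mem, Ideal.mem_span_singleton]
  set σ : (𝓞 K ⧸ Ideal.span {a}) → 𝓞 K := fun g => Quotient.out g with hσ
  have hσ1 : ∀ g, Ideal.Quotient.mk (Ideal.span {a}) (σ g) = g := fun g => Quotient.out_eq g
  have hσ2 : ∀ x : 𝓞 K, ∃! g, a ∣ x - σ g := by
    intro x
    refine ⟨Ideal.Quotient.mk _ x, ?_, ?_⟩
    · show a ∣ x - σ (Ideal.Quotient.mk _ x)
      rw [← hmk, hσ1]
    · intro g hg
      have hg' : a ∣ x - σ g := hg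
      rw [← hmk, hσ1] at hg'
      exact hg'.symm
  have hσ0 : a ∣ σ 0 := by
    have h1 := (hmk (σ 0) 0).1 (by rw [hσ1, map_zero])
    rwa [sub_zero] at h1
  obtain ⟨N, D, h1, h2, h3, h4, h5, h6, h7⟩ := exists_mul_reps ha hσ2 hσ0
  have hcard : Fintype.card (𝓞 K ⧸ Ideal.span {a}) = Ideal.absNorm (Ideal.span {a}) := by
    rw [← Nat.card_eq_fintype_card]
    rfl
  rw [hcard] at h2 h3
  refine ⟨N, D, h1, h2, h3, h4, h5, h7, ?_⟩
  intro ι _ _ ρ hρ i₀ hi₀ x
  rw [h6]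
  congr 1
  -- the bijection between the two systems
  have hbij : ∀ i : ι, a ∣ ρ i - σ (Ideal.Quotient.mk _ (ρ i)) := by
    intro i
    rw [← hmk, hσ1]
  symm
  refine Finset.prod_bij (fun i _ => Ideal.Quotient.mk (Ideal.span {a}) (ρ i)) ?_ ?_ ?_ ?_
  · intro i hi
    refine Finset.mem_erase.2 ⟨fun h0 => (Finset.mem_erase.1 hi).1 ?_, Finset.mem_univ _⟩
    have h8 : a ∣ ρ i - ρ i₀ := by
      rw [← hmk, h0, eq_comm, Ideal.Quotient.eq_zero_iff_mem, Ideal.mem_span_singleton]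
      exact hi₀
    obtain ⟨k, _, hk⟩ := hρ (ρ i)
    rw [hk i (by simp), hk i₀ h8]
  · intro i _ j _ hij
    have h8 : a ∣ ρ i - ρ j := (hmk _ _).1 hij
    obtain ⟨k, _, hk⟩ := hρ (ρ i)
    rw [hk i (by simp), hk j h8]
  · intro g hg
    obtain ⟨i, hi, _⟩ := hρ (σ g)
    refine ⟨i, ?_, ?_⟩
    · refine Finset.mem_erase.2 ⟨?_, Finset.mem_univ _⟩
      rintro rfl
      apply (Finset.mem_erase.1 hg).1
      rw [← hσ1 g, Ideal.Quotient.eq_zero_iff_mem, Ideal.mem_span_singleton]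
      have h9 := dvd_add hi hi₀
      rwa [sub_add_cancel] at h9
    · show Ideal.Quotient.mk (Ideal.span {a}) (ρ i) = g
      rw [← hσ1 g]
      exact ((hmk _ _).2 hi).symm
  · intro i _
    rw [P_rep ha (hbij i)]

/-- The numerator of the multiplication by `a` on the abscissae (`0` for `a = 0`). -/
def mulN (a : 𝓞 K) : K[X] := by
  classical exact if h : a ≠ 0 then (exists_mulpoly a h).choose else 0

/-- The denominator of the multiplication by `a` on the abscissae (`0` for `a = 0`). -/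
def mulD (a : 𝓞 K) : K[X] := by
  classical exact if h : a ≠ 0 then (exists_mulpoly a h).choose_spec.choose else 0

theorem mul_spec {a : 𝓞 K} (ha : a ≠ 0) :
    (mulN a).Monic ∧ (mulN a).natDegree = Ideal.absNorm (Ideal.span {a}) ∧
      (mulD a).natDegree + 1 = Ideal.absNorm (Ideal.span {a}) ∧
      (mulD a).leadingCoeff = (a : K) ^ 2 ∧ IsCoprime (mulN a) (mulD a) ∧
      (∀ z, z ∉ PP.lattice → embK (a : K) * z ∉ PP.lattice →
        ((mulN a).map (embK.toRingHom : K →+* ℂ)).eval (PP.weierstrassP z / Om ^ 2) =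
          PP.weierstrassP (embK (a : K) * z) / Om ^ 2 *
            ((mulD a).map (embK.toRingHom : K →+* ℂ)).eval (PP.weierstrassP z / Om ^ 2)) ∧
      ∀ (ι : Type) [Fintype ι] [DecidableEq ι] (ρ : ι → 𝓞 K) (_ : ∀ x : 𝓞 K, ∃! i, a ∣ x - ρ i)
        (i₀ : ι) (_ : a ∣ ρ i₀) (x : ℂ),
        ((mulD a).map (embK.toRingHom : K →+* ℂ)).eval x = embK (a : K) ^ 2 *
          ∏ i ∈ Finset.univ.erase i₀,
            (x - PP.weierstrassP (embK (ρ i : K) / embK (a : K)) / Om ^ 2) := by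
  have h1 : mulN a = (exists_mulpoly a ha).choose := dif_pos ha
  have h2 : mulD a = (exists_mulpoly a ha).choose_spec.choose := dif_pos ha
  rw [h1, h2]
  exact (exists_mulpoly a ha).choose_spec.choose_spec

end

end Pool.Agent.Lib.MP_1a91b9_nuT.Mult
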