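import Pool.Agent.Lib.MP_1a91b9_nuT.Mult.Bas

/-!
# Multiplication polynomials, file Add1: the symmetric addition formula

Write P for L.weierstrassP, Q for L.derivWeierstrassP.

PROOF of even_expansion. Use dslope four times. Let k1 = dslope h 0: analytic at 0 (AnalyticAt of
dslope: HasFPowerSeriesAt.has_fpower_series_dslope_fslope, or: continuous at 0 and
h z = h 0 + z * k1 z for all z, by sub_smul_dslope). For z ≠ 0: k1 (-z) = - k1 z because h is even,
hence by continuity at 0 k1 0 = 0, and k1 is odd everywhere. Let k2 = dslope k1 0 : k1 z = z * k2 z,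
k2 is even, k2 analytic at 0. Let k3 = dslope k2 0: k2 z = k2 0 + z * k3 z, k3 is odd, k3 0 = 0.
Let k4 = dslope k3 0: k3 z = z * k4 z. Then h z = h 0 + k2 0 * z ^ 2 + z ^ 4 * k4 z and k4 is
analytic at 0, so continuous. So a = k2 0, k = k4. (Work with analytic functions at 0 throughout; to
get analyticity of dslope f 0 at 0 from that of f: obtain ⟨p, hp⟩ := hf and use
hp.has_fpower_series_dslope_fslope.)

PROOF of add_formula. Let e = P c, q = Q c, h z = P (z + c) + P (z - c) - 2 e.
* h is analytic at 0 (c, -c are not lattice points; L.analyticOnNhd_weierstrassP), even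
  (L.weierstrassP_neg), h 0 = 0. So h z = a z^2 + z^4 k z by even_expansion (for all z).
* Let F z = h z * (P z - e)^2 - a (P z - e) - q^2 and
  S = {z | z ∈ L ∨ z + c ∈ L ∨ z - c ∈ L}. F is periodic (P_add) and F (-z) = F z, differentiable
  off S. We apply liouville_eq L with s = c and limit 0:
  - Tendsto F (𝓝[≠] c) (𝓝 0). First (P z - e) → 0 (continuousAt_P) and
    (z - c)⁻¹ * (P z - e) → q (hasDerivAt_P hc).tendsto_slope, and (z - c)^2 * P (z - c) → 1
    (tendsto_P_lattice for l = 0 translated: tendsto_translate). So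
    P (z - c) (P z - e)^2 → q^2.
    Case 2c ∉ L: P (z + c) is continuous at c, P (z + c) (P z - e)^2 → 0; so F → q^2 - q^2 = 0.
    Case 2c ∈ L: q = 0 (Q_half), P (z + c) = P (z - c) (P_add, z + c = (z - c) + 2c); so
    F → 2 q^2 - q^2 = 0.
  - at s ∈ S with s - c ∈ L: tendsto_period gives Tendsto F (𝓝[≠] s) (𝓝 0), then tendsto_mul_zero.
  - at s ∈ S with s + c ∈ L: F even, so Tendsto F (𝓝[≠] (-c)) (𝓝 0) (compose with z ↦ -z), then
    tendsto_period and tendsto_mul_zero.
  - at s ∈ S with s ∈ L (and not the previous cases): z * F z → 0 as z → 0, z ≠ 0: with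
    P z = (z^2)⁻¹ + Pr L z (P_eq), for z ≠ 0
    z F z = z * ( k z + 2 (a + z^2 k z) (Pr z - e) + z^2 (a + z^2 k z) (Pr z - e)^2
                  - a (Pr z - e) - q^2 )
    (check: field_simp; ring after rewriting h z and P z), all of it continuous at 0; then transport
    to s by translation (F periodic): (z - s) * F z = (z - s) * F (z - s).
* So F = 0 off S, which is the claim.
Models: Pool/Agent/Lib/MP_1a91b9_ntT/S3/Inj.lean (theorem sig), S3/Add.lean (add_sq).
-/

set_option autoImplicit false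

namespace Pool.Agent.Lib.MP_1a91b9_nuT.Mult

open Complex Filter Topology

noncomputable section

variable {L : PeriodPair}

private theorem Add1_dslope {f : ℂ → ℂ} (hf : AnalyticAt ℂ f 0) :
    ∃ g : ℂ → ℂ, AnalyticAt ℂ g 0 ∧ ∀ z, f z = f 0 + z * g z := by
  obtain ⟨p, hp⟩ := hf
  refine ⟨dslope f 0, ⟨_, hp.has_fpower_series_dslope_fslope⟩, fun z => ?_⟩
  have h := sub_smul_dslope f 0 z
  rw [sub_zero, smul_eq_mul] at h
  rw [h]
  ring

private theorem Add1_odd {g : ℂ → ℂ} (hg : ContinuousAt g 0) (ho : ∀ z, z ≠ 0 → g (-z) = -g z) :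
    g 0 = 0 := by
  have h1 : Tendsto (fun z => -g z) (𝓝[≠] 0) (𝓝 (-g 0)) :=
    (hg.tendsto.mono_left nhdsWithin_le_nhds).neg
  have h2 : ContinuousAt (fun z => g (-z)) 0 := by
    refine ContinuousAt.comp (g := g) (f := fun z => -z) ?_ (by fun_prop)
    rw [neg_zero]
    exact hg
  have h3 := h2.tendsto.mono_left (nhdsWithin_le_nhds (s := {0}ᶜ))
  rw [neg_zero] at h3
  have h4 : ∀ᶠ z in 𝓝[≠] (0 : ℂ), g (-z) = -g z := by
    filter_upwards [self_mem_nhdsWithin] with z hz
    exact ho z hz
  have h5 := tendsto_nhds_unique_of_eventuallyEq h3 h1 h4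
  have h6 : 2 * g 0 = 0 := by linear_combination h5
  simpa using h6

/-- An even analytic function at `0`. -/
theorem even_expansion {h : ℂ → ℂ} (hh : AnalyticAt ℂ h 0) (he : ∀ z, h (-z) = h z) :
    ∃ (a : ℂ) (k : ℂ → ℂ), ContinuousAt k 0 ∧ ∀ z, h z = h 0 + a * z ^ 2 + z ^ 4 * k z := by
  obtain ⟨g1, hg1, e1⟩ := Add1_dslope hh
  have o1 : ∀ z, z ≠ 0 → g1 (-z) = -g1 z := by
    intro z hz
    have h1 := he z
    rw [e1 (-z), e1 z] at h1
    have h2 : z * (g1 (-z) + g1 z) = 0 := by linear_combination -h1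
    rcases mul_eq_zero.1 h2 with h3 | h3
    · exact absurd h3 hz
    · exact eq_neg_of_add_eq_zero_left h3
  have z1 := Add1_odd hg1.continuousAt o1
  obtain ⟨g2, hg2, e2⟩ := Add1_dslope hg1
  rw [z1] at e2
  have o2 : ∀ z, z ≠ 0 → g2 (-z) = g2 z := by
    intro z hz
    have h1 := o1 z hz
    rw [e2 (-z), e2 z] at h1
    have h2 : z * (g2 (-z) - g2 z) = 0 := by linear_combination -h1
    rcases mul_eq_zero.1 h2 with h3 | h3
    · exact absurd h3 hz
    · exact sub_eq_zero.1 h3
  obtain ⟨g3, hg3, e3⟩ := Add1_dslope hg2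
  have o3 : ∀ z, z ≠ 0 → g3 (-z) = -g3 z := by
    intro z hz
    have h1 := o2 z hz
    rw [e3 (-z), e3 z] at h1
    have h2 : z * (g3 (-z) + g3 z) = 0 := by linear_combination -h1
    rcases mul_eq_zero.1 h2 with h3 | h3
    · exact absurd h3 hz
    · exact eq_neg_of_add_eq_zero_left h3
  have z3 := Add1_odd hg3.continuousAt o3
  obtain ⟨g4, hg4, e4⟩ := Add1_dslope hg3
  rw [z3] at e4
  refine ⟨g2 0, g4, hg4.continuousAt, fun z => ?_⟩
  rw [e1 z, e2 z, e3 z, e4 z]
  ring

/-- The symmetric addition formula. -/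
theorem add_formula {c : ℂ} (hc : c ∉ L.lattice) :
    ∃ a : ℂ, ∀ z, z ∉ L.lattice → z + c ∉ L.lattice → z - c ∉ L.lattice →
      (L.weierstrassP (z + c) + L.weierstrassP (z - c) - 2 * L.weierstrassP c) *
        (L.weierstrassP z - L.weierstrassP c) ^ 2 =
      a * (L.weierstrassP z - L.weierstrassP c) + L.derivWeierstrassP c ^ 2 := by
  have hc' : -c ∉ L.lattice := fun h => hc (neg_mem_iff.1 h)
  -- the even function
  have hh : AnalyticAt ℂ (fun z => L.weierstrassP (z + c) + L.weierstrassP (z - c) -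
      2 * L.weierstrassP c) 0 := by
    have a1 : AnalyticAt ℂ L.weierstrassP ((fun z : ℂ => z + c) 0) := by
      change AnalyticAt ℂ L.weierstrassP (0 + c)
      rw [zero_add]
      exact L.analyticOnNhd_weierstrassP c hc
    have a2 : AnalyticAt ℂ L.weierstrassP ((fun z : ℂ => z - c) 0) := by
      change AnalyticAt ℂ L.weierstrassP (0 - c)
      rw [zero_sub]
      exact L.analyticOnNhd_weierstrassP (-c) hc'
    have b1 : AnalyticAt ℂ (fun z : ℂ => z + c) 0 := analyticAt_id.add analyticAt_const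
    have b2 : AnalyticAt ℂ (fun z : ℂ => z - c) 0 := analyticAt_id.sub analyticAt_const
    have c1 : AnalyticAt ℂ (fun z : ℂ => L.weierstrassP (z + c)) 0 :=
      AnalyticAt.comp (f := fun z : ℂ => z + c) (g := L.weierstrassP) a1 b1
    have c2 : AnalyticAt ℂ (fun z : ℂ => L.weierstrassP (z - c)) 0 :=
      AnalyticAt.comp (f := fun z : ℂ => z - c) (g := L.weierstrassP) a2 b2
    exact (c1.add c2).sub analyticAt_const
  have hev : ∀ z : ℂ, L.weierstrassP (-z + c) + L.weierstrassP (-z - c) - 2 * L.weierstrassP c =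
      L.weierstrassP (z + c) + L.weierstrassP (z - c) - 2 * L.weierstrassP c := by
    intro z
    rw [show -z + c = -(z - c) by ring, show -z - c = -(z + c) by ring, L.weierstrassP_neg,
      L.weierstrassP_neg]
    ring
  obtain ⟨a, k, hk, hkz⟩ := even_expansion hh hev
  have h0 : L.weierstrassP ((0 : ℂ) + c) + L.weierstrassP ((0 : ℂ) - c) - 2 * L.weierstrassP c =
      0 := by
    rw [zero_add, zero_sub, L.weierstrassP_neg]
    ring
  have hkz' : ∀ z : ℂ, L.weierstrassP (z + c) + L.weierstrassP (z - c) - 2 * L.weierstrassP c =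
      a * z ^ 2 + z ^ 4 * k z := by
    intro z
    have h1 := hkz z
    rw [h1, h0, zero_add]
  refine ⟨a, ?_⟩
  obtain ⟨F, hF⟩ : ∃ F : ℂ → ℂ, F = fun z =>
      (L.weierstrassP (z + c) + L.weierstrassP (z - c) - 2 * L.weierstrassP c) *
        (L.weierstrassP z - L.weierstrassP c) ^ 2 -
      a * (L.weierstrassP z - L.weierstrassP c) - L.derivWeierstrassP c ^ 2 := ⟨_, rfl⟩
  have hFz : ∀ z, F z =
      (L.weierstrassP (z + c) + L.weierstrassP (z - c) - 2 * L.weierstrassP c) *
        (L.weierstrassP z - L.weierstrassP c) ^ 2 -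
      a * (L.weierstrassP z - L.weierstrassP c) - L.derivWeierstrassP c ^ 2 := by
    intro z
    rw [hF]
  obtain ⟨S, hSd⟩ : ∃ S : Set ℂ, S = {z | z ∈ L.lattice ∨ z + c ∈ L.lattice ∨
      z - c ∈ L.lattice} := ⟨_, rfl⟩
  have hSm : ∀ z, z ∈ S ↔ z ∈ L.lattice ∨ z + c ∈ L.lattice ∨ z - c ∈ L.lattice := by
    intro z
    rw [hSd]
    rfl
  have hS : ∀ z, ∀ᶠ w in 𝓝[≠] z, w ∉ S := by
    intro z
    filter_upwards [eventually_notMem L z, eventually_add_notMem L c z,
      eventually_add_notMem L (-c) z] with w h1 h2 h3 h4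
    rw [hSm] at h4
    rcases h4 with h4 | h4 | h4
    · exact h1 h4
    · exact h2 h4
    · exact h3 (by rw [← sub_eq_add_neg]; exact h4)
  have hd : ∀ z ∉ S, DifferentiableAt ℂ F z := by
    intro z hz
    rw [hSm] at hz
    push Not at hz
    obtain ⟨h1, h2, h3⟩ := hz
    have d1 := (hasDerivAt_P h1).differentiableAt
    have d2 : DifferentiableAt ℂ (fun w : ℂ => L.weierstrassP (w + c)) z :=
      ((hasDerivAt_P h2).comp_add_const z c).differentiableAt
    have d3 : DifferentiableAt ℂ (fun w : ℂ => L.weierstrassP (w - c)) z :=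
      ((hasDerivAt_P h3).comp_sub_const z c).differentiableAt
    rw [hF]
    exact ((((d2.add d3).sub (differentiableAt_const _)).mul ((d1.sub
      (differentiableAt_const _)).pow 2)).sub ((differentiableAt_const _).mul (d1.sub
      (differentiableAt_const _)))).sub (differentiableAt_const _)
  have hp : ∀ l ∈ L.lattice, ∀ z, F (z + l) = F z := by
    intro l hl z
    rw [hFz, hFz, show z + l + c = z + c + l by ring, show z + l - c = z - c + l by ring,
      P_add hl, P_add hl, P_add hl]
  have hFe : ∀ z, F (-z) = F z := by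
    intro z
    rw [hFz, hFz, hev z, L.weierstrassP_neg]
  -- the limit at `c`
  have A0 : Tendsto (fun z => L.weierstrassP z - L.weierstrassP c) (𝓝[≠] c) (𝓝 0) := by
    have h1 := ((continuousAt_P hc).tendsto.mono_left
      (nhdsWithin_le_nhds (s := {c}ᶜ))).sub_const (L.weierstrassP c)
    rwa [sub_self] at h1
  have A1 : Tendsto (fun z => (z - c)⁻¹ * (L.weierstrassP z - L.weierstrassP c)) (𝓝[≠] c)
      (𝓝 (L.derivWeierstrassP c)) := by
    have h1 := (hasDerivAt_P hc).tendsto_slope
    refine h1.congr fun z => ?_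
    rw [slope_def_field]
    rw [div_eq_inv_mul]
  have A2 : Tendsto (fun z => (z - c) ^ 2 * L.weierstrassP (z - c)) (𝓝[≠] c) (𝓝 1) := by
    have h1 := tendsto_translate (l := c) (tendsto_P_lattice (L := L) (zero_mem _))
    simpa using h1
  have A3 : Tendsto (fun z => L.weierstrassP (z - c) *
      (L.weierstrassP z - L.weierstrassP c) ^ 2) (𝓝[≠] c) (𝓝 (L.derivWeierstrassP c ^ 2)) := by
    have h1 := A2.mul (A1.pow 2)
    rw [one_mul] at h1
    refine h1.congr' ?_
    filter_upwards [self_mem_nhdsWithin] with z hz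
    have hz' : z - c ≠ 0 := sub_ne_zero.2 hz
    field_simp
  have T1 : Tendsto F (𝓝[≠] c) (𝓝 0) := by
    by_cases h2 : 2 * c ∈ L.lattice
    · have q0 := Q_half h2
      have h3 := (((A3.const_mul 2).sub ((A0.pow 2).const_mul (2 * L.weierstrassP c))).sub
        (A0.const_mul a)).sub_const (L.derivWeierstrassP c ^ 2)
      rw [q0] at h3
      simp only [ne_eq, OfNat.ofNat_ne_zero, not_false_eq_true, zero_pow, mul_zero, sub_zero] at h3
      refine h3.congr fun z => ?_
      rw [hFz, q0, show z + c = z - c + 2 * c by ring, P_add h2]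
      ring
    · have h3 : Tendsto (fun z => L.weierstrassP (z + c)) (𝓝[≠] c)
          (𝓝 (L.weierstrassP (c + c))) := by
        have h4 : c + c ∉ L.lattice := by rwa [← two_mul]
        have h5 : ContinuousAt (fun z => L.weierstrassP (z + c)) c :=
          ((hasDerivAt_P h4).comp_add_const c c).continuousAt
        exact h5.tendsto.mono_left nhdsWithin_le_nhds
      have h6 := ((((h3.mul (A0.pow 2)).add A3).sub
        ((A0.pow 2).const_mul (2 * L.weierstrassP c))).sub
        (A0.const_mul a)).sub_const (L.derivWeierstrassP c ^ 2)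
      simp only [ne_eq, OfNat.ofNat_ne_zero, not_false_eq_true, zero_pow, mul_zero, sub_zero,
        zero_add, sub_self] at h6
      refine h6.congr fun z => ?_
      rw [hFz]
      ring
  have T2 : Tendsto F (𝓝[≠] (-c)) (𝓝 0) := by
    have h1 : Tendsto (fun z : ℂ => -z) (𝓝[≠] (-c)) (𝓝[≠] c) := by
      refine tendsto_nhdsWithin_iff.2 ⟨?_, ?_⟩
      · have h2 : ContinuousAt (fun z : ℂ => -z) (-c) := by fun_prop
        have h3 := h2.tendsto
        rw [neg_neg] at h3
        exact h3.mono_left nhdsWithin_le_nhds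
      · filter_upwards [self_mem_nhdsWithin] with z hz h
        have h' : -z = c := h
        exact hz (by rw [← h', neg_neg]; rfl)
    exact (T1.comp h1).congr fun z => hFe z
  have T3 : Tendsto (fun z => z * F z) (𝓝[≠] 0) (𝓝 0) := by
    have cR : ContinuousAt (fun z => Pr L z - L.weierstrassP c) 0 :=
      (analyticAt_Pr L).continuousAt.sub continuousAt_const
    have cz : ContinuousAt (fun z : ℂ => z ^ 2) 0 := by fun_prop
    have ca : ContinuousAt (fun z => a + z ^ 2 * k z) 0 := continuousAt_const.add (cz.mul hk)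
    have cG : ContinuousAt (fun z => z * (k z + 2 * (a + z ^ 2 * k z) *
        (Pr L z - L.weierstrassP c) + z ^ 2 * (a + z ^ 2 * k z) *
        (Pr L z - L.weierstrassP c) ^ 2 - a * (Pr L z - L.weierstrassP c) -
        L.derivWeierstrassP c ^ 2)) 0 :=
      continuousAt_id.mul ((((hk.add ((continuousAt_const.mul ca).mul cR)).add
        ((cz.mul ca).mul (cR.pow 2))).sub (continuousAt_const.mul cR)).sub continuousAt_const)
    have h1 := cG.tendsto.mono_left (nhdsWithin_le_nhds (s := {0}ᶜ))
    rw [zero_mul] at h1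
    refine h1.congr' ?_
    filter_upwards [self_mem_nhdsWithin] with z hz
    have hz0 : z ≠ 0 := hz
    rw [hFz, hkz' z, P_eq z]
    field_simp
    ring
  have hb : ∀ s ∈ S, Tendsto (fun z => (z - s) * F z) (𝓝[≠] s) (𝓝 0) := by
    intro s hs
    rw [hSm] at hs
    rcases hs with hs | hs | hs
    · refine (tendsto_translate (l := s) T3).congr fun z => ?_
      have h1 := hp s hs (z - s)
      rw [sub_add_cancel] at h1
      rw [h1]
    · exact tendsto_mul_zero (tendsto_period hp T2 (by rw [sub_neg_eq_add]; exact hs))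
    · exact tendsto_mul_zero (tendsto_period hp T1 hs)
  intro z h1 h2 h3
  have h4 := liouville_eq L hS hd hb hp T1 z (by
    rw [hSm]
    push Not
    exact ⟨h1, h2, h3⟩)
  rw [hFz] at h4
  linear_combination h4

end

end Pool.Agent.Lib.MP_1a91b9_nuT.Mult
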