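import Mathlib

/-!
# Multiplication polynomials, file Alg: a rational function with prescribed poles

Pure algebra. I = Finset.Ico 1 n.

PROOF of Np_monic. X * Dp is monic of degree 1 + (n - 1) = n (n > 0). The second part has degree < n
(each product has at most n - 2 factors of degree one; use degree_sum_le / natDegree bounds, e.g.
show natDegree of every product over a subset J of I is J.card ≤ n - 1 < n, and natDegree_add_le,
natDegree_C_mul_le, natDegree_sum_le_of_forall_le). Then Monic.add_of_left and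
natDegree_add_eq_left_of_natDegree_lt.

PROOF of Np_eval. Evaluate: for j ∈ I, (Dp).eval x = (x - e j) * ∏ i ∈ I.erase j, (x - e i)
(Finset.mul_prod_erase), so ∏_{i ∈ I.erase j} = Dp(x) / (x - e j). If 2 j ≠ n, then n - j ∈ I.erase j
and, as e (n - j) = e j, ∏_{i ∈ (I.erase j).erase (n - j)} = Dp(x) / (x - e j)^2. If 2 j = n, then
q j = 0. Sum up.
-/

set_option autoImplicit false

namespace Pool.Agent.Lib.MP_1a91b9_nuT.Mult

open Polynomial

noncomputable section

/-- The denominator. -/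
def Dp (n : ℕ) (e : ℕ → ℂ) : ℂ[X] := ∏ j ∈ Finset.Ico 1 n, (X - C (e j))

/-- The numerator. -/
def Np (n : ℕ) (e a q : ℕ → ℂ) : ℂ[X] :=
  X * Dp n e + C (1 / 2) * ∑ j ∈ Finset.Ico 1 n,
    (C (a j) * ∏ i ∈ (Finset.Ico 1 n).erase j, (X - C (e i)) +
      if 2 * j = n then 0 else
        C (q j) * ∏ i ∈ ((Finset.Ico 1 n).erase j).erase (n - j), (X - C (e i)))

theorem Dp_monic (n : ℕ) (e : ℕ → ℂ) : (Dp n e).Monic :=
  monic_prod_of_monic _ _ fun i _ => monic_X_sub_C (e i)

theorem Dp_natDegree (n : ℕ) (e : ℕ → ℂ) : (Dp n e).natDegree = n - 1 := by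
  rw [Dp, natDegree_prod_of_monic _ _ fun i _ => monic_X_sub_C (e i)]
  simp

private theorem Alg_deg (e : ℕ → ℂ) (J : Finset ℕ) : (∏ i ∈ J, (X - C (e i))).natDegree = J.card := by
  rw [natDegree_prod_of_monic _ _ fun i _ => monic_X_sub_C (e i)]
  simp

private theorem Alg_eval (e : ℕ → ℂ) (J : Finset ℕ) (x : ℂ) :
    (∏ i ∈ J, (X - C (e i))).eval x = ∏ i ∈ J, (x - e i) := by
  rw [eval_prod]
  refine Finset.prod_congr rfl fun i _ => ?_
  rw [eval_sub, eval_X, eval_C]

theorem Np_monic {n : ℕ} (hn : 0 < n) (e a q : ℕ → ℂ) :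
    (Np n e a q).Monic ∧ (Np n e a q).natDegree = n := by
  have h1 : (X * Dp n e).Monic := monic_X.mul (Dp_monic n e)
  have h2 : (X * Dp n e).natDegree = n := by
    rw [monic_X.natDegree_mul (Dp_monic n e), natDegree_X, Dp_natDegree]
    omega
  have h3 : (C (1 / 2) * ∑ j ∈ Finset.Ico 1 n,
      (C (a j) * ∏ i ∈ (Finset.Ico 1 n).erase j, (X - C (e i)) +
        if 2 * j = n then 0 else
          C (q j) * ∏ i ∈ ((Finset.Ico 1 n).erase j).erase (n - j), (X - C (e i)))).natDegree ≤
      n - 1 := by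
    refine (natDegree_C_mul_le _ _).trans ?_
    refine natDegree_sum_le_of_forall_le _ _ fun j _ => ?_
    have c1 : ((Finset.Ico 1 n).erase j).card ≤ n - 1 := by
      refine (Finset.card_erase_le).trans ?_
      rw [Nat.card_Ico]
    refine (natDegree_add_le _ _).trans (max_le ?_ ?_)
    · refine (natDegree_C_mul_le _ _).trans ?_
      rw [Alg_deg]
      exact c1
    · split_ifs
      · rw [natDegree_zero]
        exact Nat.zero_le _
      · refine (natDegree_C_mul_le _ _).trans ?_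
        rw [Alg_deg]
        exact (Finset.card_erase_le).trans c1
  have h4 : (C (1 / 2) * ∑ j ∈ Finset.Ico 1 n,
      (C (a j) * ∏ i ∈ (Finset.Ico 1 n).erase j, (X - C (e i)) +
        if 2 * j = n then 0 else
          C (q j) * ∏ i ∈ ((Finset.Ico 1 n).erase j).erase (n - j), (X - C (e i)))).natDegree <
      (X * Dp n e).natDegree := by
    rw [h2]
    omega
  unfold Np
  exact ⟨h1.add_of_left (degree_lt_degree h4),
    (natDegree_add_eq_left_of_natDegree_lt h4).trans h2⟩

theorem Np_eval {n : ℕ} {e a q : ℕ → ℂ} (he : ∀ j ∈ Finset.Ico 1 n, e (n - j) = e j)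
    (hq0 : ∀ j ∈ Finset.Ico 1 n, 2 * j = n → q j = 0) {x : ℂ}
    (hx : ∀ j ∈ Finset.Ico 1 n, x ≠ e j) :
    (Np n e a q).eval x = (Dp n e).eval x *
      (x + (1 / 2) * ∑ j ∈ Finset.Ico 1 n, (a j / (x - e j) + q j / (x - e j) ^ 2)) := by
  unfold Np
  rw [eval_add, eval_mul, eval_X, eval_mul, eval_C, eval_finsetSum, mul_add, mul_comm x]
  congr 1
  rw [Finset.mul_sum, Finset.mul_sum, Finset.mul_sum]
  refine Finset.sum_congr rfl fun j hj => ?_
  have hD : (Dp n e).eval x = ∏ i ∈ Finset.Ico 1 n, (x - e i) := Alg_eval e _ x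
  have hxj : x - e j ≠ 0 := sub_ne_zero.2 (hx j hj)
  have e1 : (x - e j) * ∏ i ∈ (Finset.Ico 1 n).erase j, (x - e i) = (Dp n e).eval x := by
    rw [hD]
    exact Finset.mul_prod_erase _ (fun i => x - e i) hj
  rw [eval_add, eval_mul, eval_C, Alg_eval]
  by_cases h2 : 2 * j = n
  · rw [if_pos h2, eval_zero, hq0 j hj h2, ← e1]
    field_simp
    ring
  · rw [if_neg h2, eval_mul, eval_C, Alg_eval]
    have hj' := Finset.mem_Ico.1 hj
    have hm : n - j ∈ (Finset.Ico 1 n).erase j := by
      rw [Finset.mem_erase, Finset.mem_Ico]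
      omega
    have e2 : (x - e j) * ∏ i ∈ ((Finset.Ico 1 n).erase j).erase (n - j), (x - e i) =
        ∏ i ∈ (Finset.Ico 1 n).erase j, (x - e i) := by
      rw [← he j hj]
      exact Finset.mul_prod_erase _ (fun i => x - e i) hm
    rw [← e1, ← e2]
    field_simp

end

end Pool.Agent.Lib.MP_1a91b9_nuT.Mult
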