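import Pool.Agent.Lib.MP_1a91b9_nuT.Mult.Alg

/-!
# Multiplication polynomials, file AlgC: the numerator and the denominator are coprime

Pure algebra. I = Finset.Ico 1 n. Np, Dp are defined in Alg.lean.

PROOF of Np_coprime. Dp is a product: IsCoprime.prod_right; so it suffices: for k ∈ I,
IsCoprime Np (X - C (e k)), i.e. Np.eval (e k) ≠ 0 (e.g. (irreducible_X_sub_C _).coprime_iff_not_dvd /
dvd_iff_isRoot). Evaluate Np at e k: the first part is e k * Dp(e k) = 0.
Case 2 k = n: for every j ∈ I, j ≠ k, both products contain the factor i = k (n - j ≠ k since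
j ≠ k), so vanish; for j = k the second term is absent and the first is
a k * ∏_{i ∈ I.erase k} (e k - e i) ≠ 0, because e i = e k gives i = k or i + k = n = 2k, i = k.
Case 2 k ≠ n: put k' = n - k ∈ I, k' ≠ k, e k' = e k, q k' = q k. All the products over I.erase j
vanish (they contain i = k or i = k'). The products over (I.erase j).erase (n - j) vanish unless
j = k or j = k'; for these two j they are the same set and give together
(1/2) * 2 * q k * ∏_{i ∈ (I.erase k).erase k'} (e k - e i) ≠ 0, because e i = e k gives i = k or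
i + k = n.
-/

set_option autoImplicit false

namespace Pool.Agent.Lib.MP_1a91b9_nuT.Mult

open Polynomial

noncomputable section

private theorem AlgC_eval (n : ℕ) (e a q : ℕ → ℂ) (x : ℂ) : (Np n e a q).eval x =
    x * (∏ j ∈ Finset.Ico 1 n, (x - e j)) + (1 / 2) * ∑ j ∈ Finset.Ico 1 n,
      (a j * ∏ i ∈ (Finset.Ico 1 n).erase j, (x - e i) +
        if 2 * j = n then 0 else
          q j * ∏ i ∈ ((Finset.Ico 1 n).erase j).erase (n - j), (x - e i)) := by
  have hp : ∀ J : Finset ℕ, (∏ i ∈ J, (X - C (e i)) : ℂ[X]).eval x = ∏ i ∈ J, (x - e i) := by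
    intro J
    rw [eval_prod]
    refine Finset.prod_congr rfl fun i _ => ?_
    rw [eval_sub, eval_X, eval_C]
  unfold Np Dp
  rw [eval_add, eval_mul, eval_mul, eval_X, eval_C, hp, eval_finsetSum]
  refine congrArg (fun y => x * (∏ j ∈ Finset.Ico 1 n, (x - e j)) + (1 / 2) * y)
    (Finset.sum_congr rfl fun j _ => ?_)
  rw [eval_add, eval_mul, eval_C, hp]
  split_ifs with h
  · rw [eval_zero]
  · rw [eval_mul, eval_C, hp]

private theorem AlgC_zero {e : ℕ → ℂ} {J : Finset ℕ} {k i : ℕ} (hi : i ∈ J) (h : e i = e k) :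
    ∏ i ∈ J, (e k - e i) = 0 :=
  Finset.prod_eq_zero hi (sub_eq_zero.2 h.symm)

private theorem AlgC_ne {n : ℕ} {e a q : ℕ → ℂ} (he : ∀ j ∈ Finset.Ico 1 n, e (n - j) = e j)
    (hqs : ∀ j ∈ Finset.Ico 1 n, q (n - j) = q j)
    (hq : ∀ j ∈ Finset.Ico 1 n, 2 * j ≠ n → q j ≠ 0)
    (ha : ∀ j ∈ Finset.Ico 1 n, 2 * j = n → a j ≠ 0)
    (hinj : ∀ i ∈ Finset.Ico 1 n, ∀ j ∈ Finset.Ico 1 n, e i = e j → i = j ∨ i + j = n)
    {k : ℕ} (hk : k ∈ Finset.Ico 1 n) : (Np n e a q).eval (e k) ≠ 0 := by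
  have hk' := Finset.mem_Ico.1 hk
  rw [AlgC_eval, AlgC_zero hk rfl, mul_zero, zero_add]
  by_cases h2 : 2 * k = n
  · have hsum : ∑ j ∈ Finset.Ico 1 n,
        (a j * ∏ i ∈ (Finset.Ico 1 n).erase j, (e k - e i) +
          if 2 * j = n then 0 else
            q j * ∏ i ∈ ((Finset.Ico 1 n).erase j).erase (n - j), (e k - e i)) =
        a k * ∏ i ∈ (Finset.Ico 1 n).erase k, (e k - e i) := by
      rw [Finset.sum_eq_single k]
      · rw [if_pos h2, add_zero]
      · intro j hj hjk
        have hj' := Finset.mem_Ico.1 hj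
        rw [AlgC_zero (Finset.mem_erase.2 ⟨hjk.symm, hk⟩) rfl, mul_zero, zero_add]
        split_ifs with h3
        · rfl
        · rw [AlgC_zero (Finset.mem_erase.2 ⟨by omega, Finset.mem_erase.2 ⟨hjk.symm, hk⟩⟩) rfl,
            mul_zero]
      · intro h
        exact absurd hk h
    rw [hsum]
    refine mul_ne_zero (by norm_num) (mul_ne_zero (ha k hk h2) (Finset.prod_ne_zero_iff.2 ?_))
    intro i hi h
    obtain ⟨h3, h4⟩ := Finset.mem_erase.1 hi
    rcases hinj k hk i h4 (sub_eq_zero.1 h) with h5 | h5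
    · exact h3 h5.symm
    · omega
  · have hk2 : n - k ∈ Finset.Ico 1 n := Finset.mem_Ico.2 ⟨by omega, by omega⟩
    have hne : n - k ≠ k := by omega
    have hek : e (n - k) = e k := he k hk
    have hfirst : ∀ j ∈ Finset.Ico 1 n, ∏ i ∈ (Finset.Ico 1 n).erase j, (e k - e i) = 0 := by
      intro j hj
      by_cases hjk : j = k
      · rw [hjk]
        exact AlgC_zero (Finset.mem_erase.2 ⟨hne, hk2⟩) hek
      · exact AlgC_zero (Finset.mem_erase.2 ⟨fun h => hjk h.symm, hk⟩) rfl
    have hsum : ∑ j ∈ Finset.Ico 1 n,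
        (a j * ∏ i ∈ (Finset.Ico 1 n).erase j, (e k - e i) +
          if 2 * j = n then 0 else
            q j * ∏ i ∈ ((Finset.Ico 1 n).erase j).erase (n - j), (e k - e i)) =
        2 * (q k * ∏ i ∈ ((Finset.Ico 1 n).erase k).erase (n - k), (e k - e i)) := by
      have hterm : ∀ j ∈ Finset.Ico 1 n, (a j * ∏ i ∈ (Finset.Ico 1 n).erase j, (e k - e i) +
          if 2 * j = n then 0 else
            q j * ∏ i ∈ ((Finset.Ico 1 n).erase j).erase (n - j), (e k - e i)) =
          (if j = k then q k * ∏ i ∈ ((Finset.Ico 1 n).erase k).erase (n - k), (e k - e i) else 0) +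
          (if j = n - k then q k * ∏ i ∈ ((Finset.Ico 1 n).erase k).erase (n - k), (e k - e i)
            else 0) := by
        intro j hj
        have hj' := Finset.mem_Ico.1 hj
        rw [hfirst j hj, mul_zero, zero_add]
        by_cases hjk : j = k
        · rw [hjk, if_neg h2, if_pos rfl, if_neg hne.symm, add_zero]
        · rw [if_neg hjk, zero_add]
          by_cases hjk2 : j = n - k
          · rw [if_pos hjk2, hjk2, if_neg (by omega), hqs k hk]
            have h6 : n - (n - k) = k := by omega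
            rw [h6, Finset.erase_right_comm]
          · rw [if_neg hjk2]
            split_ifs with h3
            · rfl
            · rw [AlgC_zero (Finset.mem_erase.2 ⟨by omega, Finset.mem_erase.2
                ⟨fun h => hjk h.symm, hk⟩⟩) rfl, mul_zero]
      rw [Finset.sum_congr rfl hterm, Finset.sum_add_distrib, Finset.sum_ite_eq' , if_pos hk,
        Finset.sum_ite_eq', if_pos hk2, two_mul]
    rw [hsum]
    refine mul_ne_zero (by norm_num) (mul_ne_zero (by norm_num) (mul_ne_zero (hq k hk h2)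
      (Finset.prod_ne_zero_iff.2 ?_)))
    intro i hi h
    obtain ⟨h3, h4⟩ := Finset.mem_erase.1 hi
    obtain ⟨h5, h6⟩ := Finset.mem_erase.1 h4
    rcases hinj k hk i h6 (sub_eq_zero.1 h) with h7 | h7
    · exact h5 h7.symm
    · omega

theorem Np_coprime {n : ℕ} {e a q : ℕ → ℂ} (he : ∀ j ∈ Finset.Ico 1 n, e (n - j) = e j)
    (hqs : ∀ j ∈ Finset.Ico 1 n, q (n - j) = q j)
    (hq : ∀ j ∈ Finset.Ico 1 n, 2 * j ≠ n → q j ≠ 0)
    (ha : ∀ j ∈ Finset.Ico 1 n, 2 * j = n → a j ≠ 0)
    (hinj : ∀ i ∈ Finset.Ico 1 n, ∀ j ∈ Finset.Ico 1 n, e i = e j → i = j ∨ i + j = n) :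
    IsCoprime (Np n e a q) (Dp n e) := by
  unfold Dp
  refine IsCoprime.prod_right fun k hk => ?_
  refine (((irreducible_X_sub_C (e k)).coprime_iff_not_dvd).2 fun h => ?_).symm
  exact AlgC_ne he hqs hq ha hinj hk (dvd_iff_isRoot.1 h)

end

end Pool.Agent.Lib.MP_1a91b9_nuT.Mult
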