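import Mathlib

/-!
# Multiplication polynomials, file AlgG: a rational function with prescribed poles, general version
-/

set_option autoImplicit false

namespace Pool.Agent.Lib.MP_1a91b9_nuT.Mult

open Polynomial

noncomputable section

variable {ι : Type*} [DecidableEq ι]

/-- The denominator. -/
def DpG (J : Finset ι) (e : ι → ℂ) : ℂ[X] := ∏ j ∈ J, (X - C (e j))

/-- The numerator. -/
def NpG (J : Finset ι) (ν : ι → ι) (e a q : ι → ℂ) : ℂ[X] :=
  X * DpG J e + C (1 / 2) * ∑ j ∈ J,
    (C (a j) * ∏ i ∈ J.erase j, (X - C (e i)) +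
      if ν j = j then 0 else
        C (q j) * ∏ i ∈ (J.erase j).erase (ν j), (X - C (e i)))

omit [DecidableEq ι] in
theorem DpG_monic (J : Finset ι) (e : ι → ℂ) : (DpG J e).Monic :=
  monic_prod_of_monic _ _ fun i _ => monic_X_sub_C (e i)

omit [DecidableEq ι] in
theorem DpG_natDegree (J : Finset ι) (e : ι → ℂ) : (DpG J e).natDegree = J.card := by
  rw [DpG, natDegree_prod_of_monic _ _ fun i _ => monic_X_sub_C (e i)]
  simp

omit [DecidableEq ι] in
private theorem AlgG_deg (e : ι → ℂ) (J : Finset ι) :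
    (∏ i ∈ J, (X - C (e i))).natDegree = J.card := by
  rw [natDegree_prod_of_monic _ _ fun i _ => monic_X_sub_C (e i)]
  simp

omit [DecidableEq ι] in
private theorem AlgG_eval (e : ι → ℂ) (J : Finset ι) (x : ℂ) :
    (∏ i ∈ J, (X - C (e i))).eval x = ∏ i ∈ J, (x - e i) := by
  rw [eval_prod]
  refine Finset.prod_congr rfl fun i _ => ?_
  rw [eval_sub, eval_X, eval_C]

theorem NpG_monic (J : Finset ι) (ν : ι → ι) (e a q : ι → ℂ) :
    (NpG J ν e a q).Monic ∧ (NpG J ν e a q).natDegree = J.card + 1 := by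
  have h1 : (X * DpG J e).Monic := monic_X.mul (DpG_monic J e)
  have h2 : (X * DpG J e).natDegree = J.card + 1 := by
    rw [monic_X.natDegree_mul (DpG_monic J e), natDegree_X, DpG_natDegree]
    omega
  have h3 : (C (1 / 2) * ∑ j ∈ J,
      (C (a j) * ∏ i ∈ J.erase j, (X - C (e i)) +
        if ν j = j then 0 else
          C (q j) * ∏ i ∈ (J.erase j).erase (ν j), (X - C (e i)))).natDegree ≤
      J.card := by
    refine (natDegree_C_mul_le _ _).trans ?_
    refine natDegree_sum_le_of_forall_le _ _ fun j _ => ?_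
    have c1 : (J.erase j).card ≤ J.card := Finset.card_erase_le
    refine (natDegree_add_le _ _).trans (max_le ?_ ?_)
    · refine (natDegree_C_mul_le _ _).trans ?_
      rw [AlgG_deg]
      exact c1
    · split_ifs
      · rw [natDegree_zero]
        exact Nat.zero_le _
      · refine (natDegree_C_mul_le _ _).trans ?_
        rw [AlgG_deg]
        exact (Finset.card_erase_le).trans c1
  have h4 : (C (1 / 2) * ∑ j ∈ J,
      (C (a j) * ∏ i ∈ J.erase j, (X - C (e i)) +
        if ν j = j then 0 else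
          C (q j) * ∏ i ∈ (J.erase j).erase (ν j), (X - C (e i)))).natDegree <
      (X * DpG J e).natDegree := by
    rw [h2]
    omega
  unfold NpG
  exact ⟨h1.add_of_left (degree_lt_degree h4),
    (natDegree_add_eq_left_of_natDegree_lt h4).trans h2⟩

theorem NpG_eval {J : Finset ι} {ν : ι → ι} {e a q : ι → ℂ} (hν : ∀ j ∈ J, ν j ∈ J)
    (he : ∀ j ∈ J, e (ν j) = e j)
    (hq0 : ∀ j ∈ J, ν j = j → q j = 0) {x : ℂ}
    (hx : ∀ j ∈ J, x ≠ e j) :
    (NpG J ν e a q).eval x = (DpG J e).eval x *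
      (x + (1 / 2) * ∑ j ∈ J, (a j / (x - e j) + q j / (x - e j) ^ 2)) := by
  unfold NpG
  rw [eval_add, eval_mul, eval_X, eval_mul, eval_C, eval_finsetSum, mul_add, mul_comm x]
  congr 1
  rw [Finset.mul_sum, Finset.mul_sum, Finset.mul_sum]
  refine Finset.sum_congr rfl fun j hj => ?_
  have hD : (DpG J e).eval x = ∏ i ∈ J, (x - e i) := AlgG_eval e _ x
  have hxj : x - e j ≠ 0 := sub_ne_zero.2 (hx j hj)
  have e1 : (x - e j) * ∏ i ∈ J.erase j, (x - e i) = (DpG J e).eval x := by
    rw [hD]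
    exact Finset.mul_prod_erase _ (fun i => x - e i) hj
  rw [eval_add, eval_mul, eval_C, AlgG_eval]
  by_cases h2 : ν j = j
  · rw [if_pos h2, eval_zero, hq0 j hj h2, ← e1]
    field_simp
    ring
  · rw [if_neg h2, eval_mul, eval_C, AlgG_eval]
    have hm : ν j ∈ J.erase j := Finset.mem_erase.2 ⟨h2, hν j hj⟩
    have e2 : (x - e j) * ∏ i ∈ (J.erase j).erase (ν j), (x - e i) =
        ∏ i ∈ J.erase j, (x - e i) := by
      rw [← he j hj]
      exact Finset.mul_prod_erase _ (fun i => x - e i) hm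
    rw [← e1, ← e2]
    field_simp

private theorem AlgG_evalN (J : Finset ι) (ν : ι → ι) (e a q : ι → ℂ) (x : ℂ) :
    (NpG J ν e a q).eval x =
    x * (∏ j ∈ J, (x - e j)) + (1 / 2) * ∑ j ∈ J,
      (a j * ∏ i ∈ J.erase j, (x - e i) +
        if ν j = j then 0 else
          q j * ∏ i ∈ (J.erase j).erase (ν j), (x - e i)) := by
  unfold NpG DpG
  rw [eval_add, eval_mul, eval_mul, eval_X, eval_C, AlgG_eval, eval_finsetSum]
  refine congrArg (fun y => x * (∏ j ∈ J, (x - e j)) + (1 / 2) * y)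
    (Finset.sum_congr rfl fun j _ => ?_)
  rw [eval_add, eval_mul, eval_C, AlgG_eval]
  split_ifs with h
  · rw [eval_zero]
  · rw [eval_mul, eval_C, AlgG_eval]

omit [DecidableEq ι] in
private theorem AlgG_zero {e : ι → ℂ} {J : Finset ι} {k i : ι} (hi : i ∈ J) (h : e i = e k) :
    ∏ i ∈ J, (e k - e i) = 0 :=
  Finset.prod_eq_zero hi (sub_eq_zero.2 h.symm)

private theorem AlgG_ne {J : Finset ι} {ν : ι → ι} {e a q : ι → ℂ} (hν : ∀ j ∈ J, ν j ∈ J)
    (hνν : ∀ j ∈ J, ν (ν j) = j)
    (he : ∀ j ∈ J, e (ν j) = e j)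
    (hqs : ∀ j ∈ J, q (ν j) = q j)
    (hq : ∀ j ∈ J, ν j ≠ j → q j ≠ 0)
    (ha : ∀ j ∈ J, ν j = j → a j ≠ 0)
    (hinj : ∀ i ∈ J, ∀ j ∈ J, e i = e j → i = j ∨ j = ν i)
    {k : ι} (hk : k ∈ J) : (NpG J ν e a q).eval (e k) ≠ 0 := by
  rw [AlgG_evalN, AlgG_zero hk rfl, mul_zero, zero_add]
  by_cases h2 : ν k = k
  · have hsum : ∑ j ∈ J,
        (a j * ∏ i ∈ J.erase j, (e k - e i) +
          if ν j = j then 0 else
            q j * ∏ i ∈ (J.erase j).erase (ν j), (e k - e i)) =
        a k * ∏ i ∈ J.erase k, (e k - e i) := by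
      rw [Finset.sum_eq_single k]
      · rw [if_pos h2, add_zero]
      · intro j hj hjk
        rw [AlgG_zero (Finset.mem_erase.2 ⟨hjk.symm, hk⟩) rfl, mul_zero, zero_add]
        split_ifs with h3
        · rfl
        · have h5 : k ≠ ν j := by
            intro h
            apply hjk
            rw [← hνν j hj, ← h, h2]
          rw [AlgG_zero (Finset.mem_erase.2 ⟨h5, Finset.mem_erase.2 ⟨hjk.symm, hk⟩⟩) rfl,
            mul_zero]
      · intro h
        exact absurd hk h
    rw [hsum]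
    refine mul_ne_zero (by norm_num) (mul_ne_zero (ha k hk h2) (Finset.prod_ne_zero_iff.2 ?_))
    intro i hi h
    obtain ⟨h3, h4⟩ := Finset.mem_erase.1 hi
    rcases hinj k hk i h4 (sub_eq_zero.1 h) with h5 | h5
    · exact h3 h5.symm
    · exact h3 (h5.trans h2)
  · have hk2 : ν k ∈ J := hν k hk
    have hek : e (ν k) = e k := he k hk
    have hfirst : ∀ j ∈ J, ∏ i ∈ J.erase j, (e k - e i) = 0 := by
      intro j hj
      by_cases hjk : j = k
      · rw [hjk]
        exact AlgG_zero (Finset.mem_erase.2 ⟨h2, hk2⟩) hek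
      · exact AlgG_zero (Finset.mem_erase.2 ⟨fun h => hjk h.symm, hk⟩) rfl
    have hsum : ∑ j ∈ J,
        (a j * ∏ i ∈ J.erase j, (e k - e i) +
          if ν j = j then 0 else
            q j * ∏ i ∈ (J.erase j).erase (ν j), (e k - e i)) =
        2 * (q k * ∏ i ∈ (J.erase k).erase (ν k), (e k - e i)) := by
      have hterm : ∀ j ∈ J, (a j * ∏ i ∈ J.erase j, (e k - e i) +
          if ν j = j then 0 else
            q j * ∏ i ∈ (J.erase j).erase (ν j), (e k - e i)) =
          (if j = k then q k * ∏ i ∈ (J.erase k).erase (ν k), (e k - e i) else 0) +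
          (if j = ν k then q k * ∏ i ∈ (J.erase k).erase (ν k), (e k - e i)
            else 0) := by
        intro j hj
        rw [hfirst j hj, mul_zero, zero_add]
        by_cases hjk : j = k
        · rw [hjk, if_neg h2, if_pos rfl, if_neg (fun h => h2 h.symm), add_zero]
        · rw [if_neg hjk, zero_add]
          by_cases hjk2 : j = ν k
          · have h6 : ν (ν k) = k := hνν k hk
            have h7 : ν (ν k) ≠ ν k := by
              rw [h6]
              exact fun h => h2 h.symm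
            rw [if_pos hjk2, hjk2, if_neg h7, hqs k hk, h6, Finset.erase_right_comm]
          · rw [if_neg hjk2]
            split_ifs with h3
            · rfl
            · have h5 : k ≠ ν j := by
                intro h
                apply hjk2
                rw [h, hνν j hj]
              rw [AlgG_zero (Finset.mem_erase.2 ⟨h5, Finset.mem_erase.2
                ⟨fun h => hjk h.symm, hk⟩⟩) rfl, mul_zero]
      rw [Finset.sum_congr rfl hterm, Finset.sum_add_distrib, Finset.sum_ite_eq' , if_pos hk,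
        Finset.sum_ite_eq', if_pos hk2, two_mul]
    rw [hsum]
    refine mul_ne_zero (by norm_num) (mul_ne_zero (by norm_num) (mul_ne_zero (hq k hk h2)
      (Finset.prod_ne_zero_iff.2 ?_)))
    intro i hi h
    obtain ⟨h3, h4⟩ := Finset.mem_erase.1 hi
    obtain ⟨h5, h6⟩ := Finset.mem_erase.1 h4
    rcases hinj k hk i h6 (sub_eq_zero.1 h) with h7 | h7
    · exact h5 h7.symm
    · exact h3 h7

theorem NpG_coprime {J : Finset ι} {ν : ι → ι} {e a q : ι → ℂ} (hν : ∀ j ∈ J, ν j ∈ J)
    (hνν : ∀ j ∈ J, ν (ν j) = j)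
    (he : ∀ j ∈ J, e (ν j) = e j)
    (hqs : ∀ j ∈ J, q (ν j) = q j)
    (hq : ∀ j ∈ J, ν j ≠ j → q j ≠ 0)
    (ha : ∀ j ∈ J, ν j = j → a j ≠ 0)
    (hinj : ∀ i ∈ J, ∀ j ∈ J, e i = e j → i = j ∨ j = ν i) :
    IsCoprime (NpG J ν e a q) (DpG J e) := by
  unfold DpG
  refine IsCoprime.prod_right fun k hk => ?_
  refine (((irreducible_X_sub_C (e k)).coprime_iff_not_dvd).2 fun h => ?_).symm
  exact AlgG_ne hν hνν he hqs hq ha hinj hk (dvd_iff_isRoot.1 h)

end

end Pool.Agent.Lib.MP_1a91b9_nuT.Mult
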