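import Pool.Agent.Lib.MP_1a91b9_nuT.Base

/-!
# Multiplication polynomials, file Bas: Liouville theorem and local facts for a period pair
-/

set_option autoImplicit false

namespace Pool.Agent.Lib.MP_1a91b9_nuT.Mult

open Complex Filter Topology

noncomputable section

theorem isOpen_of_iso {S : Set ℂ} (hS : ∀ z, ∀ᶠ w in 𝓝[≠] z, w ∉ S) : IsOpen Sᶜ := by
  rw [isOpen_iff_mem_nhds]
  intro z hz
  have h := hS z
  rw [eventually_nhdsWithin_iff] at h
  filter_upwards [h] with w hw
  by_cases hwz : w = z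
  · rw [hwz]; exact hz
  · exact hw hwz

/-- A function which is periodic for a lattice, holomorphic off a closed discrete set `S` and which
has removable singularities at the points of `S`, is constant off `S`. -/
theorem liouville (L : PeriodPair) {S : Set ℂ} (hS : ∀ z, ∀ᶠ w in 𝓝[≠] z, w ∉ S) {F : ℂ → ℂ}
    (hd : ∀ z ∉ S, DifferentiableAt ℂ F z)
    (hb : ∀ s ∈ S, Tendsto (fun z => (z - s) * F z) (𝓝[≠] s) (𝓝 0))
    (hp : ∀ l ∈ L.lattice, ∀ z, F (z + l) = F z) : ∃ c, ∀ z ∉ S, F z = c := by
  classical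
  have hO := isOpen_of_iso hS
  set G : ℂ → ℂ := fun z => if z ∈ S then limUnder (𝓝[≠] z) F else F z with hG
  have hGF : ∀ z ∉ S, G z = F z := fun z hz => if_neg hz
  have hGd : Differentiable ℂ G := by
    intro z
    by_cases hz : z ∈ S
    · have h1 := hS z
      rw [eventually_nhdsWithin_iff] at h1
      obtain ⟨U, hU, hUo, hzU⟩ := mem_nhds_iff.1 h1
      have hUS : ∀ w ∈ U, w ≠ z → w ∉ S := fun w hw hwz => hU hw hwz
      have h2 : DifferentiableOn ℂ F (U \ {z}) := fun w hw =>
        (hd w (hUS w hw.1 hw.2)).differentiableWithinAt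
      have h3 : (fun w => F w - F z) =o[𝓝[≠] z] fun w => (w - z)⁻¹ := by
        rw [Asymptotics.isLittleO_iff_tendsto']
        · have h4 : Tendsto (fun w => (w - z) * F w - (w - z) * F z) (𝓝[≠] z) (𝓝 0) := by
            have h5 : Tendsto (fun w => (w - z) * F z) (𝓝[≠] z) (𝓝 0) := by
              have h6 : ContinuousAt (fun w => (w - z) * F z) z := by fun_prop
              have h7 := h6.tendsto
              rw [sub_self, zero_mul] at h7
              exact h7.mono_left nhdsWithin_le_nhds
            simpa using (hb z hz).sub h5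
          refine h4.congr' ?_
          filter_upwards [self_mem_nhdsWithin] with w hw
          rw [div_inv_eq_mul]
          ring
        · filter_upwards [self_mem_nhdsWithin] with w hw h
          exact absurd (inv_eq_zero.1 h) (sub_ne_zero.2 hw)
      have h8 := Complex.differentiableOn_update_limUnder_of_isLittleO (hUo.mem_nhds hzU) h2 h3
      have h9 : DifferentiableAt ℂ (Function.update F z (limUnder (𝓝[≠] z) F)) z :=
        (h8 z hzU).differentiableAt (hUo.mem_nhds hzU)
      refine h9.congr_of_eventuallyEq ?_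
      filter_upwards [hUo.mem_nhds hzU] with w hw
      by_cases hwz : w = z
      · subst hwz
        rw [Function.update_self]
        exact if_pos hz
      · rw [Function.update_of_ne hwz]
        exact hGF w (hUS w hw hwz)
    · refine (hd z hz).congr_of_eventuallyEq ?_
      filter_upwards [hO.mem_nhds hz] with w hw
      exact hGF w hw
  have hGp : ∀ z : ℂ, ∀ l ∈ L.lattice, G (z + l) = G z := by
    intro z l hl
    have h1 : ∀ᶠ w in 𝓝[≠] z, w + l ∉ S := by
      have h2 := hS (z + l)
      rw [eventually_nhdsWithin_iff] at h2 ⊢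
      have h3 : Tendsto (fun w : ℂ => w + l) (𝓝 z) (𝓝 (z + l)) := by
        have : ContinuousAt (fun w : ℂ => w + l) z := by fun_prop
        exact this
      filter_upwards [h3.eventually h2] with w hw hwz
      apply hw
      intro h
      exact hwz (add_right_cancel h)
    have h4 : ∀ᶠ w in 𝓝[≠] z, G (w + l) = G w := by
      filter_upwards [h1, hS z] with w hw1 hw2
      rw [hGF _ hw1, hGF _ hw2, hp l hl]
    have hc1 : ContinuousAt (fun w => G (w + l)) z :=
      ContinuousAt.comp (g := G) (f := fun w => w + l) hGd.continuous.continuousAt (by fun_prop)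
    exact tendsto_nhds_unique_of_eventuallyEq
      (hc1.tendsto.mono_left (nhdsWithin_le_nhds (s := {z}ᶜ)))
      ((hGd z).continuousAt.tendsto.mono_left (nhdsWithin_le_nhds (s := {z}ᶜ))) h4
  refine ⟨G 0, fun z hz => ?_⟩
  rw [← hGF z hz]
  exact hGd.apply_eq_apply_of_bounded
    (IsZLattice.isCompact_range_of_periodic L.lattice _ hGd.continuous
      (fun z w hw => hGp z w hw)).isBounded z 0

/-- The constant of `liouville` can be read off at any point. -/
theorem liouville_eq (L : PeriodPair) {S : Set ℂ} (hS : ∀ z, ∀ᶠ w in 𝓝[≠] z, w ∉ S) {F : ℂ → ℂ}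
    (hd : ∀ z ∉ S, DifferentiableAt ℂ F z)
    (hb : ∀ s ∈ S, Tendsto (fun z => (z - s) * F z) (𝓝[≠] s) (𝓝 0))
    (hp : ∀ l ∈ L.lattice, ∀ z, F (z + l) = F z) {s a : ℂ}
    (ha : Tendsto F (𝓝[≠] s) (𝓝 a)) : ∀ z ∉ S, F z = a := by
  obtain ⟨c, hc⟩ := liouville L hS hd hb hp
  have h1 : Tendsto F (𝓝[≠] s) (𝓝 c) := by
    refine tendsto_const_nhds.congr' ?_
    filter_upwards [hS s] with w hw
    exact (hc w hw).symm
  rw [tendsto_nhds_unique ha h1]
  exact hc

variable {L : PeriodPair}

/-- Every lattice point is isolated in the lattice. -/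
theorem eventually_notMem (L : PeriodPair) (l : ℂ) : ∀ᶠ z in 𝓝[≠] l, z ∉ L.lattice := by
  have h := L.compl_lattice_sdiff_singleton_mem_nhds l
  filter_upwards [self_mem_nhdsWithin, mem_nhdsWithin_of_mem_nhds h] with z hz hz2 hz3
  exact hz2 ⟨hz3, hz⟩

/-- The division points of the lattice are isolated. -/
theorem eventually_mul_notMem (L : PeriodPair) {α : ℂ} (hα : α ≠ 0) (z : ℂ) :
    ∀ᶠ w in 𝓝[≠] z, α * w ∉ L.lattice := by
  have h1 : Tendsto (fun w : ℂ => α * w) (𝓝[≠] z) (𝓝[≠] (α * z)) := by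
    refine tendsto_nhdsWithin_iff.2 ⟨?_, ?_⟩
    · have h2 : ContinuousAt (fun w : ℂ => α * w) z := by fun_prop
      exact h2.tendsto.mono_left nhdsWithin_le_nhds
    · filter_upwards [self_mem_nhdsWithin] with w hw h
      exact hw (mul_left_cancel₀ hα h)
  exact h1.eventually (eventually_notMem L (α * z))

theorem eventually_add_notMem (L : PeriodPair) (v z : ℂ) :
    ∀ᶠ w in 𝓝[≠] z, w + v ∉ L.lattice := by
  have h1 : Tendsto (fun w : ℂ => w + v) (𝓝[≠] z) (𝓝[≠] (z + v)) := by
    refine tendsto_nhdsWithin_iff.2 ⟨?_, ?_⟩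
    · have h2 : ContinuousAt (fun w : ℂ => w + v) z := by fun_prop
      exact h2.tendsto.mono_left nhdsWithin_le_nhds
    · filter_upwards [self_mem_nhdsWithin] with w hw h
      exact hw (add_right_cancel h)
  exact h1.eventually (eventually_notMem L (z + v))

theorem add_mem_iff {z l : ℂ} (hl : l ∈ L.lattice) : z + l ∈ L.lattice ↔ z ∈ L.lattice := by
  constructor
  · intro h
    have := sub_mem h hl
    rwa [add_sub_cancel_right] at this
  · intro h
    exact add_mem h hl

theorem P_add {l : ℂ} (hl : l ∈ L.lattice) (z : ℂ) :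
    L.weierstrassP (z + l) = L.weierstrassP z := L.weierstrassP_add_coe z ⟨l, hl⟩

theorem Q_add {l : ℂ} (hl : l ∈ L.lattice) (z : ℂ) :
    L.derivWeierstrassP (z + l) = L.derivWeierstrassP z := L.derivWeierstrassP_add_coe z ⟨l, hl⟩

theorem Q_half {s : ℂ} (hs : 2 * s ∈ L.lattice) : L.derivWeierstrassP s = 0 := by
  have h1 := Q_add hs (-s)
  have h2 : -s + 2 * s = s := by ring
  rw [h2, L.derivWeierstrassP_neg] at h1
  have h3 : 2 * L.derivWeierstrassP s = 0 := by linear_combination h1
  simpa using h3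

/-- The regular part of the Weierstrass function at `0`. -/
def Pr (L : PeriodPair) (z : ℂ) : ℂ := L.weierstrassPExcept 0 z

theorem P_eq (z : ℂ) : L.weierstrassP z = (z ^ 2)⁻¹ + Pr L z := by
  have h := L.weierstrassPExcept_add 0 z
  rw [← h, ZeroMemClass.coe_zero, Pr]
  simp
  ring

theorem Pr_zero (L : PeriodPair) : Pr L 0 = 0 := L.weierstrassPExcept_zero _

theorem analyticAt_Pr (L : PeriodPair) : AnalyticAt ℂ (Pr L) 0 :=
  L.analyticAt_weierstrassPExcept 0

theorem hasDerivAt_P {z : ℂ} (hz : z ∉ L.lattice) :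
    HasDerivAt L.weierstrassP (L.derivWeierstrassP z) z := by
  have h1 : DifferentiableAt ℂ L.weierstrassP z :=
    (L.analyticOnNhd_weierstrassP z hz).differentiableAt
  have h2 := h1.hasDerivAt
  rwa [L.deriv_weierstrassP] at h2

theorem continuousAt_P {z : ℂ} (hz : z ∉ L.lattice) : ContinuousAt L.weierstrassP z :=
  (hasDerivAt_P hz).continuousAt

theorem differentiableAt_Q {z : ℂ} (hz : z ∉ L.lattice) :
    DifferentiableAt ℂ L.derivWeierstrassP z :=
  (L.analyticOnNhd_derivWeierstrassP z hz).differentiableAt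

/-- Translation of a punctured limit. -/
theorem tendsto_translate {F : ℂ → ℂ} {b : Filter ℂ} {l : ℂ}
    (h : Tendsto F (𝓝[≠] 0) b) : Tendsto (fun z => F (z - l)) (𝓝[≠] l) b := by
  refine h.comp ?_
  refine tendsto_nhdsWithin_iff.2 ⟨?_, ?_⟩
  · have h1 : ContinuousAt (fun z : ℂ => z - l) l := by fun_prop
    have h2 := h1.tendsto
    rw [sub_self] at h2
    exact h2.mono_left nhdsWithin_le_nhds
  · filter_upwards [self_mem_nhdsWithin] with z hz
    exact sub_ne_zero.2 hz

/-- Translation of a punctured limit by a period. -/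
theorem tendsto_period {F : ℂ → ℂ} (hp : ∀ l ∈ L.lattice, ∀ z, F (z + l) = F z)
    {b : Filter ℂ} {s t : ℂ} (h : Tendsto F (𝓝[≠] s) b) (hst : t - s ∈ L.lattice) :
    Tendsto F (𝓝[≠] t) b := by
  have h1 : Tendsto (fun z : ℂ => z - (t - s)) (𝓝[≠] t) (𝓝[≠] s) := by
    refine tendsto_nhdsWithin_iff.2 ⟨?_, ?_⟩
    · have h1 : ContinuousAt (fun z : ℂ => z - (t - s)) t := by fun_prop
      have h2 := h1.tendsto
      rw [sub_sub_cancel] at h2
      exact h2.mono_left nhdsWithin_le_nhds
    · filter_upwards [self_mem_nhdsWithin] with z hz h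
      apply hz
      have h' : z - (t - s) = s := h
      show z = t
      linear_combination h'
  refine (h.comp h1).congr fun z => ?_
  have := hp (t - s) hst (z - (t - s))
  rw [sub_add_cancel] at this
  exact this.symm

theorem tendsto_mul_zero {F : ℂ → ℂ} {s a : ℂ} (h : Tendsto F (𝓝[≠] s) (𝓝 a)) :
    Tendsto (fun z => (z - s) * F z) (𝓝[≠] s) (𝓝 0) := by
  have h1 : ContinuousAt (fun z : ℂ => z - s) s := by fun_prop
  have h2 := h1.tendsto
  rw [sub_self] at h2
  have h3 := (h2.mono_left (nhdsWithin_le_nhds (s := {s}ᶜ))).mul h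
  rwa [zero_mul] at h3

/-- The double pole at a lattice point. -/
theorem tendsto_P_lattice {l : ℂ} (hl : l ∈ L.lattice) :
    Tendsto (fun z => (z - l) ^ 2 * L.weierstrassP z) (𝓝[≠] l) (𝓝 1) := by
  have h0 : Tendsto (fun z => z ^ 2 * L.weierstrassP z) (𝓝[≠] 0) (𝓝 1) := by
    have h1 : ContinuousAt (fun z => 1 + z ^ 2 * Pr L z) 0 :=
      continuousAt_const.add ((continuousAt_id.pow 2).mul (analyticAt_Pr L).continuousAt)
    have h2 := h1.tendsto.mono_left (nhdsWithin_le_nhds (s := {0}ᶜ))
    simp only [ne_eq, OfNat.ofNat_ne_zero, not_false_eq_true, zero_pow, zero_mul, add_zero] at h2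
    refine h2.congr' ?_
    filter_upwards [self_mem_nhdsWithin] with z hz
    have hz0 : z ≠ 0 := hz
    rw [P_eq z]
    field_simp
  refine (tendsto_translate (l := l) h0).congr fun z => ?_
  have := P_add hl (z - l)
  rw [sub_add_cancel] at this
  rw [this]

/-- The Weierstrass function takes a given value only at isolated points. -/
theorem eventually_P_ne (L : PeriodPair) (e s : ℂ) : ∀ᶠ z in 𝓝[≠] s, L.weierstrassP z ≠ e := by
  have hm : MeromorphicOn (fun z => L.weierstrassP z - e) Set.univ := fun x _ =>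
    (L.meromorphic_weierstrassP x).sub (MeromorphicAt.const e x)
  have h0 : meromorphicOrderAt (fun z => L.weierstrassP z - e) 0 ≠ ⊤ := by
    intro h
    rw [meromorphicOrderAt_eq_top_iff] at h
    have h1 : Tendsto (fun z : ℂ => (z - 0) ^ 2 * L.weierstrassP z) (𝓝[≠] 0) (𝓝 0) := by
      have h2 : ContinuousAt (fun z : ℂ => z ^ 2 * e) 0 := by fun_prop
      have h3 := h2.tendsto.mono_left (nhdsWithin_le_nhds (s := {0}ᶜ))
      simp only [ne_eq, OfNat.ofNat_ne_zero, not_false_eq_true, zero_pow, zero_mul] at h3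
      refine h3.congr' ?_
      filter_upwards [h] with z hz
      rw [sub_zero, sub_eq_zero.1 hz]
    exact zero_ne_one (tendsto_nhds_unique h1 (tendsto_P_lattice (zero_mem _)))
  have h5 := hm.meromorphicOrderAt_ne_top_of_isPreconnected (y := s) isPreconnected_univ
    (Set.mem_univ 0) (Set.mem_univ s) h0
  have h6 := (meromorphicOrderAt_ne_top_iff_eventually_ne_zero (hm s (Set.mem_univ s))).1 h5
  filter_upwards [h6] with z hz
  exact sub_ne_zero.1 hz

end

end Pool.Agent.Lib.MP_1a91b9_nuT.Mult
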