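import Pool.Agent.Lib.MP_1a91b9_nuT.Mult.Bas

/-!
# Multiplication polynomials, file Dist: the distribution relation of the multiplication by `t`

L = (mkPP t h).lattice = ℤ + ℤ t (mem_mk), t^2 = tr t - n, so t * (tr - t) = n and
1 / t = (tr - t) / n.

PROOF of div_mem_iff. j / t = j (tr - t) / n. If n ∣ j, j = n m: j / t = m (tr - t) = m tr + (-m) t.
Conversely if j / t = x + y t with integers x, y: j = x t + y t^2 = x t + y (tr t - n) =
-(y n) + (x + y tr) t, so j = -(y n) by coords_eq (with j = j + 0 t).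

PROOF of exists_unique_div. t s = x + y t (mem_mk). For an integer i: s + i / t = y + (x + i) / t
(field_simp), in L iff (x + i) / t ∈ L iff (n : ℤ) ∣ x + i (add_mem_iff, div_mem_iff). Take
j = ((-x) % n).toNat (n > 0 by n_pos); uniqueness: n ∣ i - j with 0 ≤ i, j < n gives i = j.

PROOF of dist. Let P = (mkPP t h).weierstrassP, F w = t^2 P (t w) - ∑ j ∈ range n, P (w + j / t),
S = {w | t * w ∈ L}. F is periodic (P_add; t (w + l) = t w + t l, t_mul_mem), differentiable off S
(if w + j / t ∈ L then t w + j ∈ L by t_mul_mem, so t w ∈ L; hasDerivAt_P). S is isolated: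
eventually_mul_notMem. Removable singularities: for s ∈ S take j₀ from exists_unique_div; for
w ≠ s: with P z = (z^2)⁻¹ + Pr z (P_eq) and periodicity
t^2 P (t w) = t^2 P (t (w - s)) = ((w - s)^2)⁻¹ + t^2 Pr (t (w - s)) (t * s ∈ L, P_add) and
P (w + j₀ / t) = P (w - s) = ((w - s)^2)⁻¹ + Pr (w - s); the other terms P (w + j / t) are
continuous at s. So F w tends to t^2 Pr 0 - Pr 0 - ∑_{j ≠ j₀} P (s + j / t) (Pr_zero: Pr 0 = 0) as
w → s, w ≠ s; then tendsto_mul_zero. For s = 0, j₀ = 0: the limit is - ∑ j ∈ Ico 1 n, P (j / t). So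
by liouville_eq F z = - ∑ j ∈ Ico 1 n, P (j / t) for z ∉ S. Finally range n = {0} ∪ Ico 1 n
(Finset.sum_range_eq_add_Ico, n > 0). QED. (Split the proof: first a lemma
tendsto_F : t * s ∈ L → j₀ ∈ range n → s + j₀ / t ∈ L → (∀ i ∈ range n, i ≠ j₀ → s + i / t ∉ L) →
Tendsto F (𝓝[≠] s) (𝓝 (- ∑ j ∈ (range n).erase j₀, P (s + j / t))).)
-/

set_option autoImplicit false

namespace Pool.Agent.Lib.MP_1a91b9_nuT.Mult

open Complex Filter Topology

noncomputable section

theorem mem_mk {t : ℂ} {h : t.im ≠ 0} {x : ℂ} :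
    x ∈ (mkPP t h).lattice ↔ ∃ m n : ℤ, (m : ℂ) + n * t = x := by
  rw [PeriodPair.mem_lattice]
  constructor
  · rintro ⟨m, n, h⟩
    exact ⟨m, n, by rw [← h]; show _ = (m : ℂ) * 1 + n * t; ring⟩
  · rintro ⟨m, n, h⟩
    exact ⟨m, n, by rw [← h]; show (m : ℂ) * 1 + n * t = _; ring⟩

/-- Uniqueness of the coordinates. -/
theorem coords_eq {t : ℂ} (h : t.im ≠ 0) {a b a' b' : ℤ}
    (e : (a : ℂ) + b * t = (a' : ℂ) + b' * t) : a = a' ∧ b = b' := by
  have hi := congrArg Complex.im e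
  have hb : (b : ℝ) = b' := by
    simp at hi
    rcases hi with h1 | h1
    · exact_mod_cast h1
    · exact absurd h1 h
  have hb' : b = b' := by exact_mod_cast hb
  refine ⟨?_, hb'⟩
  rw [hb'] at e
  exact_mod_cast add_right_cancel e

variable {t : ℂ} {tr : ℤ} {n : ℕ}

theorem t_ne (h : t.im ≠ 0) : t ≠ 0 := by
  rintro rfl
  simp at h

theorem n_pos (h : t.im ≠ 0) (hq : t ^ 2 = tr * t - n) : 0 < n := by
  rcases Nat.eq_zero_or_pos n with h0 | h0
  · exfalso
    subst h0
    have h1 : t * (t - tr) = 0 := by push_cast at hq; linear_combination hq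
    rcases mul_eq_zero.1 h1 with h2 | h2
    · exact t_ne h h2
    · apply h
      rw [sub_eq_zero.1 h2]
      simp
  · exact h0

theorem t_mul_mem (h : t.im ≠ 0) (hq : t ^ 2 = tr * t - n) {x : ℂ}
    (hx : x ∈ (mkPP t h).lattice) : t * x ∈ (mkPP t h).lattice := by
  obtain ⟨a, b, rfl⟩ := mem_mk.1 hx
  refine mem_mk.2 ⟨-(b * n), a + b * tr, ?_⟩
  push_cast
  linear_combination -(b : ℂ) * hq

/-- The division points `j / t`. -/
theorem div_mem_iff (h : t.im ≠ 0) (hq : t ^ 2 = tr * t - n) (j : ℤ) :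
    (j : ℂ) / t ∈ (mkPP t h).lattice ↔ (n : ℤ) ∣ j := by
  have ht := t_ne h
  constructor
  · intro hj
    obtain ⟨x, y, hxy⟩ := mem_mk.1 hj
    have h1 : (j : ℂ) = x * t + y * t ^ 2 := by
      rw [eq_div_iff ht] at hxy
      linear_combination -hxy
    have h2 : ((j : ℤ) : ℂ) + ((0 : ℤ) : ℂ) * t =
        ((-(y * n) : ℤ) : ℂ) + ((x + y * tr : ℤ) : ℂ) * t := by
      push_cast
      rw [h1, hq]
      ring
    have h3 := (coords_eq h h2).1
    exact ⟨-y, by rw [h3]; ring⟩
  · rintro ⟨a, rfl⟩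
    refine mem_mk.2 ⟨a * tr, -a, ?_⟩
    rw [eq_div_iff ht]
    push_cast
    linear_combination -(a : ℂ) * hq

/-- Every point of `t⁻¹ L` is congruent to exactly one `- j / t` with `0 ≤ j < n`. -/
theorem exists_unique_div (h : t.im ≠ 0) (hq : t ^ 2 = tr * t - n) {s : ℂ}
    (hs : t * s ∈ (mkPP t h).lattice) :
    ∃ j ∈ Finset.range n, s + (j : ℂ) / t ∈ (mkPP t h).lattice ∧
      ∀ i ∈ Finset.range n, i ≠ j → s + (i : ℂ) / t ∉ (mkPP t h).lattice := by
  have ht := t_ne h
  have hn := n_pos h hq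
  have hn' : (0 : ℤ) < n := by exact_mod_cast hn
  obtain ⟨x, y, hxy⟩ := mem_mk.1 hs
  have key : ∀ i : ℕ, s + (i : ℂ) / t ∈ (mkPP t h).lattice ↔ (n : ℤ) ∣ x + i := by
    intro i
    have h1 : s + (i : ℂ) / t = ((x + i : ℤ) : ℂ) / t + y := by
      have h2 : s = (x + y * t) / t := by
        rw [eq_div_iff ht]
        linear_combination -hxy
      rw [h2]
      push_cast
      field_simp
      ring
    have h3 : (y : ℂ) ∈ (mkPP t h).lattice := mem_mk.2 ⟨y, 0, by push_cast; ring⟩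
    rw [h1, add_mem_iff h3, div_mem_iff h hq]
  have h0 : 0 ≤ (-x) % (n : ℤ) := Int.emod_nonneg _ hn'.ne'
  have h1 : (-x) % (n : ℤ) < n := Int.emod_lt_of_pos _ hn'
  have h2 : (((-x) % (n : ℤ)).toNat : ℤ) = (-x) % (n : ℤ) := Int.toNat_of_nonneg h0
  have h3 : (n : ℤ) ∣ x + (((-x) % (n : ℤ)).toNat : ℤ) := by
    rw [h2]
    have h4 := Int.emod_add_mul_ediv (-x) n
    exact ⟨-(-x / n), by linear_combination h4⟩
  refine ⟨((-x) % (n : ℤ)).toNat, ?_, (key _).2 h3, ?_⟩
  · rw [Finset.mem_range]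
    omega
  · intro i hi hij hmem
    have h4 := (key i).1 hmem
    have h5 : (n : ℤ) ∣ (i : ℤ) - (((-x) % (n : ℤ)).toNat : ℤ) := by
      have h6 := dvd_sub h4 h3
      have h7 : x + (i : ℤ) - (x + (((-x) % (n : ℤ)).toNat : ℤ)) =
          (i : ℤ) - (((-x) % (n : ℤ)).toNat : ℤ) := by ring
      rwa [h7] at h6
    rw [Finset.mem_range] at hi
    have h8 : (i : ℤ) - (((-x) % (n : ℤ)).toNat : ℤ) = 0 := by
      refine Int.eq_zero_of_abs_lt_dvd h5 ?_
      rw [abs_lt]
      constructor <;> omega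
    apply hij
    omega

private theorem dist_tendsto (h : t.im ≠ 0) {s : ℂ} {j₀ : ℕ}
    (hs : t * s ∈ (mkPP t h).lattice) (hj : j₀ ∈ Finset.range n)
    (hj0 : s + (j₀ : ℂ) / t ∈ (mkPP t h).lattice)
    (hu : ∀ i ∈ Finset.range n, i ≠ j₀ → s + (i : ℂ) / t ∉ (mkPP t h).lattice) :
    Tendsto (fun w => t ^ 2 * (mkPP t h).weierstrassP (t * w) -
      ∑ j ∈ Finset.range n, (mkPP t h).weierstrassP (w + j / t)) (𝓝[≠] s)
      (𝓝 (-∑ j ∈ (Finset.range n).erase j₀, (mkPP t h).weierstrassP (s + j / t))) := by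
  have ht := t_ne h
  have hc1 : ContinuousAt (fun w => t ^ 2 * Pr (mkPP t h) (t * (w - s))) s := by
    have h1 : ContinuousAt (fun w => Pr (mkPP t h) (t * (w - s))) s := by
      refine ContinuousAt.comp (g := Pr (mkPP t h)) (f := fun w => t * (w - s)) ?_ (by fun_prop)
      show ContinuousAt (Pr (mkPP t h)) (t * (s - s))
      rw [sub_self, mul_zero]
      exact (analyticAt_Pr _).continuousAt
    exact continuousAt_const.mul h1
  have hc2 : ContinuousAt (fun w => Pr (mkPP t h) (w - s)) s := by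
    refine ContinuousAt.comp (g := Pr (mkPP t h)) (f := fun w => w - s) ?_ (by fun_prop)
    show ContinuousAt (Pr (mkPP t h)) (s - s)
    rw [sub_self]
    exact (analyticAt_Pr _).continuousAt
  have hc3 : ContinuousAt (fun w => ∑ j ∈ (Finset.range n).erase j₀,
      (mkPP t h).weierstrassP (w + j / t)) s := by
    refine tendsto_finsetSum _ fun j hj1 => ?_
    rw [Finset.mem_erase] at hj1
    have h1 := hu j hj1.2 hj1.1
    exact ContinuousAt.comp (g := (mkPP t h).weierstrassP) (f := fun w => w + j / t)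
      (continuousAt_P h1) (by fun_prop)
  have hc : ContinuousAt (fun w => t ^ 2 * Pr (mkPP t h) (t * (w - s)) -
      Pr (mkPP t h) (w - s) - ∑ j ∈ (Finset.range n).erase j₀,
      (mkPP t h).weierstrassP (w + j / t)) s := (hc1.sub hc2).sub hc3
  have h2 := hc.tendsto.mono_left (nhdsWithin_le_nhds (s := {s}ᶜ))
  simp only [sub_self, mul_zero, Pr_zero, zero_sub] at h2
  refine h2.congr' ?_
  filter_upwards [self_mem_nhdsWithin] with w hw
  have hws : w - s ≠ 0 := sub_ne_zero.2 hw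
  rw [← Finset.add_sum_erase _ _ hj]
  have e1 : (mkPP t h).weierstrassP (t * w) =
      ((t * (w - s)) ^ 2)⁻¹ + Pr (mkPP t h) (t * (w - s)) := by
    have h3 := P_add hs (t * (w - s))
    have h4 : t * (w - s) + t * s = t * w := by ring
    rw [h4] at h3
    rw [h3, P_eq]
  have e2 : (mkPP t h).weierstrassP (w + j₀ / t) =
      ((w - s) ^ 2)⁻¹ + Pr (mkPP t h) (w - s) := by
    have h3 := P_add hj0 (w - s)
    have h4 : w - s + (s + (j₀ : ℂ) / t) = w + j₀ / t := by ring
    rw [h4] at h3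
    rw [h3, P_eq]
  rw [e1, e2, mul_add]
  have e3 : t ^ 2 * ((t * (w - s)) ^ 2)⁻¹ = ((w - s) ^ 2)⁻¹ := by
    field_simp
  rw [e3]
  ring

/-- The distribution relation. -/
theorem dist (h : t.im ≠ 0) (hq : t ^ 2 = tr * t - n) {z : ℂ}
    (hz : t * z ∉ (mkPP t h).lattice) :
    t ^ 2 * (mkPP t h).weierstrassP (t * z) = (mkPP t h).weierstrassP z +
      ∑ j ∈ Finset.Ico 1 n, ((mkPP t h).weierstrassP (z + j / t) -
        (mkPP t h).weierstrassP (j / t)) := by
  have ht := t_ne h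
  have hn := n_pos h hq
  set F : ℂ → ℂ := fun w => t ^ 2 * (mkPP t h).weierstrassP (t * w) -
      ∑ j ∈ Finset.range n, (mkPP t h).weierstrassP (w + j / t) with hF
  have hS : ∀ x, ∀ᶠ w in 𝓝[≠] x, w ∉ {w : ℂ | t * w ∈ (mkPP t h).lattice} := fun x =>
    eventually_mul_notMem _ ht x
  have hd : ∀ w ∉ {w : ℂ | t * w ∈ (mkPP t h).lattice}, DifferentiableAt ℂ F w := by
    intro w hw
    have hw' : t * w ∉ (mkPP t h).lattice := hw
    have h1 : DifferentiableAt ℂ (fun w => (mkPP t h).weierstrassP (t * w)) w := by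
      refine DifferentiableAt.comp (g := (mkPP t h).weierstrassP) (f := fun w => t * w) w ?_
        (by fun_prop)
      exact (hasDerivAt_P hw').differentiableAt
    have h2 : ∀ j ∈ Finset.range n,
        DifferentiableAt ℂ (fun w => (mkPP t h).weierstrassP (w + j / t)) w := by
      intro j _
      refine DifferentiableAt.comp (g := (mkPP t h).weierstrassP) (f := fun w => w + j / t) w ?_
        (by fun_prop)
      refine (hasDerivAt_P fun h3 => hw' ?_).differentiableAt
      have h4 := t_mul_mem h hq h3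
      have h5 : t * (w + (j : ℂ) / t) = t * w + j := by field_simp
      rw [h5] at h4
      have h6 : (j : ℂ) ∈ (mkPP t h).lattice := mem_mk.2 ⟨j, 0, by push_cast; ring⟩
      exact (add_mem_iff h6).1 h4
    exact (h1.const_mul (t ^ 2)).sub (DifferentiableAt.fun_sum h2)
  have hp : ∀ l ∈ (mkPP t h).lattice, ∀ w, F (w + l) = F w := by
    intro l hl w
    have h1 : (mkPP t h).weierstrassP (t * (w + l)) = (mkPP t h).weierstrassP (t * w) := by
      rw [mul_add, P_add (t_mul_mem h hq hl)]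
    have h2 : ∀ j ∈ Finset.range n, (mkPP t h).weierstrassP (w + l + j / t) =
        (mkPP t h).weierstrassP (w + j / t) := by
      intro j _
      have h3 : w + l + (j : ℂ) / t = w + j / t + l := by ring
      rw [h3, P_add hl]
    show t ^ 2 * (mkPP t h).weierstrassP (t * (w + l)) -
      ∑ j ∈ Finset.range n, (mkPP t h).weierstrassP (w + l + j / t) = _
    rw [h1, Finset.sum_congr rfl h2]
  have hb : ∀ s ∈ {w : ℂ | t * w ∈ (mkPP t h).lattice},
      Tendsto (fun w => (w - s) * F w) (𝓝[≠] s) (𝓝 0) := by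
    intro s hs
    have hs' : t * s ∈ (mkPP t h).lattice := hs
    obtain ⟨j₀, hj, hj0, hu⟩ := exists_unique_div h hq hs'
    exact tendsto_mul_zero (dist_tendsto h hs' hj hj0 hu)
  have h0 : t * 0 ∈ (mkPP t h).lattice := by
    rw [mul_zero]
    exact zero_mem _
  have hr0 : 0 ∈ Finset.range n := Finset.mem_range.2 hn
  have ha := dist_tendsto (n := n) (j₀ := 0) h h0 hr0
    (by rw [Nat.cast_zero, zero_div, add_zero]; exact zero_mem _)
    (by
      intro i hi hi0 hmem
      rw [zero_add] at hmem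
      have h1 := (div_mem_iff h hq (i : ℤ)).1 (by exact_mod_cast hmem)
      have h2 : n ∣ i := by exact_mod_cast h1
      rw [Finset.mem_range] at hi
      exact hi0 (Nat.eq_zero_of_dvd_of_lt h2 hi))
  have h1 := liouville_eq (mkPP t h) hS hd hb hp ha z hz
  have h2 : (Finset.range n).erase 0 = Finset.Ico 1 n := by
    ext j
    rw [Finset.mem_erase, Finset.mem_range, Finset.mem_Ico]
    omega
  have h3 : t ^ 2 * (mkPP t h).weierstrassP (t * z) -
      ∑ j ∈ Finset.range n, (mkPP t h).weierstrassP (z + j / t) =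
      -∑ j ∈ (Finset.range n).erase 0, (mkPP t h).weierstrassP (0 + j / t) := h1
  rw [← Finset.add_sum_erase _ _ hr0, h2, Nat.cast_zero, zero_div, add_zero] at h3
  rw [Finset.sum_sub_distrib]
  have h4 : ∑ j ∈ Finset.Ico 1 n, (mkPP t h).weierstrassP (0 + (j : ℂ) / t) =
      ∑ j ∈ Finset.Ico 1 n, (mkPP t h).weierstrassP ((j : ℂ) / t) :=
    Finset.sum_congr rfl fun j _ => by rw [zero_add]
  rw [h4] at h3
  linear_combination h3

end

end Pool.Agent.Lib.MP_1a91b9_nuT.Mult
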