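import Mathlib

/-!
# Multiplication polynomials, file Sc: scaling of a pair of polynomials

Pure algebra. PROOF. Take N' = C (w^n)⁻¹ * N.comp (C w * X) and D' = C (w^(n-1))⁻¹ * D.comp (C w * X).
Coefficients: (p.comp (C w * X)).coeff j = p.coeff j * w^j (Polynomial.comp_C_mul_X_coeff). So
N'.natDegree = n, leading coefficient w^n * 1 * (w^n)⁻¹ = 1; D'.natDegree = n - 1, leading
coefficient that of D. Coprime: comp by C w * X is a ring hom (Polynomial.compRingHom, IsCoprime.map),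
the constants are units (w ≠ 0). Evaluation: eval (x / w) of p.comp (C w * X) is
p.eval (w * (x / w)) = p.eval x.
-/

set_option autoImplicit false

namespace Pool.Agent.Lib.MP_1a91b9_nuT.Mult

open Polynomial

noncomputable section

private theorem sc_natDegree {w : ℂ} (hw : w ≠ 0) (p : ℂ[X]) :
    (p.comp (C w * X)).natDegree = p.natDegree := by
  rw [natDegree_comp, natDegree_C_mul_X w hw, mul_one]

private theorem sc_lead {w : ℂ} (hw : w ≠ 0) (p : ℂ[X]) :
    (p.comp (C w * X)).leadingCoeff = p.leadingCoeff * w ^ p.natDegree := by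
  have h : (C w * X : ℂ[X]).natDegree ≠ 0 := by
    rw [natDegree_C_mul_X w hw]
    exact one_ne_zero
  rw [leadingCoeff_comp h, leadingCoeff_C_mul_X]

private theorem sc_eval {w : ℂ} (hw : w ≠ 0) (p : ℂ[X]) (x : ℂ) :
    (p.comp (C w * X)).eval (x / w) = p.eval x := by
  rw [eval_comp, eval_mul, eval_C, eval_X, mul_div_cancel₀ x hw]

private theorem sc_unit {c : ℂ} (hc : c ≠ 0) : IsUnit (C c : ℂ[X]) :=
  isUnit_C.2 (isUnit_iff_ne_zero.2 hc)

/-- Scaling of a pair of polynomials. -/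
theorem exists_scaled {n : ℕ} {w : ℂ} (hw : w ≠ 0) (N D : ℂ[X]) (hN : N.Monic)
    (hN1 : N.natDegree = n) (hD1 : D.natDegree + 1 = n) (hc : IsCoprime N D) :
    ∃ N' D' : ℂ[X], N'.Monic ∧ N'.natDegree = n ∧ D'.natDegree + 1 = n ∧
      D'.leadingCoeff = D.leadingCoeff ∧ IsCoprime N' D' ∧
      (∀ x, N'.eval (x / w) = N.eval x / w ^ n) ∧
      ∀ x, D'.eval (x / w) = D.eval x / w ^ (n - 1) := by
  have h1 : (w ^ n)⁻¹ ≠ 0 := inv_ne_zero (pow_ne_zero _ hw)
  have h2 : (w ^ (n - 1))⁻¹ ≠ 0 := inv_ne_zero (pow_ne_zero _ hw)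
  have hD2 : D.natDegree = n - 1 := by omega
  refine ⟨C (w ^ n)⁻¹ * N.comp (C w * X), C (w ^ (n - 1))⁻¹ * D.comp (C w * X), ?_, ?_, ?_, ?_, ?_,
    ?_, ?_⟩
  · rw [Monic.def, leadingCoeff_mul, leadingCoeff_C, sc_lead hw, hN.leadingCoeff, hN1, one_mul]
    exact inv_mul_cancel₀ (pow_ne_zero _ hw)
  · rw [natDegree_C_mul h1, sc_natDegree hw, hN1]
  · rw [natDegree_C_mul h2, sc_natDegree hw, hD1]
  · rw [leadingCoeff_mul, leadingCoeff_C, sc_lead hw, hD2, mul_comm, mul_assoc,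
      mul_inv_cancel₀ (pow_ne_zero _ hw), mul_one]
  · rw [isCoprime_mul_unit_left_left (sc_unit h1), isCoprime_mul_unit_left_right (sc_unit h2)]
    exact hc.map (compRingHom (C w * X))
  · intro x
    rw [eval_mul, eval_C, sc_eval hw, div_eq_inv_mul]
  · intro x
    rw [eval_mul, eval_C, sc_eval hw, div_eq_inv_mul]

end

end Pool.Agent.Lib.MP_1a91b9_nuT.Mult
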