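import Pool.Agent.Lib.MP_1a91b9_nuT.Mult.Add2
import Pool.Agent.Lib.MP_1a91b9_nuT.Mult.AlgG
import Pool.Agent.Lib.MP_1a91b9_nuT.Mult.Sc

/-!
# Multiplication polynomials, file Gen: the multiplication by any complex number which preserves
the lattice
-/

set_option autoImplicit false

namespace Pool.Agent.Lib.MP_1a91b9_nuT.Mult

open Complex Filter Topology Polynomial

noncomputable section

/-- `c i`, `i ∈ I`, is a set of representatives of `α⁻¹ L / L`, `i₀` represents zero and `ν` is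
the inversion. -/
structure Reps (L : PeriodPair) (α : ℂ) {ι : Type*} (I : Finset ι) (c : ι → ℂ) (i₀ : ι)
    (ν : ι → ι) : Prop where
  ne : α ≠ 0
  stab : ∀ l ∈ L.lattice, α * l ∈ L.lattice
  mem : i₀ ∈ I
  zero : c i₀ ∈ L.lattice
  tors : ∀ i ∈ I, α * c i ∈ L.lattice
  rep : ∀ s, α * s ∈ L.lattice → ∃ i ∈ I, s + c i ∈ L.lattice
  inj : ∀ i ∈ I, ∀ j ∈ I, c i - c j ∈ L.lattice → i = j
  nmem : ∀ i ∈ I, ν i ∈ I
  nneg : ∀ i ∈ I, c (ν i) + c i ∈ L.lattice

variable {L : PeriodPair} {α : ℂ} {ι : Type*} [DecidableEq ι] {I : Finset ι} {c : ι → ℂ} {i₀ : ι}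
  {ν : ι → ι}

omit [DecidableEq ι] in
theorem Reps.notMem (h : Reps L α I c i₀ ν) {i : ι} (hi : i ∈ I) (hne : i ≠ i₀) :
    c i ∉ L.lattice := fun hm =>
  hne (h.inj i hi i₀ h.mem (sub_mem hm h.zero))

omit [DecidableEq ι] in
theorem Reps.nn (h : Reps L α I c i₀ ν) {i : ι} (hi : i ∈ I) : ν (ν i) = i := by
  refine h.inj _ (h.nmem _ (h.nmem _ hi)) i hi ?_
  have h1 := sub_mem (h.nneg _ (h.nmem _ hi)) (h.nneg _ hi)
  have h2 : c (ν (ν i)) + c (ν i) - (c (ν i) + c i) = c (ν (ν i)) - c i := by ring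
  rwa [h2] at h1

omit [DecidableEq ι] in
theorem Reps.n_eq_iff (h : Reps L α I c i₀ ν) {i : ι} (hi : i ∈ I) :
    ν i = i ↔ 2 * c i ∈ L.lattice := by
  constructor
  · intro h1
    have h2 := h.nneg i hi
    rwa [h1, ← two_mul] at h2
  · intro h1
    refine h.inj _ (h.nmem _ hi) i hi ?_
    have h2 := sub_mem (h.nneg i hi) h1
    have h3 : c (ν i) + c i - 2 * c i = c (ν i) - c i := by ring
    rwa [h3] at h2

omit [DecidableEq ι] in
theorem Reps.n_ne (h : Reps L α I c i₀ ν) {i : ι} (hi : i ∈ I) (hne : i ≠ i₀) : ν i ≠ i₀ := by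
  intro h1
  apply h.notMem hi hne
  have h2 := sub_mem (h.nneg i hi) h.zero
  rw [h1, add_sub_cancel_left] at h2
  exact h2

omit [DecidableEq ι] in
theorem Reps.unique (h : Reps L α I c i₀ ν) {s : ℂ} {i : ι} (hi : i ∈ I)
    (hs : s + c i ∈ L.lattice) : ∀ j ∈ I, j ≠ i → s + c j ∉ L.lattice := by
  intro j hj hne hm
  apply hne
  refine h.inj j hj i hi ?_
  have h1 := sub_mem hm hs
  have h2 : s + c j - (s + c i) = c j - c i := by ring
  rwa [h2] at h1

private theorem Gen_tendsto (h : Reps L α I c i₀ ν) {s : ℂ} {j₀ : ι}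
    (hs : α * s ∈ L.lattice) (hj : j₀ ∈ I) (hj0 : s + c j₀ ∈ L.lattice) :
    Tendsto (fun w => α ^ 2 * L.weierstrassP (α * w) - ∑ j ∈ I, L.weierstrassP (w + c j)) (𝓝[≠] s)
      (𝓝 (-∑ j ∈ I.erase j₀, L.weierstrassP (s + c j))) := by
  have ht := h.ne
  have hu := h.unique hj hj0
  have hc1 : ContinuousAt (fun w => α ^ 2 * Pr L (α * (w - s))) s := by
    have h1 : ContinuousAt (fun w => Pr L (α * (w - s))) s := by
      refine ContinuousAt.comp (g := Pr L) (f := fun w => α * (w - s)) ?_ (by fun_prop)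
      show ContinuousAt (Pr L) (α * (s - s))
      rw [sub_self, mul_zero]
      exact (analyticAt_Pr _).continuousAt
    exact continuousAt_const.mul h1
  have hc2 : ContinuousAt (fun w => Pr L (w - s)) s := by
    refine ContinuousAt.comp (g := Pr L) (f := fun w => w - s) ?_ (by fun_prop)
    show ContinuousAt (Pr L) (s - s)
    rw [sub_self]
    exact (analyticAt_Pr _).continuousAt
  have hc3 : ContinuousAt (fun w => ∑ j ∈ I.erase j₀, L.weierstrassP (w + c j)) s := by
    refine tendsto_finsetSum _ fun j hj1 => ?_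
    rw [Finset.mem_erase] at hj1
    have h1 := hu j hj1.2 hj1.1
    exact ContinuousAt.comp (g := L.weierstrassP) (f := fun w => w + c j)
      (continuousAt_P h1) (by fun_prop)
  have hc : ContinuousAt (fun w => α ^ 2 * Pr L (α * (w - s)) -
      Pr L (w - s) - ∑ j ∈ I.erase j₀, L.weierstrassP (w + c j)) s := (hc1.sub hc2).sub hc3
  have h2 := hc.tendsto.mono_left (nhdsWithin_le_nhds (s := {s}ᶜ))
  simp only [sub_self, mul_zero, Pr_zero, zero_sub] at h2
  refine h2.congr' ?_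
  filter_upwards [self_mem_nhdsWithin] with w hw
  have hws : w - s ≠ 0 := sub_ne_zero.2 hw
  rw [← Finset.add_sum_erase _ _ hj]
  have e1 : L.weierstrassP (α * w) = ((α * (w - s)) ^ 2)⁻¹ + Pr L (α * (w - s)) := by
    have h3 := P_add hs (α * (w - s))
    have h4 : α * (w - s) + α * s = α * w := by ring
    rw [h4] at h3
    rw [h3, P_eq]
  have e2 : L.weierstrassP (w + c j₀) = ((w - s) ^ 2)⁻¹ + Pr L (w - s) := by
    have h3 := P_add hj0 (w - s)
    have h4 : w - s + (s + c j₀) = w + c j₀ := by ring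
    rw [h4] at h3
    rw [h3, P_eq]
  rw [e1, e2, mul_add]
  have e3 : α ^ 2 * ((α * (w - s)) ^ 2)⁻¹ = ((w - s) ^ 2)⁻¹ := by
    field_simp
  rw [e3]
  ring

/-- The distribution relation. -/
theorem distG (h : Reps L α I c i₀ ν) {z : ℂ} (hz : α * z ∉ L.lattice) :
    α ^ 2 * L.weierstrassP (α * z) = L.weierstrassP z +
      ∑ j ∈ I.erase i₀, (L.weierstrassP (z + c j) - L.weierstrassP (c j)) := by
  have ht := h.ne
  set F : ℂ → ℂ := fun w => α ^ 2 * L.weierstrassP (α * w) -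
      ∑ j ∈ I, L.weierstrassP (w + c j) with hF
  have hS : ∀ x, ∀ᶠ w in 𝓝[≠] x, w ∉ {w : ℂ | α * w ∈ L.lattice} := fun x =>
    eventually_mul_notMem _ ht x
  have hd : ∀ w ∉ {w : ℂ | α * w ∈ L.lattice}, DifferentiableAt ℂ F w := by
    intro w hw
    have hw' : α * w ∉ L.lattice := hw
    have h1 : DifferentiableAt ℂ (fun w => L.weierstrassP (α * w)) w := by
      refine DifferentiableAt.comp (g := L.weierstrassP) (f := fun w => α * w) w ?_
        (by fun_prop)
      exact (hasDerivAt_P hw').differentiableAt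
    have h2 : ∀ j ∈ I, DifferentiableAt ℂ (fun w => L.weierstrassP (w + c j)) w := by
      intro j hj
      refine DifferentiableAt.comp (g := L.weierstrassP) (f := fun w => w + c j) w ?_
        (by fun_prop)
      refine (hasDerivAt_P fun h3 => hw' ?_).differentiableAt
      have h4 := h.stab _ h3
      rw [mul_add] at h4
      exact (add_mem_iff (h.tors j hj)).1 h4
    exact (h1.const_mul (α ^ 2)).sub (DifferentiableAt.fun_sum h2)
  have hp : ∀ l ∈ L.lattice, ∀ w, F (w + l) = F w := by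
    intro l hl w
    have h1 : L.weierstrassP (α * (w + l)) = L.weierstrassP (α * w) := by
      rw [mul_add, P_add (h.stab _ hl)]
    have h2 : ∀ j ∈ I, L.weierstrassP (w + l + c j) = L.weierstrassP (w + c j) := by
      intro j _
      have h3 : w + l + c j = w + c j + l := by ring
      rw [h3, P_add hl]
    show α ^ 2 * L.weierstrassP (α * (w + l)) -
      ∑ j ∈ I, L.weierstrassP (w + l + c j) = _
    rw [h1, Finset.sum_congr rfl h2]
  have hb : ∀ s ∈ {w : ℂ | α * w ∈ L.lattice},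
      Tendsto (fun w => (w - s) * F w) (𝓝[≠] s) (𝓝 0) := by
    intro s hs
    obtain ⟨j₀, hj, hj0⟩ := h.rep s hs
    exact tendsto_mul_zero (Gen_tendsto h hs hj hj0)
  have h0 : α * 0 ∈ L.lattice := by
    rw [mul_zero]
    exact zero_mem _
  have ha := Gen_tendsto (j₀ := i₀) h h0 h.mem (by rw [zero_add]; exact h.zero)
  have h1 := liouville_eq L hS hd hb hp ha z hz
  have h3 : α ^ 2 * L.weierstrassP (α * z) - ∑ j ∈ I, L.weierstrassP (z + c j) =
      -∑ j ∈ I.erase i₀, L.weierstrassP (0 + c j) := h1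
  rw [← Finset.add_sum_erase _ _ h.mem, P_add h.zero] at h3
  rw [Finset.sum_sub_distrib]
  have h4 : ∑ j ∈ I.erase i₀, L.weierstrassP (0 + c j) =
      ∑ j ∈ I.erase i₀, L.weierstrassP (c j) :=
    Finset.sum_congr rfl fun j _ => by rw [zero_add]
  rw [h4] at h3
  linear_combination h3

/-- The multiplication by `α` on the values of the Weierstrass function. -/
theorem exists_mulG (h : Reps L α I c i₀ ν) :
    ∃ N D : ℂ[X], N.Monic ∧ N.natDegree = I.card ∧ D.natDegree + 1 = I.card ∧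
      D.leadingCoeff = α ^ 2 ∧ IsCoprime N D ∧
      (∀ x, D.eval x = α ^ 2 * ∏ i ∈ I.erase i₀, (x - L.weierstrassP (c i))) ∧
      ∀ z, z ∉ L.lattice → α * z ∉ L.lattice →
        N.eval (L.weierstrassP z) =
          L.weierstrassP (α * z) * D.eval (L.weierstrassP z) := by
  have ht2 : α ^ 2 ≠ 0 := pow_ne_zero 2 h.ne
  have hJ : ∀ i ∈ I.erase i₀, i ∈ I ∧ i ≠ i₀ := fun i hi =>
    ⟨(Finset.mem_erase.1 hi).2, (Finset.mem_erase.1 hi).1⟩
  have hc : ∀ i ∈ I.erase i₀, c i ∉ L.lattice := fun i hi => h.notMem (hJ i hi).1 (hJ i hi).2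
  have hex : ∀ j : ι, ∃ a : ℂ, j ∈ I.erase i₀ → ∀ z, z ∉ L.lattice →
      z + c j ∉ L.lattice → z - c j ∉ L.lattice →
      (L.weierstrassP (z + c j) + L.weierstrassP (z - c j) - 2 * L.weierstrassP (c j)) *
        (L.weierstrassP z - L.weierstrassP (c j)) ^ 2 =
      a * (L.weierstrassP z - L.weierstrassP (c j)) + L.derivWeierstrassP (c j) ^ 2 := by
    intro j
    by_cases hj : j ∈ I.erase i₀
    · obtain ⟨a, ha⟩ := add_formula (hc j hj)
      exact ⟨a, fun _ => ha⟩
    · exact ⟨0, fun h' => absurd h' hj⟩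
  choose a ha using hex
  set e : ι → ℂ := fun j => L.weierstrassP (c j) with he
  set q : ι → ℂ := fun j => L.derivWeierstrassP (c j) ^ 2 with hqd
  have hν : ∀ j ∈ I.erase i₀, ν j ∈ I.erase i₀ := fun j hj =>
    Finset.mem_erase.2 ⟨h.n_ne (hJ j hj).1 (hJ j hj).2, h.nmem j (hJ j hj).1⟩
  have hνν : ∀ j ∈ I.erase i₀, ν (ν j) = j := fun j hj => h.nn (hJ j hj).1
  have hes : ∀ j ∈ I.erase i₀, e (ν j) = e j := by
    intro j hj
    have h1 := P_add (h.nneg j (hJ j hj).1) (-(c j))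
    have h2 : -(c j) + (c (ν j) + c j) = c (ν j) := by ring
    rw [h2, L.weierstrassP_neg] at h1
    exact h1
  have hqs : ∀ j ∈ I.erase i₀, q (ν j) = q j := by
    intro j hj
    have h1 := Q_add (h.nneg j (hJ j hj).1) (-(c j))
    have h2 : -(c j) + (c (ν j) + c j) = c (ν j) := by ring
    rw [h2, L.derivWeierstrassP_neg] at h1
    simp only [hqd]
    rw [h1, neg_sq]
  have hq0 : ∀ j ∈ I.erase i₀, ν j = j → q j = 0 := by
    intro j hj h2
    simp only [hqd]
    rw [Q_half ((h.n_eq_iff (hJ j hj).1).1 h2)]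
    ring
  have hqn : ∀ j ∈ I.erase i₀, ν j ≠ j → q j ≠ 0 := by
    intro j hj h2
    exact pow_ne_zero 2 (Q_ne fun h3 => h2 ((h.n_eq_iff (hJ j hj).1).2 h3))
  have han : ∀ j ∈ I.erase i₀, ν j = j → a j ≠ 0 := by
    intro j hj h2
    exact coef_ne (hc j hj) ((h.n_eq_iff (hJ j hj).1).1 h2) (ha j hj)
  have hinj : ∀ i ∈ I.erase i₀, ∀ j ∈ I.erase i₀, e i = e j → i = j ∨ j = ν i := by
    intro i hi j hj hij
    rcases P_inj (hc i hi) (hc j hj) hij with h1 | h1
    · exact Or.inl (h.inj i (hJ i hi).1 j (hJ j hj).1 h1)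
    · right
      refine h.inj j (hJ j hj).1 (ν i) (h.nmem i (hJ i hi).1) ?_
      have h2 := sub_mem h1 (h.nneg i (hJ i hi).1)
      have h3 : c i + c j - (c (ν i) + c i) = c j - c (ν i) := by ring
      rwa [h3] at h2
  have hcard : (I.erase i₀).card + 1 = I.card := Finset.card_erase_add_one h.mem
  have hDm := DpG_monic (I.erase i₀) e
  refine ⟨NpG (I.erase i₀) ν e a q, C (α ^ 2) * DpG (I.erase i₀) e,
    (NpG_monic (I.erase i₀) ν e a q).1, (NpG_monic (I.erase i₀) ν e a q).2.trans hcard, ?_, ?_,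
    ?_, ?_, ?_⟩
  · rw [natDegree_C_mul ht2, DpG_natDegree, hcard]
  · rw [leadingCoeff_mul, leadingCoeff_C, hDm.leadingCoeff, mul_one]
  · have hu : IsUnit (C (α ^ 2) : ℂ[X]) := isUnit_C.2 (IsUnit.mk0 _ ht2)
    exact (isCoprime_mul_unit_left_right hu _ _).2 (NpG_coprime hν hνν hes hqs hqn han hinj)
  · intro x
    rw [eval_mul, eval_C, DpG, eval_prod]
    congr 1
    refine Finset.prod_congr rfl fun i _ => ?_
    rw [eval_sub, eval_X, eval_C]
  · intro z hz htz
    have hp1 : ∀ j ∈ I, z + c j ∉ L.lattice := by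
      intro j hj hm
      apply htz
      have h1 := h.stab _ hm
      rw [mul_add] at h1
      exact (add_mem_iff (h.tors j hj)).1 h1
    have hp2 : ∀ j ∈ I, z - c j ∉ L.lattice := by
      intro j hj hm
      apply htz
      have h1 := add_mem (h.stab _ hm) (h.tors j hj)
      have h2 : α * (z - c j) + α * c j = α * z := by ring
      rwa [h2] at h1
    have hx : ∀ j ∈ I.erase i₀, L.weierstrassP z ≠ e j := by
      intro j hj hxe
      rcases P_inj hz (hc j hj) hxe with h1 | h1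
      · exact hp2 j (hJ j hj).1 h1
      · exact hp1 j (hJ j hj).1 h1
    rw [NpG_eval hν hes hq0 hx]
    have h1 : ∀ j ∈ I.erase i₀, a j / (L.weierstrassP z - e j) +
        q j / (L.weierstrassP z - e j) ^ 2 =
        L.weierstrassP (z + c j) + L.weierstrassP (z - c j) - 2 * e j := by
      intro j hj
      have h2 := ha j hj z hz (hp1 j (hJ j hj).1) (hp2 j (hJ j hj).1)
      have h3 : L.weierstrassP z - e j ≠ 0 := sub_ne_zero.2 (hx j hj)
      have h4 : a j / (L.weierstrassP z - e j) + q j / (L.weierstrassP z - e j) ^ 2 =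
          (a j * (L.weierstrassP z - e j) + q j) / (L.weierstrassP z - e j) ^ 2 := by
        field_simp
      rw [h4, div_eq_iff (pow_ne_zero 2 h3)]
      exact h2.symm
    rw [Finset.sum_congr rfl h1]
    have h5 : ∑ j ∈ I.erase i₀, L.weierstrassP (z - c j) =
        ∑ j ∈ I.erase i₀, L.weierstrassP (z + c j) := by
      refine Finset.sum_nbij' ν ν hν hν hνν hνν fun j hj => ?_
      have h6 := P_add (h.nneg j (hJ j hj).1) (z - c j)
      have h7 : z - c j + (c (ν j) + c j) = z + c (ν j) := by ring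
      rw [h7] at h6
      exact h6.symm
    rw [Finset.sum_sub_distrib, Finset.sum_add_distrib, h5, ← Finset.mul_sum]
    have h7 := distG h (z := z) htz
    rw [Finset.sum_sub_distrib] at h7
    rw [eval_mul, eval_C]
    linear_combination (-(DpG (I.erase i₀) e).eval (L.weierstrassP z)) * h7

/-- The multiplication by `α` on the values of `℘ / Om²`. -/
theorem exists_mulGOm (h : Reps L α I c i₀ ν) {Om : ℂ} (hOm : Om ≠ 0) :
    ∃ N D : ℂ[X], N.Monic ∧ N.natDegree = I.card ∧ D.natDegree + 1 = I.card ∧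
      D.leadingCoeff = α ^ 2 ∧ IsCoprime N D ∧
      (∀ x, D.eval x = α ^ 2 * ∏ i ∈ I.erase i₀, (x - L.weierstrassP (c i) / Om ^ 2)) ∧
      ∀ z, z ∉ L.lattice → α * z ∉ L.lattice →
        N.eval (L.weierstrassP z / Om ^ 2) =
          L.weierstrassP (α * z) / Om ^ 2 * D.eval (L.weierstrassP z / Om ^ 2) := by
  obtain ⟨N, D, h1, h2, h3, h4, h5, h6, h7⟩ := exists_mulG h
  have hw0 : Om ^ 2 ≠ 0 := pow_ne_zero 2 hOm
  obtain ⟨N', D', g1, g2, g3, g4, g5, g6, g7⟩ :=
    exists_scaled (w := Om ^ 2) hw0 N D h1 h2 h3 h5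
  refine ⟨N', D', g1, g2, g3, g4.trans h4, g5, fun x => ?_, fun z hz hz' => ?_⟩
  · have h8 := g7 (x * Om ^ 2)
    rw [mul_div_cancel_right₀ _ hw0, h6] at h8
    rw [h8]
    have hcard : (I.erase i₀).card = I.card - 1 := Finset.card_erase_of_mem h.mem
    have h9 : ∏ i ∈ I.erase i₀, (x * Om ^ 2 - L.weierstrassP (c i)) =
        (Om ^ 2) ^ (I.card - 1) * ∏ i ∈ I.erase i₀, (x - L.weierstrassP (c i) / Om ^ 2) := by
      rw [← hcard, ← Finset.prod_const, ← Finset.prod_mul_distrib]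
      refine Finset.prod_congr rfl fun i _ => ?_
      field_simp
    rw [h9]
    have := pow_ne_zero (I.card - 1) hw0
    field_simp
  · rw [g6, g7, h7 z hz hz']
    have hn : I.card = (I.card - 1) + 1 := by omega
    have hw : (Om ^ 2) ^ I.card = (Om ^ 2) ^ (I.card - 1) * Om ^ 2 := by
      conv_lhs => rw [hn]
      rw [pow_succ]
    rw [hw]
    have := pow_ne_zero (I.card - 1) hw0
    field_simp

end

end Pool.Agent.Lib.MP_1a91b9_nuT.Mult
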