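import Pool.Agent.Lib.MP_1a91b9_nuT.Mult.Add2
import Pool.Agent.Lib.MP_1a91b9_nuT.Mult.Dist
import Pool.Agent.Lib.MP_1a91b9_nuT.Mult.AlgC
import Pool.Agent.Lib.MP_1a91b9_nuT.Mult.Sc

/-!
# Multiplication polynomials, file MulC: the multiplication by `t` over the complex numbers
-/

set_option autoImplicit false

namespace Pool.Agent.Lib.MP_1a91b9_nuT.Mult

open Complex Filter Topology Polynomial

noncomputable section

variable {t : ℂ} {tr : ℤ} {n : ℕ}

private theorem MulC_dvd {a : ℕ} (h1 : 0 < a) (h2 : a < 2 * n) (h : (n : ℤ) ∣ (a : ℤ)) : a = n := by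
  have h3 : n ∣ a := by exact_mod_cast h
  obtain ⟨k, rfl⟩ := h3
  have hk : k = 1 := by
    rcases Nat.lt_or_ge k 2 with hk | hk
    · interval_cases k
      · simp at h1
      · rfl
    · exfalso
      have : n * 2 ≤ n * k := Nat.mul_le_mul_left n hk
      omega
  rw [hk, mul_one]

/-- The multiplication by `t` on the values of the Weierstrass function. -/
theorem exists_mul (h : t.im ≠ 0) (hq : t ^ 2 = tr * t - n) :
    ∃ N D : ℂ[X], N.Monic ∧ N.natDegree = n ∧ D.natDegree + 1 = n ∧ D.leadingCoeff = t ^ 2 ∧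
      IsCoprime N D ∧ ∀ z, z ∉ (mkPP t h).lattice → t * z ∉ (mkPP t h).lattice →
        N.eval ((mkPP t h).weierstrassP z) =
          (mkPP t h).weierstrassP (t * z) * D.eval ((mkPP t h).weierstrassP z) := by
  have hn := n_pos h hq
  have ht := t_ne h
  have ht2 : t ^ 2 ≠ 0 := pow_ne_zero 2 ht
  set L := mkPP t h with hL
  have hdiv : ∀ j : ℤ, (j : ℂ) / t ∈ L.lattice ↔ (n : ℤ) ∣ j := fun j => div_mem_iff h hq j
  have hdivN : ∀ j : ℕ, (j : ℂ) / t ∈ L.lattice ↔ (n : ℤ) ∣ (j : ℤ) := by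
    intro j
    have := hdiv (j : ℤ)
    rwa [Int.cast_natCast] at this
  have hnt : (n : ℂ) / t ∈ L.lattice := (hdivN n).2 dvd_rfl
  have hc : ∀ j ∈ Finset.Ico 1 n, (j : ℂ) / t ∉ L.lattice := by
    intro j hj hm
    rw [Finset.mem_Ico] at hj
    have := MulC_dvd (n := n) (by omega) (by omega) ((hdivN j).1 hm)
    omega
  have hex : ∀ j : ℕ, ∃ a : ℂ, j ∈ Finset.Ico 1 n → ∀ z, z ∉ L.lattice →
      z + (j : ℂ) / t ∉ L.lattice → z - (j : ℂ) / t ∉ L.lattice →
      (L.weierstrassP (z + (j : ℂ) / t) + L.weierstrassP (z - (j : ℂ) / t) -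
        2 * L.weierstrassP ((j : ℂ) / t)) *
        (L.weierstrassP z - L.weierstrassP ((j : ℂ) / t)) ^ 2 =
      a * (L.weierstrassP z - L.weierstrassP ((j : ℂ) / t)) +
        L.derivWeierstrassP ((j : ℂ) / t) ^ 2 := by
    intro j
    by_cases hj : j ∈ Finset.Ico 1 n
    · obtain ⟨a, ha⟩ := add_formula (hc j hj)
      exact ⟨a, fun _ => ha⟩
    · exact ⟨0, fun h' => absurd h' hj⟩
  choose a ha using hex
  set e : ℕ → ℂ := fun j => L.weierstrassP ((j : ℂ) / t) with he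
  set q : ℕ → ℂ := fun j => L.derivWeierstrassP ((j : ℂ) / t) ^ 2 with hqd
  have hsub : ∀ j ∈ Finset.Ico 1 n, ((n - j : ℕ) : ℂ) / t = -((j : ℂ) / t) + (n : ℂ) / t := by
    intro j hj
    rw [Finset.mem_Ico] at hj
    rw [Nat.cast_sub hj.2.le]
    ring
  have hes : ∀ j ∈ Finset.Ico 1 n, e (n - j) = e j := by
    intro j hj
    simp only [he]
    rw [hsub j hj, P_add hnt, L.weierstrassP_neg]
  have hqs : ∀ j ∈ Finset.Ico 1 n, q (n - j) = q j := by
    intro j hj
    simp only [hqd]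
    rw [hsub j hj, Q_add hnt, L.derivWeierstrassP_neg, neg_sq]
  have htwo : ∀ j : ℕ, 2 * ((j : ℂ) / t) = ((2 * j : ℕ) : ℂ) / t := by
    intro j
    push_cast
    ring
  have hq0 : ∀ j ∈ Finset.Ico 1 n, 2 * j = n → q j = 0 := by
    intro j hj h2
    simp only [hqd]
    rw [Q_half (by rw [htwo, h2]; exact hnt)]
    ring
  have hqn : ∀ j ∈ Finset.Ico 1 n, 2 * j ≠ n → q j ≠ 0 := by
    intro j hj h2
    rw [Finset.mem_Ico] at hj
    refine pow_ne_zero 2 (Q_ne ?_)
    rw [htwo, hdivN]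
    intro h3
    exact h2 (MulC_dvd (by omega) (by omega) h3)
  have han : ∀ j ∈ Finset.Ico 1 n, 2 * j = n → a j ≠ 0 := by
    intro j hj h2
    exact coef_ne (hc j hj) (by rw [htwo, h2]; exact hnt) (ha j hj)
  have hinj : ∀ i ∈ Finset.Ico 1 n, ∀ j ∈ Finset.Ico 1 n, e i = e j → i = j ∨ i + j = n := by
    intro i hi j hj hij
    have hi' := Finset.mem_Ico.1 hi
    have hj' := Finset.mem_Ico.1 hj
    rcases P_inj (hc i hi) (hc j hj) hij with h1 | h1
    · left
      have h2 : (i : ℂ) / t - (j : ℂ) / t = (((i : ℤ) - j : ℤ) : ℂ) / t := by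
        push_cast; ring
      rw [h2, hdiv] at h1
      have h3 : (i : ℤ) - j = 0 := Int.eq_zero_of_abs_lt_dvd h1 (by rw [abs_lt]; omega)
      omega
    · right
      have h2 : (i : ℂ) / t + (j : ℂ) / t = ((i + j : ℕ) : ℂ) / t := by
        push_cast; ring
      rw [h2, hdivN] at h1
      exact MulC_dvd (by omega) (by omega) h1
  have hCt : (C (t ^ 2) : ℂ[X]) ≠ 0 := C_ne_zero.2 ht2
  have hDm := Dp_monic n e
  refine ⟨Np n e a q, C (t ^ 2) * Dp n e, (Np_monic hn e a q).1, (Np_monic hn e a q).2, ?_, ?_, ?_,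
    ?_⟩
  · rw [natDegree_C_mul ht2, Dp_natDegree]
    omega
  · rw [leadingCoeff_mul, leadingCoeff_C, hDm.leadingCoeff, mul_one]
  · have hu : IsUnit (C (t ^ 2) : ℂ[X]) := isUnit_C.2 (IsUnit.mk0 _ ht2)
    exact (isCoprime_mul_unit_left_right hu _ _).2 (Np_coprime hes hqs hqn han hinj)
  · intro z hz htz
    have hlat : ∀ j : ℕ, (j : ℂ) ∈ L.lattice := fun j => mem_mk.2 ⟨j, 0, by simp⟩
    have hp1 : ∀ j : ℕ, z + (j : ℂ) / t ∉ L.lattice := by
      intro j hm
      apply htz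
      have h1 := t_mul_mem h hq hm
      have h2 : t * (z + (j : ℂ) / t) = t * z + j := by field_simp
      rw [h2] at h1
      exact (add_mem_iff (hlat j)).1 h1
    have hp2 : ∀ j : ℕ, z - (j : ℂ) / t ∉ L.lattice := by
      intro j hm
      apply htz
      have h1 := t_mul_mem h hq hm
      have h2 : t * (z - (j : ℂ) / t) = t * z - j := by field_simp
      rw [h2] at h1
      have h3 := add_mem h1 (hlat j)
      rwa [sub_add_cancel] at h3
    have hx : ∀ j ∈ Finset.Ico 1 n, L.weierstrassP z ≠ e j := by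
      intro j hj hxe
      rcases P_inj hz (hc j hj) hxe with h1 | h1
      · exact hp2 j h1
      · exact hp1 j h1
    rw [Np_eval hes hq0 hx]
    have h1 : ∀ j ∈ Finset.Ico 1 n, a j / (L.weierstrassP z - e j) +
        q j / (L.weierstrassP z - e j) ^ 2 =
        L.weierstrassP (z + (j : ℂ) / t) + L.weierstrassP (z - (j : ℂ) / t) - 2 * e j := by
      intro j hj
      have h2 := ha j hj z hz (hp1 j) (hp2 j)
      have h3 : L.weierstrassP z - e j ≠ 0 := sub_ne_zero.2 (hx j hj)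
      have h4 : a j / (L.weierstrassP z - e j) + q j / (L.weierstrassP z - e j) ^ 2 =
          (a j * (L.weierstrassP z - e j) + q j) / (L.weierstrassP z - e j) ^ 2 := by
        field_simp
      rw [h4, div_eq_iff (pow_ne_zero 2 h3)]
      exact h2.symm
    rw [Finset.sum_congr rfl h1]
    have h5 : ∑ j ∈ Finset.Ico 1 n, L.weierstrassP (z - (j : ℂ) / t) =
        ∑ j ∈ Finset.Ico 1 n, L.weierstrassP (z + (j : ℂ) / t) := by
      have h6 := Finset.sum_Ico_reflect (fun j : ℕ => L.weierstrassP (z + (j : ℂ) / t)) 1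
        (m := n) (n := n) (by omega)
      rw [show n + 1 - n = 1 by omega, show n + 1 - 1 = n by omega] at h6
      rw [← h6]
      refine Finset.sum_congr rfl fun j hj => ?_
      rw [hsub j hj, ← P_add hnt (z - (j : ℂ) / t)]
      congr 1
      ring
    rw [Finset.sum_sub_distrib, Finset.sum_add_distrib, h5, ← Finset.mul_sum]
    have h7 := dist h hq (z := z) htz
    rw [Finset.sum_sub_distrib] at h7
    rw [eval_mul, eval_C]
    linear_combination (-(Dp n e).eval (L.weierstrassP z)) * h7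

/-- The multiplication by `t` on the values of `℘ / Om²`. -/
theorem exists_mulOm (h : t.im ≠ 0) (hq : t ^ 2 = tr * t - n) {Om : ℂ} (hOm : Om ≠ 0) :
    ∃ N D : ℂ[X], N.Monic ∧ N.natDegree = n ∧ D.natDegree + 1 = n ∧ D.leadingCoeff = t ^ 2 ∧
      IsCoprime N D ∧ ∀ z, z ∉ (mkPP t h).lattice → t * z ∉ (mkPP t h).lattice →
        N.eval ((mkPP t h).weierstrassP z / Om ^ 2) =
          (mkPP t h).weierstrassP (t * z) / Om ^ 2 *
            D.eval ((mkPP t h).weierstrassP z / Om ^ 2) := by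
  obtain ⟨N, D, h1, h2, h3, h4, h5, h6⟩ := exists_mul h hq
  obtain ⟨N', D', g1, g2, g3, g4, g5, g6, g7⟩ :=
    exists_scaled (w := Om ^ 2) (pow_ne_zero 2 hOm) N D h1 h2 h3 h5
  refine ⟨N', D', g1, g2, g3, g4.trans h4, g5, fun z hz hz' => ?_⟩
  rw [g6, g7, h6 z hz hz']
  have hn : n = (n - 1) + 1 := by omega
  have hw : (Om ^ 2) ^ n = (Om ^ 2) ^ (n - 1) * Om ^ 2 := by
    conv_lhs => rw [hn]
    rw [pow_succ]
  rw [hw]
  have := pow_ne_zero (n - 1) (pow_ne_zero 2 hOm)
  field_simp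

end

end Pool.Agent.Lib.MP_1a91b9_nuT.Mult
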